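import Pool.Agent.Lib.MP_bc213e_ag.Hyp.Basic

/-! A system of parameters and a primitive element, unramified along the base locus. -/

namespace Pool.Agent.Lib.MP_bc213e_ag.KBG

open Hyp Polynomial IntermediateField Module

variable {K ι : Type} [Field K] [Algebra ℂ K] {n s : ℕ}

/-- The linear system of hyperplane sections. -/
def VV (x : ι → Kˣ) : Submodule ℂ K := Submodule.span ℂ (Set.range fun i => (x i : K))

/-- The affine coordinates `ξ (l + 1) / ξ 0`. -/
def yy (ξ : Fin (n + 1) → K) (l : Fin n) : K := ξ l.succ / ξ 0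

/-- The derivative of the minimal polynomial. -/
noncomputable def dl (F : Type) [Field F] [Algebra F K] (θ : K) : K :=
  aeval θ (derivative (minpoly F θ))

/-- `F` is a copy of the field `ℂ (y)`. -/
def IsF (y : Fin n → K) (F : Type) [Field F] [Algebra F K] : Prop :=
  ∀ z : K, z ∈ Set.range (algebraMap F K) ↔ z ∈ adjoin ℂ (Set.range y)

/-- A system of parameters `ξ` and a primitive element `Θ / ξ 0`, whose discriminant does not
vanish at the point `ξ 2 = 1`, `ξ l = 0` for `l ≠ 2`. -/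
structure Sop (x : ι → Kˣ) (ξ : Fin (s + 3) → K) (Θ : K) : Prop where
  mem : ∀ l, ξ l ∈ VV x
  memT : Θ ∈ VV x
  ne : ∀ l, ξ l ≠ 0
  tb : IsTranscendenceBasis ℂ (yy ξ)
  fd : FiniteDimensional (adjoin ℂ (Set.range (yy ξ))) K
  bd : ∀ z ∈ VV x, z / ξ 0 ∈ Bd (yy ξ) 1
  prim : adjoin (adjoin ℂ (Set.range (yy ξ))) {Θ / ξ 0} = ⊤
  disc : ∃ (Δ : MvPolynomial (Fin (s + 2)) ℂ) (μ : ℕ) (δ : K), δ ∈ Bd (yy ξ) μ ∧
    Δ.totalDegree ≤ finrank (adjoin ℂ (Set.range (yy ξ))) K - 1 + μ ∧ Δ.coeff 0 ≠ 0 ∧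
    dl (adjoin ℂ (Set.range (yy ξ))) (Θ / ξ 0) * δ =
      yy ξ 1 ^ (finrank (adjoin ℂ (Set.range (yy ξ))) K - 1 + μ) *
        MvPolynomial.aeval (fun l => ξ (Fin.succAbove 2 l) / ξ 2) Δ

omit [Algebra ℂ K] in
theorem g1_equiv {F F' : Type} [Field F] [Algebra F K] [Field F'] [Algebra F' K]
    (h : ∀ z : K, z ∈ Set.range (algebraMap F K) ↔ z ∈ Set.range (algebraMap F' K)) :
    ∃ e : F ≃+* F', (algebraMap F' K).comp e = algebraMap F K := by
  have e0 : (algebraMap F K).fieldRange = (algebraMap F' K).fieldRange := by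
    ext z
    exact h z
  refine ⟨((algebraMap F K).rangeRestrictFieldEquiv.trans (RingEquiv.subfieldCongr e0)).trans
    (algebraMap F' K).rangeRestrictFieldEquiv.symm, RingHom.ext fun a => ?_⟩
  exact congrArg Subtype.val ((algebraMap F' K).rangeRestrictFieldEquiv.apply_symm_apply _)

omit [Algebra ℂ K] in
theorem g1_minpoly {F F' : Type} [Field F] [Algebra F K] [Field F'] [Algebra F' K] (e : F ≃+* F')
    (he : (algebraMap F' K).comp e = algebraMap F K) (θ : K) :
    (minpoly F θ).map e = minpoly F' θ := by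
  by_cases h : IsIntegral F θ
  · refine minpoly.eq_of_irreducible_of_monic ?_ ?_ ((minpoly.monic h).map _)
    · rw [← mapEquiv_apply, MulEquiv.irreducible_iff]
      exact minpoly.irreducible h
    · rw [aeval_def, eval₂_map, he, ← aeval_def, minpoly.aeval]
  · rw [minpoly.eq_zero h, Polynomial.map_zero, minpoly.eq_zero]
    rintro ⟨q, h1, h2⟩
    refine h ⟨q.map e.symm, h1.map _, ?_⟩
    rw [eval₂_map, ← he, RingHom.comp_assoc, RingEquiv.comp_symm, RingHom.comp_id, h2]

section copy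

variable {y : Fin n → K} {F : Type} [Field F] [Algebra F K]

theorem isF_self (y : Fin n → K) : IsF y (adjoin ℂ (Set.range y)) :=
  fun z => ⟨fun ⟨a, ha⟩ => ha ▸ a.2, fun hz => ⟨⟨z, hz⟩, rfl⟩⟩

theorem IsF.equiv (h : IsF y F) : ∃ e : F ≃+* adjoin ℂ (Set.range y),
    (algebraMap (adjoin ℂ (Set.range y)) K).comp e = algebraMap F K :=
  g1_equiv fun z => (h z).trans (isF_self y z).symm

/-- The tower `ℂ (y 0) (y 1, …)`. -/
theorem isF_tower {k : Type} [Field k] [Algebra ℂ k] [Algebra k K] [IsScalarTower ℂ k K]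
    {y : Fin (n + 1) → K} (hk : ∀ z : K, z ∈ Set.range (algebraMap k K) ↔ z ∈ adjoin ℂ {y 0}) :
    IsF y (adjoin k (Set.range fun l : Fin n => y l.succ)) := by
  intro z
  constructor
  · rintro ⟨⟨a, ha⟩, rfl⟩
    change a ∈ _
    induction ha using adjoin_induction with
    | mem z hz =>
      obtain ⟨l, rfl⟩ := hz
      exact subset_adjoin _ _ ⟨_, rfl⟩
    | algebraMap c =>
      exact adjoin.mono ℂ _ _ (Set.singleton_subset_iff.2 (Set.mem_range_self 0)) ((hk _).1 ⟨c, rfl⟩)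
    | add a b _ _ ha hb => exact add_mem ha hb
    | inv a _ ha => exact inv_mem ha
    | mul a b _ _ ha hb => exact mul_mem ha hb
  · intro hz
    refine ⟨⟨z, ?_⟩, rfl⟩
    induction hz using adjoin_induction with
    | mem z hz =>
      obtain ⟨l, rfl⟩ := hz
      refine Fin.cases ?_ (fun l => subset_adjoin _ _ (Set.mem_range_self l)) l
      obtain ⟨c, hc⟩ := (hk _).2 (mem_adjoin_simple_self ℂ (y 0))
      rw [← hc]
      exact IntermediateField.algebraMap_mem _ c
    | algebraMap c =>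
      rw [IsScalarTower.algebraMap_apply ℂ k K]
      exact IntermediateField.algebraMap_mem _ _
    | add a b _ _ ha hb => exact add_mem ha hb
    | inv a _ ha => exact inv_mem ha
    | mul a b _ _ ha hb => exact mul_mem ha hb

theorem indep_tower {k : Type} [Field k] [Algebra ℂ k] [Algebra k K] [IsScalarTower ℂ k K]
    {y : Fin (n + 1) → K} (hy : AlgebraicIndependent ℂ y)
    (hk : ∀ z : K, z ∈ Set.range (algebraMap k K) ↔ z ∈ adjoin ℂ {y 0}) :
    AlgebraicIndependent k fun l : Fin n => y l.succ := by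
  obtain ⟨e, he⟩ := g1_equiv (F := k) (F' := adjoin ℂ {y 0}) fun z =>
    (hk z).trans ⟨fun hz => ⟨⟨z, hz⟩, rfl⟩, fun ⟨a, ha⟩ => ha ▸ a.2⟩
  have h1 := ((AlgebraicIndependent.iff_adjoin_image {0}).1 hy).2
  rw [Set.image_singleton] at h1
  have h2 : AlgebraicIndependent (adjoin ℂ {y 0}) fun l : Fin n => y l.succ :=
    algebraicIndependent_adjoin_iff.2 (AlgebraicIndependent.comp h1
      (fun l : Fin n => (⟨l.succ, Fin.succ_ne_zero l⟩ : ({0}ᶜ : Set (Fin (n + 1)))))
      fun a b hab => Fin.succ_injective _ (congrArg Subtype.val hab))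
  exact AlgebraicIndependent.of_ringHom_of_comp_eq e (RingHom.id K) h2 e.injective he

theorem IsF.finrank_eq (h : IsF y F) : finrank F K = finrank (adjoin ℂ (Set.range y)) K := by
  obtain ⟨e, he⟩ := h.equiv
  exact Algebra.finrank_eq_of_equiv_equiv e (RingEquiv.refl K) he

theorem IsF.fd (h : IsF y F) [FiniteDimensional (adjoin ℂ (Set.range y)) K] :
    FiniteDimensional F K := by
  obtain ⟨e, he⟩ := g1_equiv fun z => (isF_self y z).trans (h z).symm
  exact Module.Finite.of_equiv_equiv e (RingEquiv.refl K) he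

theorem IsF.minpoly_eq (h : IsF y F) (θ : K) : (minpoly F θ).map (algebraMap F K) =
    (minpoly (adjoin ℂ (Set.range y)) θ).map (algebraMap _ K) := by
  obtain ⟨e, he⟩ := h.equiv
  rw [← g1_minpoly e he, Polynomial.map_map, he]

theorem IsF.natDegree_eq (h : IsF y F) (θ : K) :
    (minpoly F θ).natDegree = (minpoly (adjoin ℂ (Set.range y)) θ).natDegree := by
  have h1 := congrArg natDegree (h.minpoly_eq θ)
  rwa [natDegree_map, natDegree_map] at h1

theorem IsF.coeff_eq (h : IsF y F) (θ : K) (i : ℕ) : algebraMap F K ((minpoly F θ).coeff i) =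
    algebraMap _ K ((minpoly (adjoin ℂ (Set.range y)) θ).coeff i) := by
  rw [← coeff_map, h.minpoly_eq, coeff_map]

theorem IsF.dl_eq (h : IsF y F) (θ : K) : dl F θ = dl (adjoin ℂ (Set.range y)) θ := by
  rw [dl, dl, ← eval_map_algebraMap, ← eval_map_algebraMap, ← derivative_map, ← derivative_map,
    h.minpoly_eq]

theorem IsF.trace_eq (h : IsF y F) (z : K) : algebraMap F K (Algebra.trace F K z) =
    algebraMap _ K (Algebra.trace (adjoin ℂ (Set.range y)) K z) := by
  obtain ⟨e, he⟩ := h.equiv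
  rw [Algebra.trace_eq_of_equiv_equiv e (RingEquiv.refl K) he, ← he]
  simp

theorem IsF.prim (h : IsF y F) {θ : K} (hθ : adjoin (adjoin ℂ (Set.range y)) {θ} = ⊤) :
    adjoin F {θ} = ⊤ := by
  refine eq_top_iff.2 fun z _ => ?_
  have hz : z ∈ adjoin (adjoin ℂ (Set.range y)) {θ} := hθ ▸ mem_top
  induction hz using adjoin_induction with
  | mem z hz => exact subset_adjoin _ _ hz
  | algebraMap c =>
    obtain ⟨a, ha⟩ := (h c).2 c.2
    change (c : K) ∈ _
    rw [← ha]
    exact IntermediateField.algebraMap_mem _ a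
  | add a b _ _ ha hb => exact add_mem (ha trivial) (hb trivial)
  | inv a _ ha => exact inv_mem (ha trivial)
  | mul a b _ _ ha hb => exact mul_mem (ha trivial) (hb trivial)

end copy

section euler

variable {F : Type} [Field F] [Algebra F K] [FiniteDimensional F K] [CharZero F] {θ : K}

omit [Algebra ℂ K] [CharZero F] in
theorem natDegree_minpoly_eq (hθ : adjoin F {θ} = ⊤) : (minpoly F θ).natDegree = finrank F K :=
  (Field.primitive_element_iff_minpoly_natDegree_eq F θ).1 hθ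

omit [Algebra ℂ K] in
theorem dl_ne_zero (θ : K) : dl F θ ≠ 0 :=
  (Algebra.IsSeparable.isSeparable F θ).aeval_derivative_ne_zero (minpoly.aeval _ _)

omit [Algebra ℂ K] in
/-- Euler's formula for the dual basis. -/
theorem euler (hθ : adjoin F {θ} = ⊤) (φ : K) : dl F θ * φ = ∑ i ∈ Finset.range (finrank F K),
    algebraMap F K (Algebra.trace F K (φ * θ ^ i)) * (minpolyDiv F θ).coeff i := by
  let pb := PowerBasis.ofAdjoinEqTop (IsIntegral.of_finite F θ)
    ((adjoin_eq_top_iff_of_isAlgebraic fun a _ => Algebra.IsAlgebraic.isAlgebraic a).1 hθ)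
  have hg : pb.gen = θ := PowerBasis.ofAdjoinEqTop_gen _ _
  conv_lhs => rw [← pb.basis.traceDual.sum_repr φ]
  rw [pb.finrank, Finset.sum_range, Finset.mul_sum]
  refine Finset.sum_congr rfl fun i _ => ?_
  rw [Module.Basis.traceDual_powerBasis_eq, Module.Basis.traceDual_repr_apply, pb.basis_eq_pow, hg,
    Algebra.traceForm_apply, Algebra.smul_def]
  have h := dl_ne_zero (F := F) θ
  unfold dl at h ⊢
  field_simp

end euler

section bounds

variable {y : Fin n → K} [FiniteDimensional (adjoin ℂ (Set.range y)) K] {F : Type} [Field F]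
  [Algebra F K]

theorem minpoly_coeff_Bd (hF : IsF y F) {μ : ℕ} {r : K} (hr : r ∈ Bd y μ) (i : ℕ) :
    algebraMap F K ((minpoly F r).coeff i) ∈ Bd y (μ * ((minpoly F r).natDegree - i)) := by
  rw [hF.coeff_eq, hF.natDegree_eq]
  intro O c h1 _ h3 h4
  obtain ⟨d, k1, k2, k3, k4⟩ := kl_choose y O h3 h4
  have h5 := kl_int_Bd y hr O h1 k1 k2 k3
  have hd : d ≠ 0 := fun h => k1 (by rw [h]; rfl)
  have e : r / (d : K) ^ μ = (d ^ μ)⁻¹ • r := by
    rw [Algebra.smul_def, div_eq_inv_mul]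
    rfl
  have h6 : algebraMap _ K ((minpoly (adjoin ℂ (Set.range y)) (r / (d : K) ^ μ)).coeff i) ∈ O := by
    rw [minpoly.isIntegrallyClosed_eq_field_fractions' _ h5, coeff_map]
    exact Subtype.property ((minpoly (O.comap (algebraMap (adjoin ℂ (Set.range y)) K))
      (r / (d : K) ^ μ)).coeff i)
  rw [e, IsIntegrallyClosed.minpoly_smul (inv_ne_zero (pow_ne_zero _ hd))
    (IsIntegral.of_finite _ r), coeff_scaleRoots, map_mul, inv_pow, ← pow_mul] at h6
  have h7 := O.mul_mem _ _ h6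
    (pow_mem k4 (μ * ((minpoly (adjoin ℂ (Set.range y)) r).natDegree - i)))
  convert h7 using 1
  change _ = (_ : K) * ((d : K) ^ _)⁻¹ * _
  rw [div_pow]
  field_simp

/-- The coefficients of the minimal polynomial are polynomials of bounded degree. -/
theorem minpoly_coeff_poly (hF : IsF y F) (hy : AlgebraicIndependent ℂ y) {μ : ℕ} {r : K}
    (hr : r ∈ Bd y μ) (i : ℕ) : ∃ p : MvPolynomial (Fin n) ℂ,
      p.totalDegree ≤ μ * ((minpoly F r).natDegree - i) ∧
      MvPolynomial.aeval y p = algebraMap F K ((minpoly F r).coeff i) := by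
  have h1 := minpoly_coeff_Bd hF hr i
  obtain ⟨p, hp⟩ := kl_poly y hy ((hF _).1 ⟨_, rfl⟩) (isIntegral_of_Bd y h1)
  exact ⟨p, kl_deg y hy p (hp ▸ h1), hp⟩

omit [Algebra ℂ K] in
/-- Downward induction along the coefficients of `P / (T - r)`. -/
theorem g1_div {r : K} (hi : IsIntegral F r) (Q : ℕ → K → Prop) (h0 : ∀ j, Q j 0)
    (step : ∀ i j b, i + 1 + j = (minpoly F r).natDegree → (j = 0 → b = 0) → Q (j - 1) b →
      Q j (algebraMap F K ((minpoly F r).coeff (i + 1)) + b * r)) (i : ℕ) :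
    Q ((minpoly F r).natDegree - 1 - i) ((minpolyDiv F r).coeff i) := by
  have hz : ∀ i, (minpoly F r).natDegree ≤ i → (minpolyDiv F r).coeff i = 0 := fun i h =>
    coeff_eq_zero_of_natDegree_lt ((natDegree_minpolyDiv_lt hi).trans_le h)
  have key : ∀ j i, i + 1 + j = (minpoly F r).natDegree → Q j ((minpolyDiv F r).coeff i) := by
    intro j
    induction j with
    | zero =>
      intro i h
      rw [coeff_minpolyDiv, hz (i + 1) (by omega)]
      exact step i 0 0 h (fun _ => rfl) (h0 _)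
    | succ j ih =>
      intro i h
      rw [coeff_minpolyDiv]
      exact step i (j + 1) _ h (fun h => absurd h j.succ_ne_zero) (ih (i + 1) (by omega))
  by_cases h : (minpoly F r).natDegree ≤ i
  · rw [hz i h]
    exact h0 _
  · exact key _ i (by omega)

omit [Algebra ℂ K] in
theorem g1_dl {r : K} (hi : IsIntegral F r) : dl F r =
    ∑ i ∈ Finset.range (minpoly F r).natDegree, (minpolyDiv F r).coeff i * r ^ i := by
  rw [dl, ← eval_minpolyDiv_self, eval_eq_sum_range' (natDegree_minpolyDiv_lt hi)]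

theorem minpolyDiv_coeff_Bd (hF : IsF y F) {μ : ℕ} {r : K} (hr : r ∈ Bd y μ) (i : ℕ) :
    (minpolyDiv F r).coeff i ∈ Bd y (μ * ((minpoly F r).natDegree - 1 - i)) := by
  have := hF.fd
  refine g1_div (IsIntegral.of_finite F r) (fun j b => b ∈ Bd y (μ * j)) (fun _ => zero_mem _)
    (fun i j b h h0 hb => add_mem ?_ ?_) i
  · have h1 := minpoly_coeff_Bd hF hr (i + 1)
    rwa [← h, Nat.add_sub_cancel_left] at h1
  · rcases j with _ | j
    · rw [h0 rfl, zero_mul]
      exact zero_mem _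
    · exact mul_mem_Bd y hb hr

theorem dl_Bd (hF : IsF y F) {μ : ℕ} {r : K} (hr : r ∈ Bd y μ) :
    dl F r ∈ Bd y (μ * ((minpoly F r).natDegree - 1)) := by
  have := hF.fd
  rw [g1_dl (IsIntegral.of_finite F r)]
  refine sum_mem fun i hi => ?_
  have h1 := mul_mem_Bd y (minpolyDiv_coeff_Bd hF hr i) (pow_mem_Bd y hr i)
  have h2 := Finset.mem_range.1 hi
  rwa [← mul_add, Nat.sub_add_cancel (by omega)] at h1

/-- The norm divided by the element. -/
theorem norm_div_Bd {μ : ℕ} {r : K} (hr : r ∈ Bd y μ) (h0 : r ≠ 0) :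
    ((Algebra.norm (adjoin ℂ (Set.range y)) r : adjoin ℂ (Set.range y)) : K) / r ∈
      Bd y (μ * (finrank (adjoin ℂ (Set.range y)) K - 1)) := by
  intro O c h1 _ h3 h4
  obtain ⟨d, k1, k2, k3, k4⟩ := kl_choose y O h3 h4
  have h5 := kl_div O (div_ne_zero h0 (pow_ne_zero μ k1)) (hr O d h1 k1 k2 k3)
    (kl_int_Bd y hr O h1 k1 k2 k3)
  have e : r / (d : K) ^ μ = algebraMap (adjoin ℂ (Set.range y)) K (d ^ μ)⁻¹ * r := by
    rw [div_eq_inv_mul]
    rfl
  obtain ⟨j, hj⟩ := Nat.exists_eq_succ_of_ne_zero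
    (finrank_pos (R := adjoin ℂ (Set.range y)) (M := K)).ne'
  rw [e, map_mul, Algebra.norm_algebraMap, map_mul, inv_pow, ← pow_mul, hj] at h5
  rw [hj, Nat.succ_sub_one]
  have h6 := O.mul_mem _ _ h5 (pow_mem k4 (μ * j))
  convert h6 using 1
  change _ = ((d : K) ^ _)⁻¹ * (_ : K) / (((d : K) ^ _)⁻¹ * _) * _
  rw [div_pow, Nat.mul_succ, pow_add]
  field_simp
  rfl

end bounds

/-- Elements of `Bd` are bounded at every valuation. -/
theorem val_le_of_Bd {κ Γ : Type} [LinearOrderedCommGroupWithZero Γ] {y : κ → K} {μ : ℕ} {r : K}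
    (hr : r ∈ Bd y μ) (v : Valuation K Γ) (hv : ∀ z : ℂ, v (algebraMap ℂ K z) ≤ 1) {c : K}
    (h1 : 1 ≤ v c) (h2 : ∀ l, v (y l) ≤ v c) : v r ≤ v c ^ μ := by
  have h3 : 0 < v c := zero_lt_one.trans_le h1
  have h4 := hr v.valuationSubring c hv ((Valuation.ne_zero_iff v).1 h3.ne')
    (by
      rw [Valuation.mem_valuationSubring_iff, map_inv₀]
      exact inv_le_one_of_one_le₀ h1)
    fun l => by
      rw [Valuation.mem_valuationSubring_iff, map_div₀]
      exact div_le_one_of_le₀ (h2 l) zero_le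
  rwa [Valuation.mem_valuationSubring_iff, map_div₀, map_pow, div_le_one₀ (pow_pos h3 _)] at h4

omit [Algebra ℂ K] in
theorem dl_smul {F : Type} [Field F] [Algebra F K] [FiniteDimensional F K] {d : F} (hd : d ≠ 0)
    (θ : K) : dl F (d • θ) = algebraMap F K d ^ ((minpoly F θ).natDegree - 1) * dl F θ := by
  have hi := IsIntegral.of_finite F θ
  have hp := minpoly.natDegree_pos hi
  rw [dl, dl, IsIntegrallyClosed.minpoly_smul hd hi,
    aeval_eq_sum_range' (n := (minpoly F θ).natDegree)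
      ((natDegree_derivative_lt (by rw [natDegree_scaleRoots]; omega)).trans_eq
        (natDegree_scaleRoots _ _)),
    aeval_eq_sum_range' (natDegree_derivative_lt hp.ne'), Finset.mul_sum]
  refine Finset.sum_congr rfl fun i hi => ?_
  have h1 := Finset.mem_range.1 hi
  obtain ⟨j, hj⟩ : ∃ j, (minpoly F θ).natDegree = i + 1 + j := ⟨_, (Nat.add_sub_cancel' h1).symm⟩
  rw [coeff_derivative, coeff_derivative, coeff_scaleRoots, hj, Nat.add_sub_cancel_left,
    show i + 1 + j - 1 = i + j by omega]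
  simp only [Algebra.smul_def, map_mul, map_pow, mul_pow, pow_add]
  ring

theorem tb_of_fd (dim : Algebra.trdeg ℂ K = n) (y : Fin n → K)
    [FiniteDimensional (adjoin ℂ (Set.range y)) K] : IsTranscendenceBasis ℂ y := by
  have : Algebra.IsAlgebraic (Algebra.adjoin ℂ (Set.range y)) K :=
    isAlgebraic_adjoin_iff_top.1 inferInstance
  exact Algebra.IsAlgebraic.isTranscendenceBasis_of_le_trdeg_of_finite ℂ y (by simp [dim])

theorem one_mem_Bd {κ : Type} (y : κ → K) (μ : ℕ) : (1 : K) ∈ Bd y μ := by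
  intro O c _ _ h3 _
  rw [one_div, ← inv_pow]
  exact pow_mem h3 μ

theorem yy_mem (ξ : Fin (n + 1) → K) (h0 : ξ 0 ≠ 0) (i : Fin (n + 1)) :
    ξ i / ξ 0 ∈ adjoin ℂ (Set.range (yy ξ)) := by
  refine Fin.cases ?_ (fun l => subset_adjoin _ _ (Set.mem_range_self l)) i
  rw [div_self h0]
  exact one_mem _

theorem swap_field (ξ : Fin (n + 1) → K) (j : Fin (n + 1)) (h0 : ξ 0 ≠ 0) (hj : ξ j ≠ 0) :
    adjoin ℂ (Set.range (yy ξ)) = adjoin ℂ (Set.range fun l => ξ (j.succAbove l) / ξ j) := by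
  have h1 : ∀ i, ξ i / ξ j ∈ adjoin ℂ (Set.range fun l => ξ (j.succAbove l) / ξ j) := fun i => by
    rcases Fin.eq_self_or_eq_succAbove j i with rfl | ⟨l, rfl⟩
    · rw [div_self hj]
      exact one_mem _
    · exact subset_adjoin _ _ (Set.mem_range_self l)
  refine le_antisymm (adjoin_le_iff.2 ?_) (adjoin_le_iff.2 ?_)
  · rintro _ ⟨l, rfl⟩
    have h2 := div_mem (h1 l.succ) (h1 0)
    rwa [div_div_div_cancel_right₀ hj] at h2
  · rintro _ ⟨l, rfl⟩
    have h2 := div_mem (yy_mem ξ h0 (j.succAbove l)) (yy_mem ξ h0 j)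
    rwa [div_div_div_cancel_right₀ h0] at h2

theorem swap_Bd (ξ : Fin (n + 1) → K) (j : Fin (n + 1)) (h0 : ξ 0 ≠ 0) (hj : ξ j ≠ 0) {μ : ℕ}
    {r : K} (hr : r ∈ Bd (fun l => ξ (j.succAbove l) / ξ j) μ) :
    r * (ξ j / ξ 0) ^ μ ∈ Bd (yy ξ) μ := by
  intro O c h1 h2 h3 h4
  have h5 : ∀ i, ξ i / ξ 0 / c ∈ O := fun i => by
    refine Fin.cases ?_ h4 i
    rwa [div_self h0, one_div]
  have h6 := hr O (c / (ξ j / ξ 0)) h1 (div_ne_zero h2 (div_ne_zero hj h0))
    (by rw [inv_div]; exact h5 j) fun l => by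
      convert h5 (j.succAbove l) using 1
      field_simp
  rwa [div_pow, div_div_eq_mul_div] at h6

theorem exists_sop [Fintype ι] (x : ι → Kˣ) (i₀ : ι) (one : x i₀ = 1)
    (frac : IsFractionRing (chart x i₀) K) (dim : Algebra.trdeg ℂ K = (s + 2 : ℕ)) :
    ∃ (ξ : Fin (s + 3) → K) (Θ : K), Sop x ξ Θ := by
  have gen : adjoin ℂ (Set.range fun i => (x i : K)) = ⊤ := by
    refine eq_top_iff.2 fun z _ => ?_
    obtain ⟨a, b, -, rfl⟩ := IsFractionRing.div_surjective (chart x i₀) z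
    have e : chart x i₀ = Algebra.adjoin ℂ (Set.range fun i => (x i : K)) := by
      simp only [chart, one, Units.val_one, div_one]
    have h : ∀ r : chart x i₀, algebraMap (chart x i₀) K r ∈
        adjoin ℂ (Set.range fun i => (x i : K)) := fun r =>
      algebra_adjoin_le_adjoin ℂ _ (e ▸ r.2)
    exact div_mem (h a) (h b)
  have hone : (1 : K) ∈ VV x := Submodule.subset_span ⟨i₀, by simp [one]⟩
  obtain ⟨y, hy1, hy, hy2⟩ := nn _ gen dim
  have fd := fd_of_gen _ gen y hy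
  have : CharZero (adjoin ℂ (Set.range y)) := algebraRat.charZero _
  obtain ⟨Θ, hΘ, prim⟩ := exists_primitive _ gen (adjoin ℂ (Set.range y))
  have hV : ∀ z ∈ VV x, z ∈ Bd y 1 := fun z hz => Bd_le_Bd _ y hy2 1 (span_le_Bd _ hz)
  have hN := natDegree_minpoly_eq prim
  have d1 := dl_Bd (isF_self y) (hV Θ hΘ)
  rw [one_mul, hN] at d1
  have d0 := dl_ne_zero (F := adjoin ℂ (Set.range y)) Θ
  have n1 := norm_mem_Bd y d1
  have n2 := norm_div_Bd d1 d0
  obtain ⟨p, hp⟩ := kl_poly y hy.1 (Subtype.property _) (isIntegral_of_Bd y n1)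
  obtain ⟨a, ha⟩ : ∃ a, MvPolynomial.eval a p ≠ 0 := by
    by_contra hne
    push Not at hne
    rw [MvPolynomial.funext (p := p) (q := 0) (fun a => by rw [hne a, map_zero]), map_zero] at hp
    exact Algebra.norm_ne_zero_iff.2 d0 (Subtype.ext hp.symm)
  obtain ⟨z, hz⟩ : ∃ z : Fin (s + 2) → K, ∀ l, z l = y l - algebraMap ℂ K (a l) := ⟨_, fun _ => rfl⟩
  have hzy : ∀ l, y l = z l + a l • 1 := fun l => by
    rw [hz, ← Algebra.algebraMap_eq_smul_one, sub_add_cancel]
  have e1 : adjoin ℂ (Set.range z) = adjoin ℂ (Set.range y) := by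
    refine le_antisymm (adjoin_le_iff.2 ?_) (adjoin_le_iff.2 ?_)
    · rintro _ ⟨l, rfl⟩
      rw [hz]
      exact sub_mem (subset_adjoin _ _ (Set.mem_range_self l)) (IntermediateField.algebraMap_mem _ _)
    · rintro _ ⟨l, rfl⟩
      rw [hzy, ← Algebra.algebraMap_eq_smul_one]
      exact add_mem (subset_adjoin _ _ (Set.mem_range_self l)) (IntermediateField.algebraMap_mem _ _)
  have fdz : FiniteDimensional (adjoin ℂ (Set.range z)) K := e1 ▸ fd
  have hzt := tb_of_fd dim z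
  have hB : ∀ μ, Bd y μ ≤ Bd z μ := Bd_le_Bd y z fun l => by
    rw [hzy]
    exact add_mem (span_le_Bd z (Submodule.subset_span (Set.mem_range_self l)))
      (Submodule.smul_mem _ _ (one_mem_Bd z 1))
  let ξ : Fin (s + 3) → K := Fin.insertNth 2 1 z
  have x2 : ξ 2 = 1 := Fin.insertNth_apply_same _ _ _
  have xs : ∀ l, ξ (Fin.succAbove 2 l) = z l := fun l => Fin.insertNth_apply_succAbove _ _ _ _
  have ez : (fun l => ξ (Fin.succAbove 2 l) / ξ 2) = z := funext fun l => by rw [xs, x2, div_one]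
  have ne : ∀ l, ξ l ≠ 0 := fun i => by
    rcases Fin.eq_self_or_eq_succAbove 2 i with rfl | ⟨l, rfl⟩
    · rw [x2]
      exact one_ne_zero
    · rw [xs]
      exact hzt.1.ne_zero l
  have e2 : adjoin ℂ (Set.range (yy ξ)) = adjoin ℂ (Set.range y) := by
    rw [swap_field ξ 2 (ne 0) (ne 2), ez, e1]
  have hF : IsF y (adjoin ℂ (Set.range (yy ξ))) := fun w => by
    rw [← e2]
    exact isF_self (yy ξ) w
  have fd' := hF.fd
  have sw : ∀ μ, ∀ r ∈ Bd y μ, r * yy ξ 1 ^ μ ∈ Bd (yy ξ) μ := fun μ r hr =>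
    swap_Bd ξ 2 (ne 0) (ne 2) (ez.symm ▸ hB μ hr)
  have y1 : yy ξ 1 = (ξ 0)⁻¹ := by
    change ξ 2 / ξ 0 = _
    rw [x2, one_div]
  let d : adjoin ℂ (Set.range (yy ξ)) := ⟨yy ξ 1, subset_adjoin _ _ (Set.mem_range_self 1)⟩
  have hd : d ≠ 0 := fun h => inv_ne_zero (ne 0) (y1.symm.trans (congrArg Subtype.val h))
  have eθ : Θ / ξ 0 = d • Θ := by
    rw [div_eq_inv_mul, ← y1]
    rfl
  have hΔ : MvPolynomial.aeval z (MvPolynomial.aeval
      (fun l => MvPolynomial.X l + MvPolynomial.C (a l) : _ → MvPolynomial (Fin (s + 2)) ℂ) p) =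
      MvPolynomial.aeval y p := by
    rw [← AlgHom.comp_apply, MvPolynomial.comp_aeval]
    congr 2
    funext l
    simp [hz]
  obtain ⟨j, hj⟩ := Nat.exists_eq_succ_of_ne_zero
    (finrank_pos (R := adjoin ℂ (Set.range y)) (M := K)).ne'
  refine ⟨ξ, Θ, fun i => ?_, hΘ, ne, tb_of_fd dim _, fd', fun w hw => ?_, ?_,
    MvPolynomial.aeval (fun l => MvPolynomial.X l + MvPolynomial.C (a l)) p, _, _, sw _ _ n2,
    ?_, ?_, ?_⟩
  · rcases Fin.eq_self_or_eq_succAbove 2 i with rfl | ⟨l, rfl⟩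
    · rwa [x2]
    · rw [xs, hz, Algebra.algebraMap_eq_smul_one]
      exact sub_mem (hy1 l) (Submodule.smul_mem _ _ hone)
  · have h1 := sw 1 w (hV w hw)
    rwa [pow_one, y1, ← div_eq_mul_inv] at h1
  · rw [Field.primitive_element_iff_minpoly_natDegree_eq, eθ,
      IsIntegrallyClosed.minpoly_smul hd (IsIntegral.of_finite _ Θ), natDegree_scaleRoots,
      hF.natDegree_eq, hN, hF.finrank_eq]
  · refine (kl_deg z hzt.1 _ (hB _ (by rw [hΔ, hp]; exact n1))).trans_eq ?_
    rw [hF.finrank_eq, hj, Nat.succ_sub_one, Nat.mul_succ, add_comm]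
  · have h1 : ∀ q : MvPolynomial (Fin (s + 2)) ℂ,
        q.coeff 0 = MvPolynomial.aeval (0 : Fin (s + 2) → ℂ) q :=
      fun q => by rw [MvPolynomial.aeval_zero]; rfl
    rw [h1, ← AlgHom.comp_apply, MvPolynomial.comp_aeval]
    simpa using ha
  · rw [ez, hΔ, hp, eθ, dl_smul hd, hF.natDegree_eq, hN, hF.dl_eq, hF.finrank_eq, pow_add]
    change yy ξ 1 ^ _ * _ * _ = _
    field_simp

namespace Sop

variable {x : ι → Kˣ} {ξ : Fin (s + 3) → K} {Θ : K}

/-- The `ξ l` have no common zero. -/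
theorem val {Γ : Type} [LinearOrderedCommGroupWithZero Γ] (h : Sop x ξ Θ) (v : Valuation K Γ)
    (hv : ∀ z : ℂ, v (algebraMap ℂ K z) ≤ 1) : ∃ l, ∀ z ∈ VV x, v z ≤ v (ξ l) := by
  obtain ⟨l, hl⟩ := Finite.exists_max fun l => v (ξ l)
  refine ⟨l, fun z hz => ?_⟩
  have h0 : 0 < v (ξ 0) := zero_lt_iff.2 ((Valuation.ne_zero_iff v).2 (h.ne 0))
  have h1 := val_le_of_Bd (h.bd z hz) v hv (c := ξ l / ξ 0)
    (by rw [map_div₀, one_le_div₀ h0]; exact hl 0) fun j => by
      rw [yy, map_div₀, map_div₀]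
      exact div_le_div_of_nonneg_right (hl _) zero_le
  rwa [pow_one, map_div₀, map_div₀, div_le_div_iff_of_pos_right h0] at h1

theorem aeval_mem (h : Sop x ξ Θ) {μ : ℕ} {p : MvPolynomial (Fin (s + 2)) ℂ}
    (hp : p.totalDegree ≤ μ) : MvPolynomial.aeval (yy ξ) p * ξ 0 ^ μ ∈ VV x ^ μ := by
  have key : ∀ (T : Finset (Fin (s + 2))) (m : Fin (s + 2) → ℕ),
      ∏ l ∈ T, ξ l.succ ^ m l ∈ VV x ^ ∑ l ∈ T, m l := by
    intro T m
    induction T using Finset.induction_on with
    | empty => simp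
    | insert a T ha ih =>
      rw [Finset.prod_insert ha, Finset.sum_insert ha, pow_add]
      exact Submodule.mul_mem_mul (Submodule.pow_mem_pow _ (h.mem _) _) ih
  rw [p.as_sum, map_sum, Finset.sum_mul]
  refine sum_mem fun m hm => ?_
  have h1 : ∑ l, m l ≤ μ := by
    have h2 := (MvPolynomial.le_totalDegree hm).trans hp
    rwa [Finsupp.sum_fintype _ _ fun _ => rfl] at h2
  obtain ⟨j, rfl⟩ := Nat.exists_eq_add_of_le h1
  have h3 := Submodule.smul_mem _ (p.coeff m) (Submodule.mul_mem_mul (key Finset.univ m)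
    (Submodule.pow_mem_pow _ (h.mem 0) j))
  rw [← pow_add] at h3
  convert h3 using 1
  rw [MvPolynomial.aeval_monomial, Finsupp.prod_fintype _ _ fun _ => pow_zero _, Algebra.smul_def,
    pow_add, mul_assoc, ← mul_assoc (∏ _, _), ← Finset.prod_pow_eq_pow_sum,
    ← Finset.prod_mul_distrib]
  congr 2
  refine Finset.prod_congr rfl fun l _ => ?_
  rw [← mul_pow, yy, div_mul_cancel₀ _ (h.ne 0)]

theorem natDegree_eq (h : Sop x ξ Θ) {F : Type} [Field F] [Algebra F K] (hF : IsF (yy ξ) F) :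
    (minpoly F (Θ / ξ 0)).natDegree = finrank F K := by
  have := h.fd
  have := hF.fd
  exact natDegree_minpoly_eq (hF.prim h.prim)

/-- The coefficients of `P / (T - θ)`, made homogeneous, are forms in the coordinates. -/
theorem minpolyDiv_mem (h : Sop x ξ Θ) {F : Type} [Field F] [Algebra F K] (hF : IsF (yy ξ) F)
    (i : ℕ) : (minpolyDiv F (Θ / ξ 0)).coeff i * ξ 0 ^ (finrank F K - 1 - i) ∈
      VV x ^ (finrank F K - 1 - i) := by
  have := h.fd
  have := hF.fd
  rw [← h.natDegree_eq hF]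
  refine g1_div (IsIntegral.of_finite F _) (fun j b => b * ξ 0 ^ j ∈ VV x ^ j)
    (fun _ => by rw [zero_mul]; exact zero_mem _) (fun i j b e h0 hb => ?_) i
  rw [add_mul]
  refine add_mem ?_ ?_
  · obtain ⟨p, h1, h2⟩ := minpoly_coeff_poly hF h.tb.1 (h.bd Θ h.memT) (i + 1)
    rw [← e, Nat.add_sub_cancel_left, one_mul] at h1
    rw [← h2]
    exact h.aeval_mem h1
  · rcases j with _ | j
    · rw [h0 rfl, zero_mul, zero_mul]
      exact zero_mem _
    · have h1 := Submodule.mul_mem_mul hb h.memT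
      rw [Nat.add_sub_cancel, ← pow_succ] at h1
      convert h1 using 1
      have := h.ne 0
      rw [pow_succ]
      field_simp

theorem dl_mem (h : Sop x ξ Θ) {F : Type} [Field F] [Algebra F K] (hF : IsF (yy ξ) F) :
    dl F (Θ / ξ 0) * ξ 0 ^ (finrank F K - 1) ∈ VV x ^ (finrank F K - 1) := by
  have := h.fd
  have := hF.fd
  rw [g1_dl (IsIntegral.of_finite F _), h.natDegree_eq hF, Finset.sum_mul]
  refine sum_mem fun i hi => ?_
  have h1 := Submodule.mul_mem_mul (h.minpolyDiv_mem hF i) (Submodule.pow_mem_pow _ h.memT i)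
  have h2 := Finset.mem_range.1 hi
  have h3 : finrank F K - 1 - i + i = finrank F K - 1 := by omega
  rw [← pow_add, h3] at h1
  convert h1 using 1
  rw [← h3, Nat.add_sub_cancel, pow_add, div_pow]
  have := h.ne 0
  field_simp

/-- The homogenisation of `Δ` over the field `k`. -/
theorem hom (h : Sop x ξ Θ) {k : Type} [Field k] [Algebra ℂ k] [Algebra k K]
    [IsScalarTower ℂ k K] {t : k} (ht : algebraMap k K t = yy ξ 0) {M : ℕ}
    {Δ : MvPolynomial (Fin (s + 2)) ℂ} (h1 : Δ.totalDegree ≤ M) (h2 : Δ.coeff 0 ≠ 0) :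
    ∃ p : MvPolynomial (Fin (s + 1)) k, p ≠ 0 ∧ p.totalDegree = M ∧
      MvPolynomial.aeval (fun l => yy ξ l.succ) p =
        yy ξ 1 ^ M * MvPolynomial.aeval (fun l => ξ (Fin.succAbove 2 l) / ξ 2) Δ := by
  have hm : ∀ m ∈ Δ.support, m 0 + (m 1 + ∑ a : Fin s, m a.succ.succ) ≤ M := fun m hm => by
    have h3 := (MvPolynomial.le_totalDegree hm).trans h1
    rwa [Finsupp.sum_fintype _ _ fun _ => rfl, Fin.sum_univ_succ, Fin.sum_univ_succ] at h3
  let e : (Fin (s + 2) →₀ ℕ) → Fin (s + 1) →₀ ℕ := fun m =>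
    Finsupp.cons (M - (m 0 + (m 1 + ∑ a : Fin s, m a.succ.succ))) m.tail.tail
  let p : MvPolynomial (Fin (s + 1)) k :=
    ∑ m ∈ Δ.support, MvPolynomial.monomial (e m) (algebraMap ℂ k (Δ.coeff m) * t ^ m 1)
  have hc : p.coeff (Finsupp.single 0 M) ≠ 0 := by
    rw [MvPolynomial.coeff_sum, Finset.sum_eq_single 0]
    · have h3 : e 0 = Finsupp.single 0 M := by
        ext l
        refine Fin.cases ?_ (fun l => ?_) l <;> simp [e, Finsupp.tail_apply]
      rw [MvPolynomial.coeff_monomial, if_pos h3]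
      simpa using h2
    · intro m hm1 hm2
      rw [MvPolynomial.coeff_monomial, if_neg]
      intro h3
      have h4 := DFunLike.congr_fun h3 0
      have h5 := hm m hm1
      simp only [e, Finsupp.cons_zero, Finsupp.single_eq_same] at h4
      have h6 : ∑ l, m l = 0 := by
        rw [Fin.sum_univ_succ, Fin.sum_univ_succ]
        change m 0 + (m 1 + _) = 0
        omega
      exact hm2 (Finsupp.ext fun l => Finset.sum_eq_zero_iff.1 h6 l (Finset.mem_univ l))
    · intro h3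
      exact absurd (MvPolynomial.mem_support_iff.2 h2) h3
  refine ⟨p, fun h0 => hc (by rw [h0, MvPolynomial.coeff_zero]), le_antisymm ?_ ?_, ?_⟩
  · refine MvPolynomial.totalDegree_finsetSum_le fun m hm1 =>
      (MvPolynomial.totalDegree_monomial_le _ _).trans ?_
    have h5 := hm m hm1
    rw [Finsupp.sum_fintype _ _ fun _ => rfl, Fin.sum_univ_succ]
    simp only [e, Finsupp.cons_zero, Finsupp.cons_succ, Finsupp.tail_apply, id]
    omega
  · have h3 := MvPolynomial.le_totalDegree (MvPolynomial.mem_support_iff.2 hc)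
    rwa [Finsupp.sum_single_index rfl] at h3
  · conv_rhs => rw [Δ.as_sum]
    rw [map_sum, map_sum, Finset.mul_sum]
    refine Finset.sum_congr rfl fun m hm1 => ?_
    obtain ⟨j, hj⟩ := Nat.exists_eq_add_of_le (hm m hm1)
    have h0 := h.ne 0
    have h3 := h.ne 2
    have h4 : (∏ a : Fin s, (ξ a.succ.succ.succ / ξ 2) ^ m a.succ.succ) *
        (ξ 2 / ξ 0) ^ ∑ a : Fin s, m a.succ.succ =
        ∏ a : Fin s, (ξ a.succ.succ.succ / ξ 0) ^ m a.succ.succ := by
      rw [← Finset.prod_pow_eq_pow_sum, ← Finset.prod_mul_distrib]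
      refine Finset.prod_congr rfl fun a _ => ?_
      rw [← mul_pow, div_mul_div_cancel₀ h3]
    rw [MvPolynomial.aeval_monomial, MvPolynomial.aeval_monomial,
      Finsupp.prod_fintype _ _ fun _ => pow_zero _, Finsupp.prod_fintype _ _ fun _ => pow_zero _,
      Fin.prod_univ_succ, Fin.prod_univ_succ, Fin.prod_univ_succ, map_mul, map_pow, ht,
      ← IsScalarTower.algebraMap_apply]
    simp only [e, Finsupp.cons_zero, Finsupp.cons_succ, Finsupp.tail_apply]
    rw [hj, Nat.add_sub_cancel_left]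
    change _ * (ξ 1 / ξ 0) ^ m 1 * ((ξ 2 / ξ 0) ^ j *
        ∏ a : Fin s, (ξ a.succ.succ.succ / ξ 0) ^ m a.succ.succ) = (ξ 2 / ξ 0) ^ _ *
      (_ * ((ξ 0 / ξ 2) ^ m 0 * ((ξ 1 / ξ 2) ^ m 1 *
        ∏ a : Fin s, (ξ a.succ.succ.succ / ξ 2) ^ m a.succ.succ)))
    rw [← h4]
    generalize (∏ a : Fin s, (ξ a.succ.succ.succ / ξ 2) ^ m a.succ.succ) = q
    simp only [pow_add, div_pow]
    field_simp

/-- At a valuation over the hyperplane at infinity of the generic member of the pencil the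
different has a pole of the maximal order. -/
theorem val_dl {Γ : Type} [LinearOrderedCommGroupWithZero Γ] (h : Sop x ξ Θ) {F : Type} [Field F]
    [Algebra F K] (hF : IsF (yy ξ) F) {k : Type} [Field k] [Algebra ℂ k] [Algebra k K]
    [IsScalarTower ℂ k K] {t : k} (ht : algebraMap k K t = yy ξ 0) (v : Valuation K Γ) {c : Γ}
    (hc : 1 ≤ c) (inf : ∀ p : MvPolynomial (Fin (s + 1)) k, p ≠ 0 →
      v (MvPolynomial.aeval (fun l => yy ξ l.succ) p) = c ^ p.totalDegree) :
    v (dl F (Θ / ξ 0)) = c ^ (finrank F K - 1) := by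
  have := h.fd
  have hk : ∀ a : k, v (algebraMap k K a) ≤ 1 := fun a => by
    by_cases ha : a = 0
    · simp [ha]
    · have h1 := inf (MvPolynomial.C a) (MvPolynomial.C_ne_zero.2 ha)
      rw [MvPolynomial.aeval_C, MvPolynomial.totalDegree_C, pow_zero] at h1
      exact h1.le
  have hv : ∀ z : ℂ, v (algebraMap ℂ K z) ≤ 1 := fun z => by
    rw [IsScalarTower.algebraMap_apply ℂ k K]
    exact hk _
  have hy : ∀ l : Fin (s + 1), v (yy ξ l.succ) = c := fun l => by
    have h1 := inf (MvPolynomial.X l) (MvPolynomial.X_ne_zero l)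
    rwa [MvPolynomial.aeval_X, MvPolynomial.totalDegree_X, pow_one] at h1
  have h1 : v (yy ξ 1) = c := hy 0
  have hB : ∀ {μ : ℕ} {r : K}, r ∈ Bd (yy ξ) μ → v r ≤ c ^ μ := fun hr => by
    rw [← h1]
    refine val_le_of_Bd hr v hv (h1 ▸ hc) fun l => ?_
    rw [h1]
    refine Fin.cases ?_ (fun l => (hy l).le) l
    rw [← ht]
    exact (hk t).trans hc
  obtain ⟨Δ, μ, δ, d1, d2, d3, d4⟩ := h.disc
  obtain ⟨p, p1, p2, p3⟩ := h.hom ht d2 d3
  have h2 := inf p p1
  rw [p3, p2, ← d4, ← hF.dl_eq, ← hF.finrank_eq, map_mul, pow_add] at h2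
  have h3 := hB (dl_Bd hF (h.bd Θ h.memT))
  rw [one_mul, h.natDegree_eq hF] at h3
  refine le_antisymm h3 (le_of_mul_le_mul_right (h2.ge.trans ?_)
    (pow_pos (zero_lt_one.trans_le hc) μ))
  exact mul_le_mul_right (hB d1) _

end Sop

end Pool.Agent.Lib.MP_bc213e_ag.KBG
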