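import Pool.Agent.Lib.MP_6adaea_nt.V.Conj
import Pool.Agent.Lib.MP_6adaea_nt.V.Under

/-! The local codifferent: the tame bound and the Euler bound. -/

namespace Pool.Agent.Lib.MP_bc213e_ag.KBG

open Pool.Agent.Lib.MP_6adaea_nt Polynomial

variable {F K E : Type} [Field F] [Field K] [Field E] [Algebra F K]

variable (F) in
/-- `φ` lies in the codifferent of `K / F` at the place of `F` under `U`. -/
def Cod (U : QVal K) (φ : K) : Prop :=
  ∀ b ∈ conj_B F U, U.Ge (algebraMap F K (Algebra.trace F K (φ * b))) 0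

/-- Power sums in residue characteristic zero. -/
theorem adj_psum {S : Type} [Fintype S] (V : QVal E) (hV : ∀ n : ℕ, n ≠ 0 → ¬ V.Gt (n : E) 0)
    {z : S → E} (hz : ∀ s, V.Ge (z s) 0) (h : ∀ j, V.Gt (∑ s, z s ^ (j + 1)) 0) (s₀ : S) :
    V.Gt (z s₀) 0 := by
  classical
  let I : Ideal V.O :=
    { carrier := {x | V.Gt (x : E) 0}
      zero_mem' := V.gt_zero 0
      add_mem' := QVal.Gt.add
      smul_mem' := fun c _ hx => QVal.Ge.mul_gt₀ c.2 hx }
  have hI : I.IsPrime := by
    refine ⟨(Ideal.ne_top_iff_one _).2 (fun h => hV 1 one_ne_zero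
      (by simpa using (show V.Gt ((1 : V.O) : E) 0 from h))), fun {x y} hxy => ?_⟩
    by_contra h1
    obtain ⟨h2, h3⟩ := not_or.1 h1
    obtain ⟨h4, h5⟩ := QVal.not_gt_iff.1 h2
    obtain ⟨h6, h7⟩ := QVal.not_gt_iff.1 h3
    have h8 := QVal.Gt.lt hxy (mul_ne_zero h4 h6)
    rw [Subring.coe_mul, V.ord_mul h4 h6] at h8
    linarith
  let a : S → V.O ⧸ I := fun s => Ideal.Quotient.mk I ⟨z s, hz s⟩
  have h1 : ∀ (T : Finset S) (j : ℕ), ∑ s, a s ^ (j + 1) * ∏ t ∈ T, (a s - a t) = 0 := by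
    intro T
    induction T using Finset.induction_on with
    | empty =>
      intro j
      simp only [Finset.prod_empty, mul_one, a, ← map_pow, ← map_sum]
      refine Ideal.Quotient.eq_zero_iff_mem.2 ?_
      change V.Gt ((∑ s, (⟨z s, hz s⟩ : V.O) ^ (j + 1) : V.O) : E) 0
      simpa using h j
    | insert t T ht ih =>
      intro j
      have h2 : ∀ s, a s ^ (j + 1) * ∏ t ∈ insert t T, (a s - a t) =
          a s ^ (j + 1 + 1) * ∏ t ∈ T, (a s - a t) - a t * (a s ^ (j + 1) * ∏ t ∈ T, (a s - a t)) :=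
        fun s => by rw [Finset.prod_insert ht]; ring
      simp only [h2, Finset.sum_sub_distrib, ← Finset.mul_sum, ih, mul_zero, sub_zero]
  have h2 := h1 (Finset.univ.filter fun t => a t ≠ a s₀) 0
  rw [← Finset.sum_filter_add_sum_filter_not _ fun t => a t = a s₀,
    Finset.sum_eq_zero (s := Finset.univ.filter fun t => ¬ a t = a s₀) fun s hs => by
      rw [Finset.prod_eq_zero hs (sub_self _), mul_zero],
    add_zero, Finset.sum_congr rfl fun s hs => by rw [(Finset.mem_filter.1 hs).2],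
    Finset.sum_const, nsmul_eq_mul, mul_eq_zero, mul_eq_zero] at h2
  rcases h2 with h2 | h2 | h2
  · rw [← map_natCast (Ideal.Quotient.mk I), Ideal.Quotient.eq_zero_iff_mem] at h2
    refine absurd ?_ (hV (Finset.univ.filter fun t => a t = a s₀).card
      (Finset.card_ne_zero.2 ⟨s₀, by simp⟩))
    simpa using (show V.Gt (((_ : ℕ) : V.O) : E) 0 from h2)
  · exact Ideal.Quotient.eq_zero_iff_mem.1 (pow_eq_zero_iff (Nat.succ_ne_zero 0) |>.1 h2)
  · obtain ⟨t, ht, h3⟩ := Finset.prod_eq_zero_iff.1 h2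
    exact absurd (sub_eq_zero.1 h3).symm (Finset.mem_filter.1 ht).2

theorem adj_prod (V : QVal E) {r : ℚ} (s : Multiset E) (h : ∀ a ∈ s, V.Ge a r) (j : ℕ) :
    V.Ge ((s.map fun a => X - C a).prod.coeff j) (r * (s.card - j)) := by
  induction s using Multiset.induction_on generalizing j with
  | empty =>
    rcases j with _ | j
    · simpa using V.ge_one
    · simp [coeff_one]
  | cons a s ih =>
    have h1 := ih fun b hb => h b (Multiset.mem_cons_of_mem hb)
    have h2 := h a (Multiset.mem_cons_self a s)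
    rw [Multiset.map_cons, Multiset.prod_cons, sub_mul, coeff_sub, coeff_C_mul, Multiset.card_cons]
    refine QVal.Ge.sub ?_ ((h2.mul (h1 j)).mono (le_of_eq (by push_cast; ring)))
    rcases j with _ | j
    · simp
    · rw [coeff_X_mul]
      exact (h1 j).mono (le_of_eq (by push_cast; ring))

theorem adj_monic [IsAlgClosed E] (V : QVal E) {r : ℚ} {Q : E[X]} (hQ : Q.Monic)
    (h : ∀ a, Q.IsRoot a → V.Ge a r) (j : ℕ) : V.Ge (Q.coeff j) (r * (Q.natDegree - j)) := by
  have h1 := adj_prod V Q.roots (fun a ha => h a (isRoot_of_mem_roots ha)) j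
  rwa [← (IsAlgClosed.splits Q).eq_prod_roots_of_monic hQ, IsAlgClosed.card_roots_eq_natDegree] at h1

variable [CharZero F] [FiniteDimensional F K]

section

variable [Algebra K E] [Algebra F E] [IsScalarTower F K E] [IsAlgClosure K E] {U : QVal K}
  {V : QVal E} (hV : ∀ x, V.ord (algebraMap K E x) = U.ord x)

omit [CharZero F] [FiniteDimensional F K] [Algebra F K] [Algebra F E] [IsScalarTower F K E]
  [IsAlgClosure K E] in
include hV in
theorem adj_ge {x : K} {r : ℚ} : V.Ge (algebraMap K E x) r ↔ U.Ge x r := by simp [QVal.Ge, hV]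

omit [CharZero F] [FiniteDimensional F K] [IsAlgClosure K E] in
include hV in
theorem adj_comap (σ : K →ₐ[F] E) (c : F) :
    (V.comap (σ : K →+* E)).ord (algebraMap F K c) = U.ord (algebraMap F K c) := by
  rw [QVal.comap_ord, RingHom.coe_coe, AlgHom.commutes, IsScalarTower.algebraMap_apply F K E, hV]

variable (F K E) in
include K in
theorem adj_galois : IsGalois F E := by
  have : IsAlgClosed E := IsAlgClosure.isAlgClosed K
  have : Algebra.IsAlgebraic F E := Algebra.IsAlgebraic.trans F K E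
  have : IsAlgClosure F E := ⟨inferInstance, inferInstance⟩
  infer_instance

include hV in
theorem adj_mem {b : K} (h : ∀ σ : K →ₐ[F] E, V.Ge (σ b) 0) : b ∈ conj_B F U := by
  intro U' hU'
  have := adj_galois F K E
  obtain ⟨V', hV'⟩ := U'.exists_ext (E := E)
  obtain ⟨σ, hσ⟩ := QVal.exists_conj (F := F) V' V fun c => by
    rw [IsScalarTower.algebraMap_apply F K E, hV, hV', hU']
  refine (h ((σ : E →ₐ[F] E).comp (IsScalarTower.toAlgHom F K E))).imp
    (fun h1 => by simpa using h1) fun h1 => ?_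
  rwa [← hV', ← hσ]

include hV in
theorem adj_root {b : K} {r : ℚ} (h : ∀ U' : QVal K,
    (∀ c : F, U'.ord (algebraMap F K c) = U.ord (algebraMap F K c)) → U'.Ge b r) {a : E}
    (ha : aeval a (minpoly F b) = 0) : V.Ge a r := by
  have := adj_galois F K E
  rw [← minpoly.algebraMap_eq (algebraMap K E).injective] at ha
  obtain ⟨σ, hσ⟩ := minpoly.exists_algEquiv_of_root' (Algebra.IsAlgebraic.isAlgebraic _) ha
  have h1 := h _ (adj_comap hV ((σ : E →ₐ[F] E).comp (IsScalarTower.toAlgHom F K E)))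
  rw [QVal.comap_ge] at h1
  exact hσ ▸ h1

end

variable {U : QVal K}

/-- The coefficients of the minimal polynomial. -/
theorem adj_coeff {b : K} {r : ℚ} (h : ∀ U' : QVal K,
    (∀ c : F, U'.ord (algebraMap F K c) = U.ord (algebraMap F K c)) → U'.Ge b r) (j : ℕ) :
    U.Ge (algebraMap F K ((minpoly F b).coeff j)) (r * ((minpoly F b).natDegree - j)) := by
  obtain ⟨V, hV⟩ := U.exists_ext (E := AlgebraicClosure K)
  have hm := minpoly.monic (Algebra.IsIntegral.isIntegral (R := F) b)
  have h1 := adj_monic V (hm.map (algebraMap F _))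
    (fun a ha => adj_root hV h (by rwa [IsRoot, eval_map_algebraMap] at ha)) j
  rwa [coeff_map, hm.natDegree_map, IsScalarTower.algebraMap_apply F K, adj_ge hV] at h1

theorem adj_div {b : K} {r : ℚ} (h : ∀ U' : QVal K,
    (∀ c : F, U'.ord (algebraMap F K c) = U.ord (algebraMap F K c)) → U'.Ge b r) (j : ℕ) :
    U.Ge ((minpolyDiv F b).coeff j) (r * ((minpoly F b).natDegree - 1 - j)) := by
  obtain ⟨V, hV⟩ := U.exists_ext (E := AlgebraicClosure K)
  have hb := Algebra.IsIntegral.isIntegral (R := F) b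
  have hm := minpolyDiv_monic hb
  have h1 := adj_monic V (hm.map (algebraMap K _)) (fun a ha => adj_root hV h (by
    rw [← aeval_map_algebraMap K, ← minpolyDiv_spec, map_mul, ← eval_map_algebraMap, ha.eq_zero,
      zero_mul])) j
  rw [coeff_map, hm.natDegree_map, adj_ge hV] at h1
  rw [← natDegree_minpolyDiv_succ hb]
  exact h1.mono (le_of_eq (by push_cast; ring))

/-- The tame bound: in residue characteristic zero the codifferent has poles of order less than
the order of any element of the maximal ideal downstairs. -/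
theorem Cod.tame (hU : ∀ n : ℕ, U.ord (n : K) = 0) {φ : K} (hφ : Cod F U φ) {π : F}
    (hπ : 0 < U.ord (algebraMap F K π)) : U.Gt φ (-U.ord (algebraMap F K π)) := by
  have hπ0 : algebraMap F K π ≠ 0 := fun h => by simp [h] at hπ
  by_contra h
  obtain ⟨h0, h1⟩ := QVal.not_gt_iff.1 h
  obtain ⟨V, hV⟩ := U.exists_ext (E := AlgebraicClosure K)
  obtain ⟨z, hz⟩ : ∃ z, z = algebraMap F K π * φ := ⟨_, rfl⟩
  have hz0 : z ≠ 0 := hz ▸ mul_ne_zero hπ0 h0
  have hσ : ∀ σ : K →ₐ[F] AlgebraicClosure K, σ z ≠ 0 := fun σ => (_root_.map_ne_zero σ).2 hz0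
  have : Nonempty (K →ₐ[F] AlgebraicClosure K) := ⟨IsScalarTower.toAlgHom F K _⟩
  obtain ⟨σ₀, h2⟩ := Finite.exists_min fun σ : K →ₐ[F] AlgebraicClosure K => V.ord (σ z)
  have h3 : V.ord (σ₀ z) ≤ 0 := by
    refine (h2 (IsScalarTower.toAlgHom F K _)).trans ?_
    rw [IsScalarTower.toAlgHom_apply, hV, hz, U.ord_mul hπ0 h0]
    linarith
  have := adj_galois F K (AlgebraicClosure K)
  obtain ⟨n, y, hn, -, hy, h4⟩ :=
    V.exists_tors (Algebra.IsAlgebraic.isAlgebraic (R := F) (σ₀ z)) (hσ σ₀)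
  have hy' : algebraMap F (AlgebraicClosure K) y ≠ 0 := (_root_.map_ne_zero _).2 hy
  have h5 : ∀ σ : K →ₐ[F] AlgebraicClosure K,
      V.ord (σ (z ^ n / algebraMap F K y)) = n * (V.ord (σ z) - V.ord (σ₀ z)) := fun σ => by
    rw [map_div₀, map_pow, AlgHom.commutes, V.ord_div (pow_ne_zero _ (hσ σ)) hy', V.ord_pow, ← h4,
      mul_sub]
  have h6 : z ^ n / algebraMap F K y ≠ 0 := div_ne_zero (pow_ne_zero _ hz0) ((_root_.map_ne_zero _).2 hy)
  have hn' : (1 : ℚ) ≤ n := by exact_mod_cast hn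
  generalize z ^ n / algebraMap F K y = u at h5 h6
  have : CharZero K := charZero_of_injective_algebraMap (algebraMap F K).injective
  have h7 := adj_psum V (fun n hn => QVal.not_gt_iff.2 ⟨Nat.cast_ne_zero.2 hn, by
      rw [← map_natCast (algebraMap K _), hV, hU]⟩)
    (z := fun σ : K →ₐ[F] AlgebraicClosure K => σ u)
    (fun σ => QVal.Ge.of_le (by rw [h5]; exact mul_nonneg (by positivity) (sub_nonneg.2 (h2 σ))))
    (fun j => ?_) σ₀
  · have h8 := h7.lt ((_root_.map_ne_zero σ₀).2 h6)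
    rw [h5, sub_self, mul_zero] at h8
    exact lt_irrefl _ h8
  · have h8 := hφ (u ^ (j + 1) / z) (adj_mem hV fun σ => QVal.Ge.of_le (by
      rw [map_div₀, map_pow, V.ord_div (pow_ne_zero _ ((_root_.map_ne_zero σ).2 h6)) (hσ σ), V.ord_pow, h5]
      have h9 := sub_nonneg.2 (h2 σ)
      have h10 : (0 : ℚ) ≤ j := by positivity
      push_cast
      nlinarith [mul_nonneg h10 (mul_nonneg (zero_le_one.trans hn') h9),
        mul_nonneg (sub_nonneg.2 hn') h9]))
    have h9 : u ^ (j + 1) = π • (φ * (u ^ (j + 1) / z)) := by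
      rw [Algebra.smul_def, ← mul_assoc, ← hz, mul_div_cancel₀ _ hz0]
    simp only [← map_pow]
    rw [← trace_eq_sum_embeddings, h9, map_smul, smul_eq_mul, map_mul,
      IsScalarTower.algebraMap_apply F K _ π,
      IsScalarTower.algebraMap_apply F K _ (Algebra.trace F K _)]
    simpa using (QVal.Gt.of_lt (hV _ ▸ hπ)).mul_ge ((adj_ge hV).2 h8)

/-- The Euler bound: the derivative of the minimal polynomial of an integral generator lies in the
different. -/
theorem Cod.euler {φ : K} (hφ : Cod F U φ) {θ : K} (hθ : Algebra.adjoin F {θ} = ⊤) {c : F}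
    (hc : c ≠ 0) (h : θ / algebraMap F K c ∈ conj_B F U) :
    U.Ge (aeval θ (derivative (minpoly F θ)) * φ)
      (U.ord (algebraMap F K c) * ((minpoly F θ).natDegree - 1)) := by
  have hc' : algebraMap F K c ≠ 0 := (_root_.map_ne_zero _).2 hc
  have hb := Algebra.IsIntegral.isIntegral (R := F) θ
  let pb : PowerBasis F K := PowerBasis.ofAdjoinEqTop hb hθ
  have hg : pb.gen = θ := PowerBasis.ofAdjoinEqTop_gen hb hθ
  have hd : aeval θ (derivative (minpoly F θ)) ≠ 0 :=
    (Algebra.IsSeparable.isSeparable F θ).aeval_derivative_ne_zero (minpoly.aeval F θ)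
  rw [← pb.basis.traceDual.sum_repr φ, Finset.mul_sum]
  refine QVal.Ge.sum fun i _ => ?_
  rw [Module.Basis.traceDual_repr_apply, Module.Basis.traceDual_powerBasis_eq, hg,
    Algebra.traceForm_apply, pb.basis_eq_pow, hg, Algebra.smul_def, mul_left_comm,
    mul_div_cancel₀ _ hd]
  have h1 := hφ _ (pow_mem h i)
  have h2 : φ * θ ^ (i : ℕ) = c ^ (i : ℕ) • (φ * (θ / algebraMap F K c) ^ (i : ℕ)) := by
    rw [Algebra.smul_def, map_pow, div_pow]
    field_simp
  have h3 := adj_div (F := F) (U := U) (b := θ) (r := U.ord (algebraMap F K c)) (fun U' hU' => by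
    have h4 := (QVal.ge_div_iff hc').1 (h U' hU')
    rwa [zero_add, hU'] at h4) i
  rw [h2, map_smul, smul_eq_mul, map_mul, map_pow]
  exact ((((U.ge_ord _).pow i).mul h1).mul h3).mono (le_of_eq (by ring))

end Pool.Agent.Lib.MP_bc213e_ag.KBG
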