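import Pool.Agent.Lib.MP_bc213e_ag.Hyp.Basic
import Pool.Agent.Lib.MP_bc213e_ag.TCI.Der1

/-! Pointwise adjunction: Jacobians against the generator of `m (K + Δ)`. -/

namespace Pool.Agent.Lib.MP_bc213e_ag.KBG

open WithZero Hyp MvPolynomial

variable {K ι Γ : Type} [Field K] [Algebra ℂ K] [LinearOrderedCommGroupWithZero Γ] {n : ℕ}

theorem adj_tdeg {P : MvPolynomial (Fin n) ℂ} {s : Fin n} (h : pderiv s P ≠ 0) :
    (pderiv s P).totalDegree < P.totalDegree := by
  obtain ⟨m, hm, he⟩ := Finset.exists_mem_eq_sup _ (support_nonempty.mpr h)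
    fun m : Fin n →₀ ℕ => m.sum fun _ e => e
  rw [totalDegree, he]
  have h1 : m + Finsupp.single s 1 ∈ P.support := by
    rw [mem_support_iff, coeff_pderiv] at hm
    exact mem_support_iff.mpr (left_ne_zero_of_mul hm)
  refine lt_of_lt_of_le ?_ (le_totalDegree h1)
  rw [Finsupp.sum_add_index' (fun _ => rfl) fun _ _ _ => rfl, Finsupp.sum_single_index rfl]
  exact Nat.lt_succ_self _

theorem adj_eq_C {P : MvPolynomial (Fin n) ℂ} (h : ∀ s, pderiv s P = 0) : P = C (coeff 0 P) := by
  ext m
  rw [coeff_C]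
  split_ifs with hm
  · rw [← hm]
  · obtain ⟨s, hs⟩ : ∃ s, m s ≠ 0 := by
      by_contra hc
      push Not at hc
      exact hm (Finsupp.ext hc).symm
    have h1 := coeff_pderiv (i := s) P (m - Finsupp.single s 1)
    rw [h s, coeff_zero, tsub_add_cancel_of_le
      (Finsupp.single_le_iff.mpr (Nat.one_le_iff_ne_zero.mpr hs))] at h1
    exact (mul_eq_zero.mp h1.symm).resolve_right (Nat.cast_add_one_ne_zero _)

theorem adj_der_aeval (δ : Derivation ℂ K K) (Y : Fin n → K) (ρ : MvPolynomial (Fin n) ℂ) :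
    δ (aeval Y ρ) = ∑ a, aeval Y (pderiv a ρ) * δ (Y a) := by
  induction ρ using MvPolynomial.induction_on with
  | C c => simp
  | add p q hp hq => simp only [map_add, hp, hq, add_mul, Finset.sum_add_distrib]
  | mul_X p i hp =>
    rw [map_mul, aeval_X, Derivation.leibniz, hp, smul_eq_mul, smul_eq_mul, Finset.mul_sum]
    simp only [pderiv_mul, map_add, map_mul, aeval_X, add_mul, Finset.sum_add_distrib]
    rw [add_comm]
    congr 1
    · exact Finset.sum_congr rfl fun a _ => by ring
    · rw [Finset.sum_eq_single i]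
      · simp
      · intro a _ ha
        rw [pderiv_X_of_ne ha.symm]
        simp
      · simp

theorem adj_const (w : Valuation K Γ) (hw : ∀ c : ℂ, w (algebraMap ℂ K c) ≤ 1) {c : ℂ}
    (hc : c ≠ 0) : w (algebraMap ℂ K c) = 1 := by
  refine le_antisymm (hw c) ?_
  have h1 := hw c⁻¹
  rw [map_inv₀, map_inv₀] at h1
  have h2 : 0 < w (algebraMap ℂ K c) :=
    zero_lt_iff.2 ((Valuation.ne_zero_iff w).2 ((map_ne_zero _).2 hc))
  exact (inv_le_one₀ h2).1 h1

theorem adj_aeval_le {κ : Type} (w : Valuation K Γ) (hw : ∀ c : ℂ, w (algebraMap ℂ K c) ≤ 1)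
    {u : κ → K} (hu : ∀ b, w (u b) ≤ 1) (F : MvPolynomial κ ℂ) : w (aeval u F) ≤ 1 := by
  induction F using MvPolynomial.induction_on with
  | C c => simpa using hw c
  | add p q hp hq => rw [map_add]; exact (w.map_add _ _).trans (max_le hp hq)
  | mul_X p i hp =>
    rw [map_mul, aeval_X, map_mul]
    exact mul_le_one' hp (hu i)

/-- The residues of `n` regular elements at a nontrivial valuation are algebraically dependent. -/
theorem adj_dep (dim : Algebra.trdeg ℂ K = n) (w : Valuation K Γ)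
    (hw : ∀ c : ℂ, w (algebraMap ℂ K c) ≤ 1) {π : K} (h0 : π ≠ 0) (hπ : w π < 1) {u : Fin n → K}
    (hu : ∀ b, w (u b) ≤ 1) : ∃ F : MvPolynomial (Fin n) ℂ, F ≠ 0 ∧ w (aeval u F) < 1 := by
  by_contra hne
  push Not at hne
  have h1 : ∀ F : MvPolynomial (Fin n) ℂ, F ≠ 0 → w (aeval u F) = 1 := fun F hF =>
    le_antisymm (adj_aeval_le w hw hu F) (hne F hF)
  have hi : AlgebraicIndependent ℂ u := by
    rw [algebraicIndependent_iff]
    intro F hF
    by_contra h2
    have h3 := h1 F h2
    rw [hF, map_zero] at h3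
    exact zero_ne_one h3
  have hb := TCI.isTrBasis_of_card _ hi (by rw [dim, Fintype.card_fin])
  have halg := hb.isAlgebraic_field
  refine TCI.transcendental_of_val (F := IntermediateField.adjoin ℂ (Set.range u)) w
    (fun c => ?_) h0 hπ (halg.isAlgebraic π)
  obtain ⟨c, hc⟩ := c
  obtain ⟨r, s, e⟩ := (IntermediateField.mem_adjoin_range_iff ℂ u c).1 hc
  change w c ≤ 1
  rw [e, map_div₀]
  by_cases hs : s = 0
  · simp [hs]
  · rw [h1 s hs, div_one]
    exact adj_aeval_le w hw hu r

/-- A relation of least degree between the residues has a unit as a derivative. -/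
theorem adj_min (w : Valuation K Γ) (hw : ∀ c : ℂ, w (algebraMap ℂ K c) ≤ 1) {u : Fin n → K}
    (hu : ∀ b, w (u b) ≤ 1) {F : MvPolynomial (Fin n) ℂ} (h0 : F ≠ 0) (hF : w (aeval u F) < 1) :
    ∃ (G : MvPolynomial (Fin n) ℂ) (a : Fin n), G ≠ 0 ∧ w (aeval u G) < 1 ∧
      w (aeval u (pderiv a G)) = 1 := by
  induction hn : F.totalDegree using Nat.strong_induction_on generalizing F with
  | _ d ih =>
    by_cases hc : ∀ s, pderiv s F = 0
    · exfalso
      rw [adj_eq_C hc] at h0 hF
      rw [aeval_C, adj_const w hw (fun h => h0 (by rw [h, map_zero]))] at hF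
      exact lt_irrefl _ hF
    · push Not at hc
      obtain ⟨s, hs⟩ := hc
      rcases (adj_aeval_le w hw hu (pderiv s F)).lt_or_eq with h | h
      · exact ih _ (hn ▸ adj_tdeg hs) hs h rfl
      · exact ⟨F, s, h0, hF, h⟩

theorem jac_update (D : Fin n → Derivation ℂ K K) (u : Fin n → K) (j : Fin n) (z : K) :
    jac D (Function.update u j z) =
      ((Matrix.of fun a b => D a (u b)).updateCol j fun a => D a z).det := by
  unfold jac
  congr 1
  ext a b
  rw [Matrix.of_apply, Matrix.updateCol_apply]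
  split_ifs with h
  · rw [h, Function.update_self]
  · rw [Function.update_of_ne h, Matrix.of_apply]

theorem jac_update_mul (D : Fin n → Derivation ℂ K K) (u : Fin n → K) (j : Fin n) (z t : K) :
    jac D (Function.update u j (z * t)) =
      z * jac D (Function.update u j t) + t * jac D (Function.update u j z) := by
  rw [jac_update, jac_update, jac_update, ← Matrix.det_updateCol_smul, ← Matrix.det_updateCol_smul,
    ← Matrix.det_updateCol_add]
  congr 2
  ext a
  simp

theorem jac_update_pow (D : Fin n → Derivation ℂ K K) (u : Fin n → K) (j : Fin n) (z : K) (e : ℕ) :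
    jac D (Function.update u j (z ^ (e + 1))) =
      (e + 1 : ℕ) * z ^ e * jac D (Function.update u j z) := by
  rw [jac_update, jac_update, ← Matrix.det_updateCol_smul]
  congr 2
  ext a
  rw [Derivation.leibniz_pow]
  simp [mul_assoc]

theorem jac_update_aeval (D : Fin n → Derivation ℂ K K) (u : Fin n → K) (j : Fin n)
    (F : MvPolynomial (Fin n) ℂ) :
    jac D (Function.update u j (aeval u F)) = aeval u (pderiv j F) * jac D u := by
  rw [jac_update]
  have h := Matrix.det_updateCol_sum (Matrix.of fun a b => D a (u b)) j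
    fun b => aeval u (pderiv b F)
  rw [smul_eq_mul] at h
  rw [jac, ← h]
  congr 2
  ext a
  rw [adj_der_aeval]
  rfl

/-- The boundary is effective at `w`: all Jacobians of regular elements are bounded. -/
theorem eff_val (dim : Algebra.trdeg ℂ K = n) (D : Fin n → Derivation ℂ K K) {m : ℕ}
    (hm : m ≠ 0) {w : Val K} (hw : Triv w) (hπ : ∃ π, w π = exp (-1)) {g : K} (hg : g ≠ 0) (eff : ¬ LD D m w g (m + 1))
    {u : Fin n → K} (hu : ∀ b, w (u b) ≤ 1) : w (jac D u) ^ m ≤ w g := by
  by_contra hlt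
  have h1 := not_le.1 hlt
  obtain ⟨π, hπ⟩ := hπ
  have hπ0 : π ≠ 0 := fun h => by
    rw [h, map_zero] at hπ
    exact exp_ne_zero hπ.symm
  have hπ1 : w π < 1 := by
    rw [hπ, ← exp_zero, exp_lt_exp]
    omega
  obtain ⟨F, h2, h3⟩ := adj_dep dim w hw hπ0 hπ1 hu
  obtain ⟨G, a, -, h4, h5⟩ := adj_min w hw hu h2 h3
  have hg0 : 0 < w g := zero_lt_iff.2 ((Valuation.ne_zero_iff w).2 hg)
  have h6 : w (jac D (Function.update u a (aeval u G))) = w (jac D u) := by
    rw [jac_update_aeval, map_mul, h5, one_mul]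
  have h7 : w (jac D u) ≠ 0 := fun h => by
    rw [h, zero_pow hm] at h1
    exact not_lt_of_ge zero_le h1
  refine eff ⟨Function.update u a (aeval u G), a, fun b => ?_, ?_, ?_⟩
  · by_cases hb : b = a
    · rw [hb, Function.update_self]
      exact h4.le
    · rw [Function.update_of_ne hb]
      exact hu b
  · rw [← Valuation.ne_zero_iff w, h6]
    exact h7
  · rw [Function.update_self, map_div₀, map_mul, map_pow, map_pow, h6, mul_comm, mul_div_assoc]
    have h8 : w g / w (jac D u) ^ m ≤ exp (-1) :=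
      primeExp ((div_lt_one₀ (hg0.trans h1)).2 h1)
    have h9 : w (aeval u G) ^ m ≤ exp (-(m : ℤ)) := by
      refine (pow_le_pow_left' (primeExp h4) m).trans_eq ?_
      rw [← exp_nsmul]
      simp
    refine (mul_le_mul' h9 h8).trans_eq ?_
    rw [← exp_add]
    congr 1
    ring

/-- Jacobians of regular functions on a chart are divisible by the generator. -/
theorem eff_chart [Finite ι] (dim : Algebra.trdeg ℂ K = n) (D : Fin n → Derivation ℂ K K) {m : ℕ}
    (hm : m ≠ 0) (x : ι → Kˣ) (i : ι) [IsFractionRing (chart x i) K]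
    [IsIntegrallyClosed (chart x i)] {g : K} (hg : g ≠ 0)
    (eff : ∀ w, PrimeDiv (chart x i) w → ¬ LD D m w g (m + 1)) {J : K}
    (hJ : ∀ w : Val K, PrimeDiv (chart x i) w →
      (∀ u : Fin n → K, (∀ b, w (u b) ≤ 1) → w (jac D u) ^ m ≤ w g) → w J ^ m ≤ w g) :
    J ^ m / g ∈ chart x i := by
  have := chart_noeth x i
  refine hartogs fun w hw => ?_
  rw [map_div₀, map_pow]
  exact div_le_one_of_le₀ (hJ w hw fun u hu => eff_val dim D hm hw.triv hw.1 hg (eff w hw) hu)
    zero_le

/-- The homogeneous Jacobian: `a 0 ^ (n + 1) * jac (a j / a 0)` is a combination of the Jacobians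
of the `a j`. -/
theorem jac_hom (D : Fin n → Derivation ℂ K K) (a : Fin (n + 1) → K) (h0 : a 0 ≠ 0) :
    a 0 ^ (n + 1) * jac D (fun j => a j.succ / a 0) =
      ∑ j : Fin (n + 1), (-1) ^ (j : ℕ) * a j * jac D fun b => a (j.succAbove b) := by
  let W : Matrix (Fin (n + 1)) (Fin (n + 1)) K :=
    Matrix.of (Fin.cons a fun r j => D r (a j))
  let W' : Matrix (Fin (n + 1)) (Fin (n + 1)) K :=
    Matrix.of (Fin.cons (Fin.cons (a 0) fun _ => 0)
      fun r => Fin.cons (D r (a 0)) fun j => a 0 * D r (a j.succ / a 0))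
  let U : Matrix (Fin (n + 1)) (Fin (n + 1)) K :=
    Matrix.of (Fin.cons (Fin.cons 1 fun j => a j.succ / a 0)
      fun r => Fin.cons 0 fun j => if r = j then 1 else 0)
  have e : W = W' * U := by
    ext r j
    rw [Matrix.mul_apply, Fin.sum_univ_succ]
    refine Fin.cases ?_ (fun r => ?_) r <;> refine Fin.cases ?_ (fun j => ?_) j
    · simp [W, W', U]
    · simp [W, W', U]
      field_simp
    · simp [W, W', U]
    · have h1 : D r (a j.succ) = D r (a 0 * (a j.succ / a 0)) := by
        rw [mul_div_cancel₀ _ h0]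
      simp only [W, W', U, Matrix.of_apply, Fin.cons_succ, Fin.cons_zero, mul_ite, mul_one,
        mul_zero, Finset.sum_ite_eq', Finset.mem_univ, if_true]
      rw [h1, Derivation.leibniz, smul_eq_mul, smul_eq_mul]
      ring
  have hU : U.det = 1 := by
    rw [Matrix.det_succ_column_zero, Fin.sum_univ_succ]
    have h2 : U.submatrix (Fin.succAbove 0) Fin.succ = 1 := by
      ext r j
      simp [U, Matrix.one_apply]
    rw [h2]
    simp [U]
  have hW' : W'.det = a 0 ^ (n + 1) * jac D (fun j => a j.succ / a 0) := by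
    rw [Matrix.det_succ_row_zero, Fin.sum_univ_succ]
    have h2 : W'.submatrix Fin.succ (Fin.succAbove 0) =
        a 0 • Matrix.of fun r j => D r (a j.succ / a 0) := by
      ext r j
      simp [W']
    rw [h2, Matrix.det_smul, jac]
    simp [W', pow_succ', mul_assoc]
  have h3 : W'.det = W.det := by rw [e, Matrix.det_mul, hU, mul_one]
  rw [← hW', h3, Matrix.det_succ_row_zero]
  rfl

/-- Ramification divides the Jacobian: if `p (y) = π ^ (e + 1) * ε` with `∂ p / ∂ y j` a unit. -/
theorem jac_ram (D : Fin n → Derivation ℂ K K) (w : Valuation K Γ)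
    (hw : ∀ c : ℂ, w (algebraMap ℂ K c) ≤ 1) {m : ℕ} {c : Γ}
    (hb : ∀ u : Fin n → K, (∀ b, w (u b) ≤ 1) → w (jac D u) ^ m ≤ c) {y : Fin n → K}
    (hy : ∀ b, w (y b) ≤ 1) {p : MvPolynomial (Fin n) ℂ} {j : Fin n}
    (hp : w (aeval y (pderiv j p)) = 1) {π ε : K} {e : ℕ} (hπ : w π ≤ 1) (hε : w ε ≤ 1)
    (h : aeval y p = π ^ (e + 1) * ε) : w (jac D y) ^ m ≤ (w π ^ e) ^ m * c := by
  have hu : ∀ z, w z ≤ 1 → w (jac D (Function.update y j z)) ^ m ≤ c := fun z hz =>
    hb _ fun b => by
      by_cases hb : b = j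
      · rw [hb, Function.update_self]
        exact hz
      · rw [Function.update_of_ne hb]
        exact hy b
  have h1 : w (jac D y) = w (π ^ e) * w (π * jac D (Function.update y j ε) +
      ε * (e + 1 : ℕ) * jac D (Function.update y j π)) := by
    rw [← one_mul (w (jac D y)), ← hp, ← map_mul, ← jac_update_aeval, h, jac_update_mul,
      jac_update_pow, ← map_mul]
    congr 1
    ring
  have h2 : w ((e + 1 : ℕ) : K) ≤ 1 := by
    have := hw (e + 1 : ℕ)
    rwa [map_natCast] at this
  rw [h1, mul_pow, map_pow]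
  refine mul_le_mul_right ?_ _
  rcases le_max_iff.1 (w.map_add (π * jac D (Function.update y j ε))
    (ε * (e + 1 : ℕ) * jac D (Function.update y j π))) with h3 | h3
  · refine (pow_le_pow_left' (h3.trans ?_) m).trans (hu ε hε)
    rw [map_mul]
    exact mul_le_of_le_one_left' hπ
  · refine (pow_le_pow_left' (h3.trans ?_) m).trans (hu π hπ)
    rw [map_mul, map_mul]
    exact mul_le_of_le_one_left' (mul_le_one' hε h2)

end Pool.Agent.Lib.MP_bc213e_ag.KBG
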