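import Pool.Agent.Lib.MP_bc213e_ag.KBG.AdjA
import Pool.Agent.Lib.MP_bc213e_ag.KBG.Eff

/-! Pointwise adjunction at a finite place, and the ramification section. -/

namespace Pool.Agent.Lib.MP_bc213e_ag.KBG

open Pool.Agent.Lib.MP_6adaea_nt Hyp WithZero

variable {K ι F k : Type} [Field K] [Algebra ℂ K] [Field F] [Algebra F K] [Field k] {n : ℕ}

/-- The localisation of `A` at the centre of `U`. -/
def Loc (A : Subalgebra ℂ K) (U : QVal K) : Subalgebra ℂ K where
  carrier := {z | ∃ b ∈ A, b ≠ 0 ∧ U.ord b = 0 ∧ b * z ∈ A}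
  algebraMap_mem' c := ⟨1, one_mem _, one_ne_zero, U.ord_one, by simp⟩
  add_mem' := by
    rintro a b ⟨c, h1, h2, h3, h4⟩ ⟨d, h5, h6, h7, h8⟩
    refine ⟨c * d, mul_mem h1 h5, mul_ne_zero h2 h6, by rw [U.ord_mul h2 h6, h3, h7, add_zero], ?_⟩
    convert add_mem (mul_mem h4 h5) (mul_mem h1 h8) using 1
    ring
  mul_mem' := by
    rintro a b ⟨c, h1, h2, h3, h4⟩ ⟨d, h5, h6, h7, h8⟩
    refine ⟨c * d, mul_mem h1 h5, mul_ne_zero h2 h6, by rw [U.ord_mul h2 h6, h3, h7, add_zero], ?_⟩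
    convert mul_mem h4 h8 using 1
    ring

variable {A : Subalgebra ℂ K} {U : QVal K}

theorem le_loc {z : K} (h : z ∈ A) : z ∈ Loc A U :=
  ⟨1, one_mem _, one_ne_zero, U.ord_one, by simpa using h⟩

theorem loc_div {a z : K} (ha : a ∈ Loc A U) (h : z ∈ Loc A U) (h1 : U.ord z = 0) :
    a / z ∈ Loc A U := by
  by_cases h0 : z = 0
  · simp [h0]
  obtain ⟨b, h2, h3, h4, h5⟩ := h
  rw [div_eq_mul_inv]
  refine mul_mem ha ⟨b * z, h5, mul_ne_zero h3 h0, by rw [U.ord_mul h3 h0, h4, h1, add_zero], ?_⟩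
  rwa [mul_inv_cancel_right₀ h0]

open Polynomial in
theorem loc_int [IsFractionRing A K] [IsIntegrallyClosed A] {Q : K[X]} (hQ : Q.Monic)
    (hc : ∀ j, Q.coeff j ∈ Loc A U) {z : K} (hz : Q.eval z = 0) : z ∈ Loc A U := by
  classical
  choose b h1 h2 h3 h4 using hc
  obtain ⟨d, hd⟩ : ∃ d, d = ∏ j ∈ Q.support, b j := ⟨_, rfl⟩
  have hA : d ∈ A := hd ▸ prod_mem fun j _ => h1 j
  refine ⟨d, hA, hd ▸ Finset.prod_ne_zero_iff.2 fun j _ => h2 j,
    by rw [hd, U.ord_prod _ _ fun j _ => h2 j]; simp [h3], ?_⟩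
  have h5 : scaleRoots Q d ∈ lifts (algebraMap A K) := by
    refine (lifts_iff_coeff_lifts _).2 fun j => ?_
    suffices h : (scaleRoots Q d).coeff j ∈ A from ⟨⟨_, h⟩, rfl⟩
    rw [coeff_scaleRoots]
    by_cases hj : j ∈ Q.support
    · rcases (le_natDegree_of_mem_supp j hj).lt_or_eq with h6 | h6
      · obtain ⟨e, he⟩ := Nat.exists_eq_succ_of_ne_zero (Nat.sub_ne_zero_of_lt h6)
        rw [he, pow_succ', ← mul_assoc]
        refine mul_mem ?_ (pow_mem hA e)
        rw [hd, ← Finset.mul_prod_erase _ _ hj, ← mul_assoc, mul_comm _ (b j)]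
        exact mul_mem (h4 j) (prod_mem fun j _ => h1 j)
      · rw [h6, hQ.coeff_natDegree, Nat.sub_self, pow_zero, mul_one]
        exact one_mem _
    · rw [notMem_support_iff.1 hj, zero_mul]
      exact zero_mem _
  obtain ⟨R, h6, -, h7⟩ := lifts_and_degree_eq_and_monic h5 ((monic_scaleRoots_iff d).2 hQ)
  have h8 : IsIntegral A (d * z) :=
    ⟨R, h7, by rw [← eval_map, h6, scaleRoots_eval_mul, hz, mul_zero]⟩
  obtain ⟨y, hy⟩ := IsIntegrallyClosed.isIntegral_iff.1 h8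
  exact hy ▸ y.2

variable [CharZero F] [FiniteDimensional F K]

theorem loc_all [IsFractionRing A K] [IsIntegrallyClosed A]
    (hF : ∀ c : F, U.Ge (algebraMap F K c) 0 → algebraMap F K c ∈ Loc A U) {z : K}
    (hz : U.Ge z 0) : z ∈ Loc A U := by
  have key : ∀ b : K, (∀ U' : QVal K, (∀ c : F, U'.ord (algebraMap F K c) =
      U.ord (algebraMap F K c)) → U'.Ge b 0) → b ∈ Loc A U := fun b hb =>
    loc_int ((minpoly.monic (Algebra.IsIntegral.isIntegral (R := F) b)).map (algebraMap F K))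
      (fun j => by
        rw [Polynomial.coeff_map]
        exact hF _ (by simpa using adj_coeff hb j))
      (by rw [Polynomial.eval_map_algebraMap, minpoly.aeval])
  obtain ⟨y, h1, h2, h3⟩ := U.exists_denom (Algebra.IsAlgebraic.isAlgebraic (R := F) z) hz
  have h4 := loc_div (key _ fun U' h => (h3 U' h).2) (key _ fun U' h => (h3 U' h).1) h2
  rwa [mul_div_cancel_right₀ _ h1] at h4

section place

omit [Algebra ℂ K] [Algebra F K] [CharZero F] [FiniteDimensional F K]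

variable [Algebra k K] {w : Place k K} {e : ℕ} (he : 0 < e) (hw : ∀ z, (w.ord z : ℚ) = e * U.ord z)

theorem val_le_exp {z : K} {r : ℤ} : w.val z ≤ exp (-r) ↔ w.Ge z r := by
  by_cases hz : z = 0
  · simp [hz]
  rw [Place.val_apply, if_neg hz, exp_le_exp, Place.ge_iff hz, neg_le_neg_iff]

include he hw

theorem val_le_iff {a b : K} (hb : b ≠ 0) : w.val a ≤ w.val b ↔ U.Ge a (U.ord b) := by
  have h : (0 : ℚ) < e := by exact_mod_cast he
  rw [Place.val_apply w b, if_neg hb, val_le_exp, Place.Ge, QVal.Ge, ← Int.cast_le (R := ℚ), hw, hw,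
    mul_le_mul_iff_right₀ h]

theorem val_le_one_iff {a : K} : w.val a ≤ 1 ↔ U.Ge a 0 := by
  simpa using val_le_iff he hw (a := a) one_ne_zero

end place

variable [Algebra k F] [Algebra k K] [IsScalarTower k F K] {P : Place k F}

omit [Algebra ℂ K] [CharZero F] in
theorem exists_val (hU : U.Over P) :
    ∃ (w : Place k K) (e : ℕ), 0 < e ∧ ∀ z, (w.ord z : ℚ) = e * U.ord z := by
  obtain ⟨w, e, h1, h2⟩ := hU.exists_place K
  exact ⟨w, e, h1.1, h2⟩

omit [Algebra k F] [IsScalarTower k F K] in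
/-- A place of `K` whose restriction to `F` is a localisation inside `A` is a prime divisor. -/
theorem adj_prime [IsFractionRing A K] [IsIntegrallyClosed A] {w : Place k K} {e : ℕ} (he : 0 < e)
    (hw : ∀ z, (w.ord z : ℚ) = e * U.ord z) (hA : ∀ r ∈ A, U.Ge r 0)
    (hF : ∀ c : F, U.Ge (algebraMap F K c) 0 → algebraMap F K c ∈ Loc A U) :
    PrimeDiv A w.val := by
  refine ⟨?_, fun r hr => (val_le_one_iff he hw).2 (hA r hr), fun z hz => ?_⟩
  · obtain ⟨t, h0, h1⟩ := w.surj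
    exact ⟨t, by rw [Place.val_apply, if_neg h0, h1]⟩
  · obtain ⟨b, h1, h2, h3, h4⟩ := loc_all hF ((val_le_one_iff he hw).1 hz)
    refine ⟨b, h1, ?_, h4⟩
    have h5 := hw b
    rw [h3, mul_zero, Int.cast_eq_zero] at h5
    rw [Place.val_apply, if_neg h2, h5, neg_zero, exp_zero]

/-- Adjunction at a finite place. -/
theorem adj_fin [IsFractionRing A K] [IsIntegrallyClosed A] (dim : Algebra.trdeg ℂ K = n)
    (D : Fin n → Derivation ℂ K K) {m : ℕ} (hm : m ≠ 0) {g : K} (hg : g ≠ 0)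
    (eff : ∀ w, PrimeDiv A w → ¬ LD D m w g (m + 1)) (hU : U.Over P) (hA : ∀ r ∈ A, U.Ge r 0)
    (hF : ∀ c : F, U.Ge (algebraMap F K c) 0 → algebraMap F K c ∈ Loc A U) {y : Fin n → K}
    (hy : ∀ l, U.Ge (y l) 0) (hyF : ∀ p, MvPolynomial.aeval (R := ℂ) y p ∈ Set.range (algebraMap F K))
    {φ : K} (hφ : Cod F U φ) : U.Ge ((φ * jac D y) ^ m / g) 0 := by
  obtain ⟨w, e, he, hw⟩ := exists_val hU
  have hp := adj_prime he hw hA hF
  by_cases hJ : jac D y = 0
  · simp [hJ, hm]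
  obtain ⟨t, ht0, ht⟩ := w.surj
  have hy' : ∀ l, w.val (y l) ≤ 1 := fun l => (val_le_one_iff he hw).2 (hy l)
  obtain ⟨G₀, h1, h2⟩ := adj_dep dim w.val hp.triv ht0 (w.val_lt_one.2 (.of_le ht.ge)) hy'
  obtain ⟨G, a, -, h3, h4⟩ := adj_min w.val hp.triv hy' h1 h2
  have h5 : MvPolynomial.aeval y G ≠ 0 := fun h => by
    have h6 := jac_update_aeval D y a G
    rw [h, jac_update] at h6
    simp only [map_zero] at h6
    rw [Matrix.det_eq_zero_of_column_eq_zero a (by simp)] at h6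
    refine (mul_ne_zero (fun h7 => ?_) hJ) h6.symm
    rw [h7, map_zero] at h4
    exact zero_ne_one h4
  have h6 := (w.val_lt_one.1 h3).le h5
  obtain ⟨r, hr⟩ : ∃ r : ℕ, w.ord (MvPolynomial.aeval y G) = r + 1 :=
    ⟨(w.ord (MvPolynomial.aeval y G) - 1).toNat, by omega⟩
  have h7 := jac_ram D w.val hp.triv (fun u hu => eff_val dim D hm hp.triv hp.1 hg (eff _ hp) hu)
    hy' h4 (π := t) (ε := MvPolynomial.aeval y G / t ^ (r + 1)) (e := r)
    (w.val_le_one.2 (.of_le (by omega)))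
    (w.val_le_one.2 (.of_le (by rw [w.ord_div h5 (pow_ne_zero _ ht0), w.ord_pow, ht, hr]; simp)))
    (by rw [mul_div_cancel₀ _ (pow_ne_zero _ ht0)])
  have he' : (0 : ℚ) < e := by exact_mod_cast he
  obtain ⟨π, hπ⟩ := hyF G
  have h8 : (r + 1 : ℚ) = e * U.ord (algebraMap F K π) := by
    rw [hπ, ← hw, hr]
    simp
  have h9 := hφ.tame (fun j => by
    rw [← map_natCast (algebraMap k K)]
    exact hU.ord_const _) (π := π) (by
      have : (0 : ℚ) < r + 1 := by positivity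
      exact (mul_pos_iff_of_pos_left he').1 (h8 ▸ this))
  have h10 : w.val (φ * t ^ r) ≤ 1 := by
    refine w.val_le_one.2 ?_
    by_cases h0 : φ = 0
    · simp [h0]
    have h11 : -(r + 1 : ℚ) < w.ord φ := by
      rw [hw, h8, ← mul_neg]
      exact mul_lt_mul_of_pos_left (h9.lt h0) he'
    have h12 : -(r + 1 : ℤ) < w.ord φ := by exact_mod_cast h11
    refine .of_le ?_
    rw [w.ord_mul h0 (pow_ne_zero _ ht0), w.ord_pow, ht]
    omega
  rw [← val_le_one_iff he hw, map_div₀, map_pow, map_mul, mul_pow]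
  refine div_le_one_of_le₀ ((mul_le_mul_right h7 _).trans ?_) zero_le
  rw [← mul_assoc, ← mul_pow, ← map_pow, ← map_mul]
  exact mul_le_of_le_one_left' (pow_le_one' h10 m)

omit [Algebra F K] [CharZero F] [FiniteDimensional F K] [Algebra k F] [Algebra k K]
  [IsScalarTower k F K] in
/-- The ramification section: `(ξ 0 ^ (n + 1) * jac y) ^ m` is a section of `L + m (n + 1) H`. -/
theorem adj_ram [Finite ι] (dim : Algebra.trdeg ℂ K = n) (D : Fin n → Derivation ℂ K K) {m : ℕ}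
    (hm : m ≠ 0) (x : ι → Kˣ) (i : ι) [IsFractionRing (chart x i) K]
    [IsIntegrallyClosed (chart x i)] {g : K} (hg : g ≠ 0)
    (eff : ∀ w, PrimeDiv (chart x i) w → ¬ LD D m w g (m + 1)) {ξ : Fin (n + 1) → K}
    (h0 : ξ 0 ≠ 0) (hξ : ∀ l, ξ l / x i ∈ chart x i) :
    ((ξ 0 / x i) ^ (n + 1) * jac D fun l => ξ l.succ / ξ 0) ^ m / g ∈ chart x i := by
  refine eff_chart dim D hm x i hg eff fun w hw hb => ?_
  have h1 := jac_hom D (fun l => ξ l / x i) (div_ne_zero h0 (x i).ne_zero)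
  simp only [div_div_div_cancel_right₀ (x i).ne_zero] at h1
  have h2 : ∀ l, w (ξ l / x i) ≤ 1 := fun l => hw.2.1 _ (hξ l)
  obtain ⟨j, hj⟩ := Finite.exists_max fun j : Fin (n + 1) =>
    w (jac D fun b => ξ (j.succAbove b) / x i)
  refine (pow_le_pow_left' ?_ m).trans (hb _ fun b => h2 (j.succAbove b))
  rw [h1]
  refine w.map_sum_le fun l _ => ?_
  rw [map_mul, map_mul, map_pow, w.map_neg, map_one, one_pow, one_mul]
  exact (mul_le_of_le_one_left' (h2 l)).trans (hj l)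

end Pool.Agent.Lib.MP_bc213e_ag.KBG
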