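import Pool.Agent.Lib.MP_6adaea_nt.Place

/-! The prime divisors of projective space as places of the rational function field. -/

set_option linter.unusedSectionVars false

namespace Pool.Agent.Lib.MP_bc213e_ag.KBG

open Pool.Agent.Lib.MP_6adaea_nt

section general

variable {k R F : Type} [Field k] [CommRing R] [IsDomain R] [Algebra k R] [Field F] [Algebra k F]

/-- `ev` identifies `F` with the field of fractions of `R`. -/
structure IsFr (ev : R →ₐ[k] F) : Prop where
  inj : Function.Injective ev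
  frac : ∀ x : F, ∃ p q : R, q ≠ 0 ∧ x = ev p / ev q

variable {ev : R →ₐ[k] F}

theorem IsFr.ne (h : IsFr ev) {f : R} (hf : f ≠ 0) : ev f ≠ 0 :=
  (map_ne_zero_iff _ h.inj).2 hf

theorem IsFr.frac' (h : IsFr ev) {x : F} (hx : x ≠ 0) :
    ∃ p q : R, p ≠ 0 ∧ q ≠ 0 ∧ x = ev p / ev q := by
  obtain ⟨p, q, h1, h2⟩ := h.frac x
  refine ⟨p, q, ?_, h1, h2⟩
  rintro rfl
  exact hx (by simpa using h2)

theorem IsFr.ext (h : IsFr ev) {v w : Place k F} (e : ∀ f, f ≠ 0 → v.ord (ev f) = w.ord (ev f)) :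
    v = w := by
  ext x
  by_cases hx : x = 0
  · simp [hx]
  obtain ⟨p, q, h1, h2, rfl⟩ := h.frac' hx
  rw [v.ord_div (h.ne h1) (h.ne h2), w.ord_div (h.ne h1) (h.ne h2), e p h1, e q h2]

theorem IsFr.mk_place (h : IsFr ev) (φ : R → ℤ) (hC : ∀ c : k, c ≠ 0 → φ (algebraMap k R c) = 0)
    (hm : ∀ {f g : R}, f ≠ 0 → g ≠ 0 → φ (f * g) = φ f + φ g)
    (ha : ∀ {f g : R}, f ≠ 0 → g ≠ 0 → f + g ≠ 0 → min (φ f) (φ g) ≤ φ (f + g))
    {t : R} (ht : t ≠ 0) (h1 : φ t = 1 ∨ φ t = -1) :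
    ∃ v : Place k F, ∀ f, f ≠ 0 → v.ord (ev f) = φ f := by
  classical
  choose p q hq e using h.frac
  have one : φ 1 = 0 := by simpa using hC 1 one_ne_zero
  have key : ∀ {x : F} {a b : R}, a ≠ 0 → b ≠ 0 → x = ev a / ev b →
      (if x = 0 then 0 else φ (p x) - φ (q x)) = φ a - φ b := fun {x a b} a0 b0 hx => by
    have x0 : x ≠ 0 := hx ▸ div_ne_zero (h.ne a0) (h.ne b0)
    have p0 : p x ≠ 0 := fun h0 => x0 (by rw [e x, h0, map_zero, zero_div])
    have h2 : p x * b = a * q x := h.inj (by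
      rw [map_mul, map_mul, ← div_eq_div_iff (h.ne (hq x)) (h.ne b0), ← e x, hx])
    have h3 := congrArg φ h2
    rw [hm p0 b0, hm a0 (hq x)] at h3
    rw [if_neg x0]
    omega
  have key1 : ∀ f, f ≠ 0 → (if ev f = 0 then 0 else φ (p (ev f)) - φ (q (ev f))) = φ f :=
    fun f hf => by rw [key hf one_ne_zero (by simp), one, sub_zero]
  refine ⟨⟨fun x => if x = 0 then 0 else φ (p x) - φ (q x), if_pos rfl, fun {x y} hx hy => ?_,
    fun {x y} hx hy hxy => ?_, fun c => ?_, ?_⟩, key1⟩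
  · obtain ⟨a, b, a0, b0, h2⟩ := h.frac' hx
    obtain ⟨c, d, c0, d0, h3⟩ := h.frac' hy
    rw [key a0 b0 h2, key c0 d0 h3, key (mul_ne_zero a0 c0) (mul_ne_zero b0 d0)
      (by rw [h2, h3, map_mul, map_mul, div_mul_div_comm]), hm a0 c0, hm b0 d0]
    omega
  · obtain ⟨a, b, a0, b0, h2⟩ := h.frac' hx
    obtain ⟨c, d, c0, d0, h3⟩ := h.frac' hy
    have h4 : x + y = ev (a * d + b * c) / ev (b * d) := by
      rw [h2, h3, div_add_div _ _ (h.ne b0) (h.ne d0), map_add, map_mul, map_mul, map_mul]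
    have h5 : a * d + b * c ≠ 0 := fun h0 => hxy (by rw [h4, h0, map_zero, zero_div])
    have h6 := ha (mul_ne_zero a0 d0) (mul_ne_zero b0 c0) h5
    rw [hm a0 d0, hm b0 c0] at h6
    rw [key a0 b0 h2, key c0 d0 h3, key h5 (mul_ne_zero b0 d0) h4, hm b0 d0]
    omega
  · by_cases hc : c = 0
    · simp [hc]
    · rw [← ev.commutes c, key1 _ (by simpa using hc), hC c hc]
  · rcases h1 with h1 | h1
    · exact ⟨ev t, h.ne ht, (key1 t ht).trans h1⟩
    · exact ⟨ev 1 / ev t, div_ne_zero (h.ne one_ne_zero) (h.ne ht),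
        (key one_ne_zero ht rfl).trans (by omega)⟩

variable (ev) in
/-- `v` is the order of vanishing along the prime `p`. -/
def IsFin (p : R) (v : Place k F) : Prop := ∀ f, f ≠ 0 → v.ord (ev f) = multiplicity p f

variable [UniqueFactorizationMonoid R] {p p' : R} {v w : Place k F}

theorem IsFr.exists_fin (h : IsFr ev) (hp : Prime p) : ∃ v, IsFin ev p v := by
  refine h.mk_place (fun f => multiplicity p f) (fun c hc => ?_) (fun hf hg => ?_)
    (fun {f g} hf hg hfg => ?_) hp.ne_zero (Or.inl (by simp [multiplicity_self]))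
  · rw [Nat.cast_eq_zero, multiplicity_eq_zero]
    exact fun hd => hp.not_isUnit (isUnit_of_dvd_unit hd ((IsUnit.mk0 c hc).map _))
  · rw [multiplicity_mul hp (.of_prime_left hp (mul_ne_zero hf hg)), Nat.cast_add]
  · rw [← Nat.cast_min, Nat.cast_le,
      ← (FiniteMultiplicity.of_prime_left hp hfg).pow_dvd_iff_le_multiplicity]
    exact dvd_add (pow_dvd_of_le_multiplicity (min_le_left _ _))
      (pow_dvd_of_le_multiplicity (min_le_right _ _))

theorem IsFin.ge (h : IsFin ev p v) (f : R) : v.Ge (ev f) 0 := by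
  by_cases hf : f = 0
  · simp [hf]
  · exact Place.Ge.of_le (by rw [h f hf]; positivity)

theorem IsFin.ord_eq_zero (h : IsFin ev p v) {f : R} (hf : f ≠ 0) : v.ord (ev f) = 0 ↔ ¬ p ∣ f := by
  rw [h f hf, Nat.cast_eq_zero, multiplicity_eq_zero]

theorem IsFin.ge_iff (h0 : IsFr ev) (hp : Prime p) (h : IsFin ev p v) (f : R) (n : ℕ) :
    v.Ge (ev f) n ↔ p ^ n ∣ f := by
  by_cases hf : f = 0
  · simp [hf]
  · rw [Place.ge_iff (h0.ne hf), h f hf, Nat.cast_le,
      (FiniteMultiplicity.of_prime_left hp hf).pow_dvd_iff_le_multiplicity]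

theorem IsFin.ord_self (hp : Prime p) (h : IsFin ev p v) : v.ord (ev p) = 1 := by
  rw [h p hp.ne_zero, multiplicity_self, Nat.cast_one]

theorem IsFin.unique (h0 : IsFr ev) (h : IsFin ev p v) (h' : IsFin ev p w) : v = w :=
  h0.ext fun f hf => (h f hf).trans (h' f hf).symm

theorem IsFin.eq_iff (h0 : IsFr ev) (hp : Prime p) (hp' : Prime p') (h : IsFin ev p v)
    (h' : IsFin ev p' w) : v = w ↔ p ∣ p' := by
  constructor
  · rintro rfl
    by_contra hd
    have := (h.ord_eq_zero hp'.ne_zero).2 hd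
    rw [h'.ord_self hp'] at this
    exact one_ne_zero this
  · intro hd
    refine h0.ext fun f hf => ?_
    rw [h f hf, h' f hf, multiplicity_eq_of_associated_left (hp.associated_of_dvd hp' hd).symm]

open Classical in
theorem IsFin.ord_prime (h0 : IsFr ev) (hp : Prime p) (hp' : Prime p') (h : IsFin ev p v)
    (h' : IsFin ev p' w) : w.ord (ev p) = if w = v then 1 else 0 := by
  split_ifs with e
  · exact e ▸ h.ord_self hp
  · exact (h'.ord_eq_zero hp.ne_zero).2 fun hd => e ((h'.eq_iff h0 hp' hp h).2 hd)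

theorem IsFr.finite_poly (h : IsFr ev) {f : R} (hf : f ≠ 0) :
    {v : Place k F | (∃ p, Prime p ∧ IsFin ev p v) ∧ v.ord (ev f) ≠ 0}.Finite := by
  induction f using UniqueFactorizationMonoid.induction_on_prime with
  | h₁ => exact absurd rfl hf
  | h₂ u hu =>
    refine Set.finite_empty.subset ?_
    rintro v ⟨⟨p, hp, hv⟩, h1⟩
    exact h1 ((hv.ord_eq_zero hf).2 fun hd => hp.not_isUnit (isUnit_of_dvd_unit hd hu))
  | h₃ a q ha hq ih =>
    obtain ⟨u, hu⟩ := h.exists_fin hq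
    refine ((ih ha).insert u).subset ?_
    rintro v ⟨⟨p, hp, hv⟩, h1⟩
    by_cases e : v = u
    · exact Or.inl e
    · refine Or.inr ⟨⟨p, hp, hv⟩, ?_⟩
      rwa [map_mul, v.ord_mul (h.ne hq.ne_zero) (h.ne ha), hu.ord_prime h hq hp hv, if_neg e,
        zero_add] at h1

theorem IsFr.finite_fin (h : IsFr ev) (x : F) :
    {v : Place k F | (∃ p, Prime p ∧ IsFin ev p v) ∧ v.ord x ≠ 0}.Finite := by
  by_cases hx : x = 0
  · simp [hx]
  obtain ⟨a, b, a0, b0, rfl⟩ := h.frac' hx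
  refine ((h.finite_poly a0).union (h.finite_poly b0)).subset ?_
  rintro v ⟨h1, h2⟩
  rw [v.ord_div (h.ne a0) (h.ne b0)] at h2
  by_cases h3 : v.ord (ev a) = 0
  · exact Or.inr ⟨h1, by omega⟩
  · exact Or.inl ⟨h1, h3⟩

/-- A function without poles at the finite places is a polynomial. -/
theorem IsFr.hartogs (h : IsFr ev) {x : F} (hx : ∀ p v, Prime p → IsFin ev p v → v.Ge x 0) :
    ∃ f, x = ev f := by
  by_cases h0 : x = 0
  · exact ⟨0, by simp [h0]⟩
  obtain ⟨a, b, a0, b0, rfl⟩ := h.frac' h0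
  obtain ⟨c, rfl⟩ : b ∣ a := (UniqueFactorizationMonoid.dvd_iff_emultiplicity_le b0).2 fun p hp => by
    obtain ⟨v, hv⟩ := h.exists_fin hp
    have h1 := (hx p v hp hv).le h0
    rw [v.ord_div (h.ne a0) (h.ne b0), hv a a0, hv b b0] at h1
    rw [(FiniteMultiplicity.of_prime_left hp a0).emultiplicity_eq_multiplicity,
      (FiniteMultiplicity.of_prime_left hp b0).emultiplicity_eq_multiplicity, Nat.cast_le]
    omega
  exact ⟨c, by rw [map_mul, mul_div_cancel_left₀ _ (h.ne b0)]⟩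

end general

open MvPolynomial

variable {k σ F : Type} [Field k] [Field F] [Algebra k F] {ev : MvPolynomial σ k →ₐ[k] F}

variable (ev) in
/-- `v` is the order of vanishing along the hyperplane at infinity. -/
def IsInf (v : Place k F) : Prop := ∀ f, f ≠ 0 → v.ord (ev f) = -(f.totalDegree : ℤ)

variable (ev) in
/-- The prime divisors of projective space. -/
def Pl : Set (Place k F) := {v | (∃ p, Prime p ∧ IsFin ev p v) ∨ IsInf ev v}

theorem isFr_aeval {y : σ → F} (hy : AlgebraicIndependent k y)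
    (gen : IntermediateField.adjoin k (Set.range y) = ⊤) : IsFr (aeval y : _ →ₐ[k] F) := by
  refine ⟨hy, fun x => ?_⟩
  obtain ⟨p, q, h⟩ := (IntermediateField.mem_adjoin_range_iff k y x).1 (gen ▸ trivial)
  by_cases hq : q = 0
  · exact ⟨0, 1, one_ne_zero, by simpa [hq] using h⟩
  · exact ⟨p, q, hq, h⟩

theorem IsFr.exists_inf [Nonempty σ] (h : IsFr ev) : ∃ v, IsInf ev v := by
  obtain ⟨i⟩ := ‹Nonempty σ›
  refine h.mk_place (fun f => -(f.totalDegree : ℤ)) (fun c _ => by simp) (fun hf hg => ?_)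
    (fun {f g} _ _ _ => ?_) (X_ne_zero i) (Or.inr (by simp))
  · rw [totalDegree_mul_of_isDomain hf hg]
    push_cast
    ring
  · have := totalDegree_add f g
    omega

variable {p : MvPolynomial σ k} {v u w : Place k F}

theorem IsInf.unique (h : IsFr ev) (h1 : IsInf ev u) (h2 : IsInf ev w) : u = w :=
  h.ext fun f hf => (h1 f hf).trans (h2 f hf).symm

theorem totalDegree_pos_of_prime (hp : Prime p) : 0 < p.totalDegree := by
  by_contra h
  have h1 := totalDegree_eq_zero_iff_eq_C.1 (Nat.eq_zero_of_not_pos h)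
  refine hp.not_isUnit (h1 ▸ (IsUnit.mk0 _ fun h0 => hp.ne_zero ?_).map C)
  rw [h1, h0, C_0]

theorem IsFin.ne_inf (hp : Prime p) (hv : IsFin ev p v) (hu : IsInf ev u) : v ≠ u := by
  rintro rfl
  have h1 := hv.ord_self hp
  rw [hu p hp.ne_zero] at h1
  omega

theorem IsInf.ge_iff (h : IsFr ev) (hu : IsInf ev u) (f : MvPolynomial σ k) (μ : ℕ) :
    u.Ge (ev f) (-μ) ↔ f.totalDegree ≤ μ := by
  by_cases hf : f = 0
  · simp [hf]
  · rw [Place.ge_iff (h.ne hf), hu f hf, neg_le_neg_iff, Nat.cast_le]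

/-- Principal divisors have finite support. -/
theorem IsFr.finite_supp (h : IsFr ev) (x : F) : {v | v ∈ Pl ev ∧ v.ord x ≠ 0}.Finite := by
  have h1 : {v | IsInf ev v}.Finite := Set.Subsingleton.finite fun _ h1 _ h2 => IsInf.unique h h1 h2
  refine ((h.finite_fin x).union h1).subset ?_
  rintro v ⟨h2 | h2, h3⟩
  · exact Or.inl ⟨h2, h3⟩
  · exact Or.inr h2

open Classical in
/-- The divisor of a prime. -/
theorem IsFin.div (h : IsFr ev) (hp : Prime p) (hv : IsFin ev p v) (hu : IsInf ev u)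
    (hw : w ∈ Pl ev) :
    w.ord (ev p) = (if w = v then 1 else 0) - if w = u then (p.totalDegree : ℤ) else 0 := by
  rcases hw with ⟨q, hq, hw⟩ | hw
  · rw [hv.ord_prime h hp hq hw, if_neg (hw.ne_inf hq hu), sub_zero]
  · rw [hw p hp.ne_zero, if_neg (hv.ne_inf hp hw).symm, if_pos (hw.unique h hu), zero_sub]

open Classical in
/-- Every prime divisor is linearly equivalent to a multiple of the hyperplane at infinity. -/
theorem IsFr.pic (h : IsFr ev) (hu : IsInf ev u) (hv : v ∈ Pl ev) : ∃ (z : F) (m : ℕ), z ≠ 0 ∧ 0 < m ∧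
    ∀ w ∈ Pl ev, w.ord z = (if w = v then 1 else 0) - if w = u then (m : ℤ) else 0 := by
  rcases hv with ⟨p, hp, hv⟩ | hv
  · exact ⟨ev p, _, h.ne hp.ne_zero, totalDegree_pos_of_prime hp, fun w hw => hv.div h hp hu hw⟩
  · refine ⟨1, 1, one_ne_zero, one_pos, fun w _ => ?_⟩
    rw [hv.unique h hu]
    simp

theorem prime_of_totalDegree_eq_one (hp : p.totalDegree = 1) : Prime p := by
  have h0 : p ≠ 0 := by
    rintro rfl
    simp at hp
  refine UniqueFactorizationMonoid.irreducible_iff_prime.1 ⟨fun hu => ?_, fun a b e => ?_⟩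
  · obtain ⟨q, hq⟩ := hu.exists_right_inv
    have h1 := congrArg totalDegree hq
    rw [totalDegree_mul_of_isDomain h0 (right_ne_zero_of_mul_eq_one hq), totalDegree_one] at h1
    omega
  · have a0 : a ≠ 0 := left_ne_zero_of_mul (e ▸ h0)
    have b0 : b ≠ 0 := right_ne_zero_of_mul (e ▸ h0)
    have key : ∀ c : MvPolynomial σ k, c ≠ 0 → c.totalDegree = 0 → IsUnit c := fun c c0 hc => by
      have h1 := totalDegree_eq_zero_iff_eq_C.1 hc
      refine h1 ▸ (IsUnit.mk0 _ fun h2 => c0 ?_).map C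
      rw [h1, h2, C_0]
    rw [e, totalDegree_mul_of_isDomain a0 b0] at hp
    by_cases ha : a.totalDegree = 0
    · exact Or.inl (key a a0 ha)
    · exact Or.inr (key b b0 (by omega))

theorem totalDegree_X_sub_C (i : σ) (c : k) : (X i - C c : MvPolynomial σ k).totalDegree = 1 := by
  rw [sub_eq_add_neg, ← C_neg, totalDegree_add_eq_left_of_totalDegree_lt (by simp), totalDegree_X]

theorem prime_X_sub_C (i : σ) (c : k) : Prime (X i - C c : MvPolynomial σ k) :=
  prime_of_totalDegree_eq_one (totalDegree_X_sub_C i c)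

theorem X_sub_C_dvd {i j : σ} {c d : k} (h : (X i - C c : MvPolynomial σ k) ∣ X j - C d) :
    i = j ∧ c = d := by
  classical
  have key : ∀ a : σ → k, a i = c → a j = d := fun a ha => by
    have := map_dvd (eval a) h
    simpa [ha, sub_eq_zero] using this
  have h1 : c = d := key (fun _ => c) rfl
  refine ⟨by_contra fun hij => ?_, h1⟩
  have h2 := key (fun l => if l = i then c else d + 1) (if_pos rfl)
  simp [Ne.symm hij] at h2

open Classical in
/-- The hyperplanes `y i = c`. -/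
theorem IsFr.exists_hyp (h : IsFr ev) (hu : IsInf ev u) : ∃ Q : σ × k → Place k F,
    Function.Injective Q ∧ ∀ a, Q a ∈ Pl ev ∧ Q a ≠ u ∧ IsFin ev (X a.1 - C a.2) (Q a) ∧
      ∀ w ∈ Pl ev, w.ord (ev (X a.1) - algebraMap k F a.2) =
        (if w = Q a then 1 else 0) - if w = u then 1 else 0 := by
  choose Q hQ using fun a : σ × k => h.exists_fin (prime_X_sub_C a.1 a.2)
  refine ⟨Q, fun a b e => ?_, fun a => ⟨Or.inl ⟨_, prime_X_sub_C _ _, hQ a⟩,
    (hQ a).ne_inf (prime_X_sub_C _ _) hu, hQ a, fun w hw => ?_⟩⟩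
  · exact Prod.ext_iff.2 (X_sub_C_dvd
      (((hQ a).eq_iff h (prime_X_sub_C _ _) (prime_X_sub_C _ _) (hQ b)).1 e))
  · have h1 := (hQ a).div h (prime_X_sub_C _ _) hu hw
    rwa [totalDegree_X_sub_C, Nat.cast_one, map_sub, ← algebraMap_eq, AlgHom.commutes] at h1

open Classical in
theorem IsFr.infinite_hyp [Nonempty σ] [Infinite k] (h : IsFr ev) (hu : IsInf ev u) :
    {v | v ∈ Pl ev ∧ ∃ z : F, z ≠ 0 ∧
      ∀ w ∈ Pl ev, w.ord z = (if w = v then 1 else 0) - if w = u then 1 else 0}.Infinite := by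
  obtain ⟨Q, h1, h2⟩ := h.exists_hyp hu
  refine Set.infinite_of_injective_forall_mem h1 fun a => ⟨(h2 a).1, _, ?_, (h2 a).2.2.2⟩
  have h3 := h.ne (prime_X_sub_C a.1 a.2).ne_zero
  rwa [map_sub, ← algebraMap_eq, AlgHom.commutes] at h3

open Classical in
/-- The sections of `μ` times the hyperplane at infinity. -/
theorem IsFr.gam_iff (h : IsFr ev) (hu : IsInf ev u) (μ : ℕ) (x : F) :
    (∀ w ∈ Pl ev, w.Ge x (if w = u then -(μ : ℤ) else 0)) ↔
      ∃ f : MvPolynomial σ k, f.totalDegree ≤ μ ∧ x = ev f := by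
  constructor
  · intro hx
    obtain ⟨f, rfl⟩ := h.hartogs (x := x) fun p v hp hv => by
      simpa [hv.ne_inf hp hu] using hx v (Or.inl ⟨p, hp, hv⟩)
    exact ⟨f, (hu.ge_iff h f μ).1 (by simpa using hx u (Or.inr hu)), rfl⟩
  · rintro ⟨f, hf, rfl⟩ w (⟨p, hp, hw⟩ | hw)
    · rw [if_neg (hw.ne_inf hp hu)]
      exact hw.ge f
    · rw [if_pos (hw.unique h hu)]
      exact (hw.ge_iff h f μ).2 hf

/-- Functions that are regular away from the hyperplane at infinity. -/
theorem IsFr.reg_iff (h : IsFr ev) (hu : IsInf ev u) (x : F) :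
    (∀ w ∈ Pl ev, w ≠ u → w.Ge x 0) ↔ ∃ f : MvPolynomial σ k, x = ev f := by
  constructor
  · exact fun hx => h.hartogs fun p v hp hv => hx v (Or.inl ⟨p, hp, hv⟩) (hv.ne_inf hp hu)
  · rintro ⟨f, rfl⟩ w (⟨p, -, hw⟩ | hw) hne
    · exact hw.ge f
    · exact absurd (hw.unique h hu) hne

end Pool.Agent.Lib.MP_bc213e_ag.KBG
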