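import Pool.Agent.Lib.MP_bc213e_ag.KBG.AdjB
import Pool.Agent.Lib.MP_bc213e_ag.KBG.G1
import Pool.Agent.Lib.MP_bc213e_ag.KBG.G2

/-! Pointwise adjunction on the generic member of the pencil. -/

namespace Pool.Agent.Lib.MP_bc213e_ag.KBG

open Pool.Agent.Lib.MP_6adaea_nt Hyp WithZero MvPolynomial IntermediateField

variable {K ι F k : Type} [Field K] [Algebra ℂ K] [Field F] [Algebra F K] [Field k] [Algebra k F]
  [Algebra k K] {s : ℕ}

theorem jac_ne_of_tb {n : ℕ} {τ y : Fin n → K} (hτ : IsTranscendenceBasis ℂ τ)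
    {D : Fin n → Derivation ℂ K K} (hD : ∀ a b, D a (τ b) = if a = b then 1 else 0)
    (hy : IsTranscendenceBasis ℂ y) : jac D y ≠ 0 := by
  obtain ⟨D', hD'⟩ := TCI.exists_dual _ hy
  have h2 := TCI.det_der_expand τ hτ D hD D' y
  have h3 : (Matrix.of fun a b => D' a (y b)) = 1 := by
    ext a b
    rw [Matrix.of_apply, hD', Matrix.one_apply]
  rw [h3, Matrix.det_one] at h2
  exact right_ne_zero_of_mul_eq_one h2.symm

theorem vv_div_mem {x : ι → Kˣ} {z : K} (hz : z ∈ VV x) (i : ι) : z / x i ∈ chart x i := by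
  induction hz using Submodule.span_induction with
  | mem r hr =>
    obtain ⟨l, rfl⟩ := hr
    exact Basic_mem x i l
  | zero => rw [zero_div]; exact zero_mem _
  | add a b _ _ ha hb => rw [add_div]; exact add_mem ha hb
  | smul c a _ ha => rw [smul_div_assoc]; exact Subalgebra.smul_mem _ ha c

/-- The tower `k = ℂ (y 0)`, `F = k (y 1, …)`. -/
structure Tw (y : Fin (s + 2) → K) (ev : MvPolynomial (Fin (s + 1)) k →ₐ[k] F) : Prop where
  hk : ∀ z : K, z ∈ Set.range (algebraMap k K) ↔ z ∈ adjoin ℂ {y 0}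
  hF : IsF y F
  fr : IsFr ev
  X : ∀ l, algebraMap F K (ev (X l)) = y l.succ

variable [IsScalarTower k F K] {y : Fin (s + 2) → K} {ev : MvPolynomial (Fin (s + 1)) k →ₐ[k] F}
  {P : Place k F} {U : QVal K} {p : MvPolynomial (Fin (s + 1)) k}

theorem Tw.ev_eq (T : Tw y ev) (f : MvPolynomial (Fin (s + 1)) k) :
    algebraMap F K (ev f) = aeval (fun l : Fin (s + 1) => y l.succ) f := by
  have h : (IsScalarTower.toAlgHom k F K).comp ev = aeval fun l : Fin (s + 1) => y l.succ :=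
    MvPolynomial.algHom_ext fun l => by simpa using T.X l
  exact DFunLike.congr_fun h f

theorem Tw.ord_k (T : Tw y ev) (hU : U.Over P) {z : K} (hz : z ∈ adjoin ℂ {y 0}) : U.ord z = 0 := by
  obtain ⟨c, rfl⟩ := (T.hk z).2 hz
  exact hU.ord_const c

theorem Tw.ge_fin (T : Tw y ev) (hU : U.Over P) (hP : IsFin ev p P) (l : Fin (s + 2)) :
    U.Ge (y l) 0 := by
  refine Fin.cases ?_ (fun l => ?_) l
  · exact .of_le (T.ord_k hU (mem_adjoin_simple_self ℂ _)).ge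
  · rw [← T.X]
    exact hU.ge_zero.2 (hP.ge _)

omit [IsScalarTower k F K] in
theorem Tw.ord_inf (T : Tw y ev) (hU : U.Over P) (hP : IsInf ev P) (l : Fin (s + 1)) :
    U.ord (y l.succ) = -1 := by
  rw [← T.X, hU, hP _ (X_ne_zero l), totalDegree_X]
  simp

theorem Tw.loc (T : Tw y ev) (hU : U.Over P) (hp : Prime p) (hP : IsFin ev p P)
    {A : Subalgebra ℂ K} (hy : ∀ l, y l ∈ Loc A U) (c : F) (hc : U.Ge (algebraMap F K c) 0) :
    algebraMap F K c ∈ Loc A U := by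
  have h1 : ∀ r : Polynomial ℂ, Polynomial.aeval (y 0) r ∈ Loc A U := fun r =>
    Algebra.adjoin_le (S := Loc A U) (by simpa using hy 0) (Polynomial.aeval_mem_adjoin_singleton ℂ _)
  have h2 : ∀ a : k, algebraMap k K a ∈ Loc A U := fun a => by
    obtain ⟨r, t, h⟩ := (mem_adjoin_simple_iff ℂ _).1 ((T.hk _).1 ⟨a, rfl⟩)
    rw [h]
    exact loc_div (h1 r) (h1 t) (T.ord_k hU
      (algebra_adjoin_le_adjoin ℂ _ (Polynomial.aeval_mem_adjoin_singleton ℂ _)))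
  have h3 : ∀ f, algebraMap F K (ev f) ∈ Loc A U := fun f => by
    rw [T.ev_eq]
    induction f using MvPolynomial.induction_on with
    | C a => simpa using h2 a
    | add a b ha hb => rw [map_add]; exact add_mem ha hb
    | mul_X a l ha => rw [map_mul, aeval_X]; exact mul_mem ha (hy _)
  obtain ⟨a, b, hb, rfl⟩ := T.fr.frac c
  obtain ⟨r, b', h4, rfl⟩ := WfDvdMonoid.max_power_factor' hb hp.not_isUnit
  have h5 : b' ≠ 0 := right_ne_zero_of_mul hb
  have h6 := (hP.ord_eq_zero h5).2 h4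
  obtain ⟨a', rfl⟩ : p ^ r ∣ a := (hP.ge_iff T.fr hp a r).1 (by
    have h7 := (hU.ge_zero.1 hc).mul (P.ge_ord (ev (p ^ r * b')))
    rwa [div_mul_cancel₀ _ (T.fr.ne hb), map_mul, map_pow,
      P.ord_mul (pow_ne_zero _ (T.fr.ne hp.ne_zero)) (T.fr.ne h5), P.ord_pow, hP.ord_self hp, h6,
      zero_add, add_zero, mul_one] at h7)
  rw [map_mul, map_mul, mul_div_mul_left _ _ (T.fr.ne (pow_ne_zero _ hp.ne_zero)), map_div₀]
  exact loc_div (h3 _) (h3 _) (by rw [hU, h6, Int.cast_zero])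

theorem Tw.triv (T : Tw y ev) (hU : U.Over P) {w : Place k K} {e : ℕ} (he : 0 < e)
    (hw : ∀ z, (w.ord z : ℚ) = e * U.ord z) : Triv w.val := fun c =>
  (val_le_one_iff he hw).2 (.of_le (T.ord_k hU (IntermediateField.algebraMap_mem _ c)).ge)

variable [FiniteDimensional F K] {x : ι → Kˣ} {i : ι}

theorem Tw.chart_ge (T : Tw y ev) (hU : U.Over P) (hi : ∀ l, U.ord (x i) ≤ U.ord (x l)) {r : K}
    (hr : r ∈ chart x i) : U.Ge r 0 := by
  obtain ⟨w, e, he, hw⟩ := exists_val hU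
  exact (val_le_one_iff he hw).1 (Basic_le w.val (T.triv hU he hw) x i
    (fun l => (val_le_iff he hw (x i).ne_zero).2 (.of_le (hi l))) r hr)

variable {ξ : Fin (s + 3) → K} {Θ : K}

theorem Sop.exists_min (h : Sop x ξ Θ) (T : Tw (yy ξ) ev) (hU : U.Over P) :
    ∃ l, ∀ z ∈ VV x, U.Ge z (U.ord (ξ l)) := by
  obtain ⟨w, e, he, hw⟩ := exists_val hU
  obtain ⟨l, hl⟩ := h.val w.val (T.triv hU he hw)
  exact ⟨l, fun z hz => (val_le_iff he hw (h.ne l)).1 (hl z hz)⟩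

theorem Sop.ge_of (h : Sop x ξ Θ) (T : Tw (yy ξ) ev) (hU : U.Over P) {r : ℚ} (hr : r ≤ 0)
    (hy : ∀ l, U.Ge (yy ξ l) r) {z : K} (hz : z ∈ VV x) : U.Ge (z / ξ 0) r := by
  obtain ⟨l, hl⟩ := h.exists_min T hU
  rw [QVal.ge_div_iff (h.ne 0)]
  refine (hl z hz).mono ?_
  refine Fin.cases (by simpa using hr) (fun l => ?_) l
  exact ((QVal.ge_div_iff (h.ne 0)).1 (hy l)).le (h.ne _)

theorem Sop.ge_inf (h : Sop x ξ Θ) (T : Tw (yy ξ) ev) (hU : U.Over P) (hP : IsInf ev P) {z : K}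
    (hz : z ∈ VV x) : U.Ge (z / ξ 0) (-1) := by
  refine h.ge_of T hU (by simp) (fun l => .of_le ?_) hz
  refine Fin.cases ?_ (fun l => (T.ord_inf hU hP l).ge) l
  rw [T.ord_k hU (mem_adjoin_simple_self ℂ _)]
  simp

/-- The hyperplane class vanishes at the finite places. -/
theorem Sop.ord_fin (h : Sop x ξ Θ) (T : Tw (yy ξ) ev) (hU : U.Over P) (hP : IsFin ev p P)
    (hi : ∀ l, U.ord (x i) ≤ U.ord (x l)) : U.ord (ξ 0 / x i) = 0 := by
  have h0 := div_ne_zero (x i).ne_zero (h.ne 0)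
  have h1 := (h.ge_of T hU le_rfl (T.ge_fin hU hP) (Submodule.subset_span ⟨i, rfl⟩)).le h0
  have h2 := (T.chart_ge hU hi (vv_div_mem (h.mem 0) i)).le (div_ne_zero (h.ne 0) (x i).ne_zero)
  rw [U.ord_div (x i).ne_zero (h.ne 0)] at h1
  rw [U.ord_div (h.ne 0) (x i).ne_zero] at h2 ⊢
  linarith

/-- The hyperplane class is one at the infinite places. -/
theorem Sop.ord_inf (h : Sop x ξ Θ) (T : Tw (yy ξ) ev) (hU : U.Over P) (hP : IsInf ev P)
    (hi : ∀ l, U.ord (x i) ≤ U.ord (x l)) : U.ord (ξ 0 / x i) = 1 := by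
  have h0 := div_ne_zero (x i).ne_zero (h.ne 0)
  have h1 := (h.ge_inf T hU hP (Submodule.subset_span ⟨i, rfl⟩)).le h0
  have h2 := (T.chart_ge hU hi (vv_div_mem (h.mem (Fin.succ (Fin.succ 0))) i)).le
    (div_ne_zero (h.ne _) (x i).ne_zero)
  have h3 := T.ord_inf hU hP 0
  rw [yy, U.ord_div (h.ne _) (h.ne 0)] at h3
  rw [U.ord_div (x i).ne_zero (h.ne 0)] at h1
  rw [U.ord_div (h.ne _) (x i).ne_zero] at h2 ⊢
  linarith

variable [CharZero F] {φ : K}

/-- The cover is unramified over the hyperplane at infinity. -/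
theorem Sop.cod_inf [Algebra ℂ k] [IsScalarTower ℂ k K] (h : Sop x ξ Θ) (T : Tw (yy ξ) ev)
    (hU : U.Over P) (hP : IsInf ev P) (hφ : Cod F U φ) : U.Ge φ 0 := by
  have hθ := T.hF.prim h.prim
  have h1 := hφ.euler (θ := Θ / ξ 0) (by
    rw [← adjoin_simple_toSubalgebra_of_isAlgebraic (Algebra.IsAlgebraic.isAlgebraic _), hθ]
    rfl) (T.fr.ne (X_ne_zero 0)) fun U' hU' => by
      have h2 : U'.Over P := fun c => (hU' c).trans (hU c)
      rw [QVal.ge_div_iff ((map_ne_zero _).2 (T.fr.ne (X_ne_zero 0))), T.X, T.ord_inf h2 hP,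
        zero_add]
      exact h.ge_inf T h2 hP h.memT
  obtain ⟨w, e, he, hw⟩ := exists_val hU
  have he' : (0 : ℚ) < e := by exact_mod_cast he
  obtain ⟨t, ht⟩ := (T.hk _).2 (mem_adjoin_simple_self ℂ _)
  have h2 := h.val_dl T.hF ht w.val (c := exp (e : ℤ))
    (by rw [← exp_zero, exp_le_exp]; positivity) fun f hf => by
      have h3 := hw (algebraMap F K (ev f))
      rw [hU, hP f hf] at h3
      have h4 : w.ord (algebraMap F K (ev f)) = e * -(f.totalDegree : ℤ) := by exact_mod_cast h3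
      rw [← T.ev_eq, Place.val_apply, if_neg ((map_ne_zero _).2 (T.fr.ne hf)), h4, ← exp_nsmul]
      simp [mul_comm]
  have h3 := dl_ne_zero (F := F) (Θ / ξ 0)
  rw [Place.val_apply, if_neg h3, ← exp_nsmul, exp_inj, nsmul_eq_mul] at h2
  have h4 : -(e * U.ord (dl F (Θ / ξ 0))) = (Module.finrank F K - 1 : ℕ) * (e : ℚ) := by
    rw [← hw]
    exact_mod_cast h2
  rw [Nat.cast_pred Module.finrank_pos] at h4
  rw [T.X, T.ord_inf hU hP, natDegree_minpoly_eq hθ, mul_comm _ φ] at h1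
  refine ((QVal.ge_mul_iff h3).1 h1).mono (le_of_mul_le_mul_left ?_ he')
  linarith

variable {D : Fin (s + 2) → Derivation ℂ K K} {m : ℕ} {g : K}

/-- Adjunction at a finite place. -/
theorem Sop.adj_fin (h : Sop x ξ Θ) (T : Tw (yy ξ) ev) [IsFractionRing (chart x i) K]
    [IsIntegrallyClosed (chart x i)] (hm : m ≠ 0) (hg : g ≠ 0)
    (eff : ∀ w, PrimeDiv (chart x i) w → ¬ LD D m w g (m + 1)) (hU : U.Over P) (hp : Prime p)
    (hP : IsFin ev p P) (hi : ∀ l, U.ord (x i) ≤ U.ord (x l)) (hφ : Cod F U φ) :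
    U.Ge ((φ * jac D (yy ξ)) ^ m / g) 0 := by
  refine KBG.adj_fin (by simpa using TCI.trdeg_eq_card _ h.tb) D hm hg eff hU
    (fun r => T.chart_ge hU hi) (T.loc hU hp hP fun l => ?_) (T.ge_fin hU hP)
    (fun f => (T.hF _).2 (algebra_adjoin_le_adjoin ℂ _ ?_)) hφ
  · rw [yy, ← div_div_div_cancel_right₀ (x i).ne_zero]
    exact loc_div (le_loc (vv_div_mem (h.mem _) i)) (le_loc (vv_div_mem (h.mem _) i))
      (h.ord_fin T hU hP hi)
  · rw [Algebra.adjoin_range_eq_range_aeval]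
    exact ⟨f, rfl⟩

/-- Pointwise adjunction: `m C ≤ m (n + 1) H + L + m div (jac y)`. -/
theorem Sop.adj [Finite ι] [Algebra ℂ k] [IsScalarTower ℂ k K] (h : Sop x ξ Θ) (T : Tw (yy ξ) ev)
    [IsFractionRing (chart x i) K] [IsIntegrallyClosed (chart x i)] (hm : m ≠ 0) (hg : g ≠ 0)
    (eff : ∀ w, PrimeDiv (chart x i) w → ¬ LD D m w g (m + 1)) (hU : U.Over P) (hP : P ∈ Pl ev)
    (hi : ∀ l, U.ord (x i) ≤ U.ord (x l)) (hφ : Cod F U φ) :
    U.Ge ((φ * jac D (yy ξ) * (ξ 0 / x i) ^ (s + 3)) ^ m / g) 0 := by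
  rcases hP with ⟨p, hp, hP⟩ | hP
  · rw [mul_pow, mul_div_right_comm, mul_comm]
    exact (((T.chart_ge hU hi (vv_div_mem (h.mem 0) i)).pow₀ _).pow₀ _).mul₀
      (h.adj_fin T hm hg eff hU hp hP hi hφ)
  · rw [mul_assoc, mul_pow, mul_div_assoc, mul_comm (jac D _)]
    exact ((h.cod_inf T hU hP hφ).pow₀ _).mul₀ (T.chart_ge hU hi (adj_ram
      (by simpa using TCI.trdeg_eq_card _ h.tb) D hm x i hg eff (h.ne 0) fun l =>
        vv_div_mem (h.mem l) i))

/-- Pointwise adjunction in terms of orders. -/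
theorem Sop.adj_ord [Finite ι] [Algebra ℂ k] [IsScalarTower ℂ k K] (h : Sop x ξ Θ)
    (T : Tw (yy ξ) ev) [IsFractionRing (chart x i) K] [IsIntegrallyClosed (chart x i)] (hm : m ≠ 0)
    (hg : g ≠ 0) (eff : ∀ w, PrimeDiv (chart x i) w → ¬ LD D m w g (m + 1))
    (hJ : jac D (yy ξ) ≠ 0) (hU : U.Over P) (hP : P ∈ Pl ev) (hi : ∀ l, U.ord (x i) ≤ U.ord (x l))
    (hφ : Cod F U φ) (h0 : φ ≠ 0) :
    U.ord g ≤ m * (U.ord φ + U.ord (jac D (yy ξ)) + (s + 3) * U.ord (ξ 0 / x i)) := by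
  have h1 := pow_ne_zero (s + 3) (div_ne_zero (h.ne 0) (x i).ne_zero)
  have h2 := ((QVal.ge_div_iff hg).1 (h.adj T hm hg eff hU hP hi hφ)).le
    (pow_ne_zero _ (mul_ne_zero (mul_ne_zero h0 hJ) h1))
  rw [U.ord_pow, U.ord_mul (mul_ne_zero h0 hJ) h1, U.ord_mul h0 hJ, U.ord_pow] at h2
  simpa using h2

end Pool.Agent.Lib.MP_bc213e_ag.KBG
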