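import Pool.Agent.Lib.MP_bc213e_ag.KBG.AdjC
import Pool.Agent.Lib.MP_bc213e_ag.KBV.Defs

/-! The adjunction inequality on the virtual curve. -/

namespace Pool.Agent.Lib.MP_bc213e_ag.KBG

open Pool.Agent.Lib.MP_6adaea_nt Hyp

variable {K ι F k E : Type} [Field K] [Field F] [Algebra F K] [Field k] [Field E] [Algebra k F]

section

variable [FiniteDimensional F K] {U : QVal K}

omit [Algebra k F] in
/-- Two extensions of the same valuation are separated by an integral element. -/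
theorem adj_sep {U' : QVal K} (h : ∀ c : F, U'.ord (algebraMap F K c) = U.ord (algebraMap F K c)) :
    ∃ u ∈ conj_B F U, u ≠ 0 ∧ U.ord u = 0 ∧ (U' = U ∨ 0 < U'.ord u) := by
  by_cases e : U' = U
  · exact ⟨1, one_mem _, one_ne_zero, U.ord_one, Or.inl e⟩
  obtain ⟨z, h1, h2⟩ : ∃ z, U.Ge z 0 ∧ ¬ U'.Ge z 0 := by
    by_contra hc
    push Not at hc
    exact e (QVal.ext_of_ge (fun c => (h c).symm) hc).symm
  obtain ⟨y, h3, h4, h5⟩ := U.exists_denom (Algebra.IsAlgebraic.isAlgebraic (R := F) z) h1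
  obtain ⟨h6, h7⟩ := QVal.not_ge_iff.1 h2
  refine ⟨y, fun V hV => (h5 V hV).1, h3, h4, Or.inr ?_⟩
  have h8 := (h5 U' h).2.le (mul_ne_zero h6 h3)
  rw [U'.ord_mul h6 h3] at h8
  linarith

/-- An element of the codifferent with a prescribed order greater than `-1`. -/
theorem cod_exists [CharZero F] {P : Place k F} (hU : U.Over P) {t : K} (ht : 0 < U.ord t) :
    ∃ φ, φ ≠ 0 ∧ Cod F U φ ∧ U.ord φ = U.ord t - 1 := by
  classical
  have ht0 : t ≠ 0 := fun h => by simp [h] at ht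
  obtain ⟨V, hV⟩ := U.exists_ext (E := AlgebraicClosure K)
  obtain ⟨y, h1, h2, h3⟩ :=
    U.exists_denom (Algebra.IsAlgebraic.isAlgebraic (R := F) t) (.of_le ht.le)
  choose u h4 h5 h6 h7 using fun σ : K →ₐ[F] AlgebraicClosure K => adj_sep (adj_comap hV σ)
  obtain ⟨π, hπ0, hπ⟩ := P.surj
  have hπ' : algebraMap F K π ≠ 0 := (map_ne_zero _).2 hπ0
  have h8 : ∏ σ, u σ ≠ 0 := Finset.prod_ne_zero_iff.2 fun σ _ => h5 σ
  have h9 : U.ord (t * y * ∏ σ, u σ) = U.ord t := by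
    rw [U.ord_mul (mul_ne_zero ht0 h1) h8, U.ord_mul ht0 h1, U.ord_prod _ _ fun σ _ => h5 σ]
    simp [h2, h6]
  refine ⟨t * y * (∏ σ, u σ) / algebraMap F K π,
    div_ne_zero (mul_ne_zero (mul_ne_zero ht0 h1) h8) hπ', fun b hb => ?_, ?_⟩
  · rw [hU.ge_zero, ← neg_add_cancel (1 : ℤ), ← hU.gt_iff, QVal.Gt, ← hV,
      ← map_eq_zero (algebraMap K (AlgebraicClosure K)), ← IsScalarTower.algebraMap_apply,
      trace_eq_sum_embeddings]
    refine QVal.Gt.sum (V := V) fun σ _ => ?_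
    refine (V.comap_gt (σ : K →+* AlgebraicClosure K) _ _).1 ?_
    have h10 := adj_comap hV σ
    rw [div_mul_eq_mul_div, QVal.gt_div_iff hπ', h10, hU, hπ]
    simp only [Int.cast_neg, Int.cast_one, neg_add_cancel]
    rw [mul_comm]
    refine (hb _ h10).mul_gt₀ ?_
    rcases h7 σ with e | e
    · rw [e]
      exact .of_lt (h9 ▸ ht)
    · rw [← Finset.mul_prod_erase _ _ (Finset.mem_univ σ), mul_comm (u σ), ← mul_assoc]
      exact ((h3 _ h10).2.mul₀ (prod_mem (S := conj_B F U) (fun τ _ => h4 τ) _ h10)).mul_gt₀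
        (.of_lt e)
  · rw [U.ord_div (mul_ne_zero (mul_ne_zero ht0 h1) h8) hπ', h9, hU, hπ, Int.cast_one]

end

/-- The restriction to `K` of a valuation of the virtual curve. -/
def toV [Algebra K E] (v : KBV.QVal E) : QVal K :=
  (⟨v.ord, v.ord_zero, v.ord_mul, v.ord_add⟩ : QVal E).comap (algebraMap K E)

theorem toV_ord [Algebra K E] (v : KBV.QVal E) (z : K) :
    (toV v : QVal K).ord z = v.ord (algebraMap K E z) := rfl

variable [Algebra K E] [Algebra F E] [IsScalarTower F K E] {B : KBV.Base k F E}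

theorem toV_over (v : B.P) {P : Place k F} (h : ∀ z, (B.res v).ord z = P.ord z) :
    (toV v.1 : QVal K).Over P := fun z => by
  rw [toV_ord, ← IsScalarTower.algebraMap_apply]
  exact h z

variable [Algebra k K] [IsScalarTower k F K] [FiniteDimensional F K] {K' : IntermediateField F E}

theorem eps_val (hK : ∀ z, z ∈ K' ↔ z ∈ Set.range (algebraMap K E)) (v : B.P) {P : Place k F}
    (h : ∀ z, (B.res v).ord z = P.ord z) :
    ∃ t : K, 0 < (toV v.1 : QVal K).ord t ∧ B.eps K' v = (toV v.1 : QVal K).ord t := by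
  obtain ⟨w, e, he, hw⟩ := exists_val (toV_over (K := K) v h)
  have he' : (0 : ℚ) < e := by exact_mod_cast he
  obtain ⟨t, -, ht⟩ := w.surj
  have h1 := hw t
  rw [ht, Int.cast_one] at h1
  obtain ⟨h2, z, h3, h4⟩ := (Classical.epsilon_spec
    (p := fun e => IsLeast {q : ℚ | 0 < q ∧ ∃ x ∈ K', v.1.ord x = q} e)
    ⟨(toV v.1 : QVal K).ord t, ⟨(mul_pos_iff_of_pos_left he').1 (h1 ▸ one_pos), _,
      (hK _).2 ⟨t, rfl⟩, rfl⟩, by
        rintro _ ⟨h2, z, h3, rfl⟩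
        obtain ⟨z, rfl⟩ := (hK z).1 h3
        refine le_of_mul_le_mul_left ?_ he'
        have h4 : (0 : ℚ) < w.ord z := hw z ▸ mul_pos he' h2
        rw [← h1, ← toV_ord, ← hw]
        exact_mod_cast h4⟩).1
  obtain ⟨z, rfl⟩ := (hK z).1 h3
  exact ⟨z, h2.trans_eq h4.symm, h4.symm⟩

variable [Algebra ℂ K] [Algebra ℂ k] [IsScalarTower ℂ k K] {s m : ℕ} {x g : ι → Kˣ}
  {ξ : Fin (s + 3) → K} {Θ : K} {ev : MvPolynomial (Fin (s + 1)) k →ₐ[k] F}

omit [Algebra ℂ k] [IsScalarTower ℂ k K] in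
/-- The divisor `H` of the virtual curve is the hyperplane class. -/
theorem Sop.H_eq (h : Sop x ξ Θ) (T : Tw (yy ξ) ev)
    (hPl : ∀ p ∈ B.Pl, ∃ P ∈ Pl ev, ∀ z, p.ord z = P.ord z)
    (hinf : ∃ P, IsInf ev P ∧ ∀ z, B.inf.ord z = P.ord z) (v : B.P) {i : ι}
    (hi : ∀ l, v.1.ord (algebraMap K E (x i)) ≤ v.1.ord (algebraMap K E (x l))) :
    B.H v = v.1.ord (algebraMap K E (ξ 0 / x i)) := by
  obtain ⟨P, hP, h1⟩ := hPl (B.res v) v.2
  obtain ⟨P', hP', h2⟩ := hinf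
  rw [← toV_ord, KBV.Base.H, KBV.Base.ov]
  rcases hP with ⟨p, hp, hP⟩ | hP
  · rw [h.ord_fin T (toV_over v h1) hP hi, if_neg]
    intro e
    refine hP.ne_inf hp hP' (Place.ext (funext fun z => ?_))
    exact_mod_cast (h1 z).symm.trans (e ▸ h2 z)
  · rw [h.ord_inf T (toV_over v h1) hP hi, if_pos]
    exact KBV.QVal.ext (funext fun z => by rw [h1, h2, hP.unique T.fr hP'])

/-- The adjunction inequality. -/
theorem Sop.geo_adj [Finite ι] (h : Sop x ξ Θ) (T : Tw (yy ξ) ev)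
    (frac : ∀ i, IsFractionRing (chart x i) K) (norm : ∀ i, IsIntegrallyClosed (chart x i))
    (hm : 0 < m) {τ : Fin (s + 2) → K} (hτ : IsTranscendenceBasis ℂ τ)
    {D : Fin (s + 2) → Derivation ℂ K K} (hD : ∀ a b, D a (τ b) = if a = b then 1 else 0)
    {a b : ℕ} {σ : Kˣ}
    (eff : ∀ i w, PrimeDiv (chart x i) w → ¬ LD D m w (g i ^ a * x i ^ b / σ) (m + 1))
    (hK : ∀ z, z ∈ K' ↔ z ∈ Set.range (algebraMap K E))
    (hPl : ∀ p ∈ B.Pl, ∃ P ∈ Pl ev, ∀ z, p.ord z = P.ord z)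
    (hinf : ∃ P, IsInf ev P ∧ ∀ z, B.inf.ord z = P.ord z) {L : B.Dv}
    (hL : ∀ v : B.P, ∃ i, (∀ l, v.1.ord (algebraMap K E (x i)) ≤ v.1.ord (algebraMap K E (x l))) ∧
      L v = -v.1.ord (algebraMap K E (g i))) {c : ℕ} (hc : c = s + 2) :
    ∃ z ∈ K', z ≠ 0 ∧ m • B.Cod K' ≤ (m * (c + 1) + b) • B.H + a • L + B.dv z := by
  have hJ := jac_ne_of_tb hτ hD h.tb
  have : CharZero K := charZero_of_injective_algebraMap (algebraMap ℂ K).injective
  have : CharZero F := (algebraMap F K).charZero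
  have n1 := mul_ne_zero (pow_ne_zero m hJ) σ.ne_zero
  have n2 := pow_ne_zero b (h.ne 0)
  refine ⟨algebraMap K E (jac D (yy ξ) ^ m * σ / ξ 0 ^ b), (hK _).2 ⟨_, rfl⟩,
    (map_ne_zero _).2 (div_ne_zero n1 n2), fun v => ?_⟩
  obtain ⟨i, hi, h1⟩ := hL v
  obtain ⟨P, hP, h2⟩ := hPl (B.res v) v.2
  obtain ⟨t, h3, h4⟩ := eps_val hK v h2
  obtain ⟨φ, h5, h6, h7⟩ := cod_exists (toV_over v h2) h3
  have := frac i
  have := norm i
  have n3 := pow_ne_zero a (g i).ne_zero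
  have n4 := pow_ne_zero b (x i).ne_zero
  have h8 := h.adj_ord T hm.ne' (div_ne_zero (mul_ne_zero n3 n4) σ.ne_zero) (eff i) hJ
    (toV_over v h2) hP hi h6 h5
  simp only [Pi.add_apply, Pi.smul_apply]
  simp only [nsmul_eq_mul, KBV.Base.Cod, KBV.Base.dv, h1, h4, h.H_eq T hPl hinf v hi, ← toV_ord,
    hc]
  rw [h7, QVal.ord_div _ (mul_ne_zero n3 n4) σ.ne_zero, QVal.ord_mul _ n3 n4, QVal.ord_pow,
    QVal.ord_pow] at h8
  rw [QVal.ord_div _ n1 n2, QVal.ord_mul _ (pow_ne_zero m hJ) σ.ne_zero, QVal.ord_pow, QVal.ord_pow]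
  rw [QVal.ord_div _ (h.ne 0) (x i).ne_zero] at h8 ⊢
  push_cast
  linarith

end Pool.Agent.Lib.MP_bc213e_ag.KBG
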