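import Pool.Agent.Lib.MP_bc213e_ag.KBV.BL

/-! Numerical consequences of the two variable Hilbert polynomial. -/

namespace Pool.Agent.Lib.MP_bc213e_ag.KBG

open Filter Topology

section aux

open Polynomial

theorem pNum_deg (d : ℕ) : ((X + 1 : ℝ[X]) ^ d).degree = d ∧ ((X + 1 : ℝ[X]) ^ d).leadingCoeff = 1 := by
  have h : (X + 1 : ℝ[X]).Monic := monic_X_add_C 1
  refine ⟨?_, h.pow d⟩
  rw [degree_pow, ← C_1, degree_X_add_C, nsmul_one]

theorem pNum_le {r : ℝ[X]} {d : ℕ} {c : ℝ}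
    (h : ∀ᶠ n : ℕ in atTop, |r.eval (n : ℝ)| ≤ c * ((n : ℝ) + 1) ^ d) : r.natDegree ≤ d := by
  by_contra hd
  have h1 : ((X + 1 : ℝ[X]) ^ d).degree < r.degree := by
    rw [(pNum_deg d).1]
    exact coe_lt_degree.2 (not_le.1 hd)
  have h2 := (abs_div_tendsto_atTop_atTop_of_degree_gt _ _ h1
    (leadingCoeff_ne_zero.1 ((pNum_deg d).2 ▸ one_ne_zero))).comp tendsto_natCast_atTop_atTop
  obtain ⟨n, h3, h4⟩ := (h.and (h2.eventually_gt_atTop c)).exists
  simp only [Function.comp, eval_pow, eval_add, eval_X, eval_one] at h4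
  have h5 : (0 : ℝ) < ((n : ℝ) + 1) ^ d := by positivity
  rw [abs_div, abs_of_pos h5, lt_div_iff₀ h5] at h4
  exact absurd h3 (not_le.2 h4)

theorem pNum_lim {r : ℝ[X]} {d : ℕ} (h : r.natDegree ≤ d) :
    Tendsto (fun n : ℕ => r.eval (n : ℝ) / ((n : ℝ) + 1) ^ d) atTop (𝓝 (r.coeff d)) := by
  have key : Tendsto (fun x : ℝ => r.eval x / ((X + 1 : ℝ[X]) ^ d).eval x) atTop
      (𝓝 (r.coeff d)) := by
    rcases (degree_le_of_natDegree_le h).lt_or_eq with h1 | h1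
    · rw [coeff_eq_zero_of_degree_lt h1]
      exact div_tendsto_atTop_zero_of_degree_lt _ _ ((pNum_deg d).1.symm ▸ h1)
    · have h2 := div_tendsto_atTop_leadingCoeff_div_of_degree_eq _ _ (h1.trans (pNum_deg d).1.symm)
      rwa [(pNum_deg d).2, div_one, leadingCoeff, natDegree_eq_of_degree_eq_some h1] at h2
  simpa [Function.comp_def] using key.comp tendsto_natCast_atTop_atTop

theorem pNum_zero {r : ℝ[X]} {a₀ : ℕ} (h : ∀ a : ℕ, a₀ ≤ a → r.eval (a : ℝ) = 0) : r = 0 := by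
  refine eq_zero_of_infinite_isRoot r (Set.infinite_of_injective_forall_mem
    (f := fun n : ℕ => ((a₀ + n : ℕ) : ℝ)) (fun m n e => ?_) fun n => h _ (Nat.le_add_right _ _))
  exact Nat.add_left_cancel (Nat.cast_injective (R := ℝ) e)

theorem pNum_ex (P : MvPolynomial (Fin 2) ℚ) : ∃ R : ℝ[X][X], ∀ t a : ℚ,
    (R.map (evalRingHom (a : ℝ))).eval (t : ℝ) = (MvPolynomial.eval ![t, a] P : ℚ) := by
  induction P using MvPolynomial.induction_on with
  | C c => exact ⟨C (C (c : ℝ)), fun t a => by simp⟩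
  | add p q hp hq =>
    obtain ⟨R, hR⟩ := hp
    obtain ⟨S, hS⟩ := hq
    exact ⟨R + S, fun t a => by simp [hR, hS]⟩
  | mul_X p i hp =>
    obtain ⟨R, hR⟩ := hp
    fin_cases i
    · exact ⟨R * X, fun t a => by simp [hR]⟩
    · exact ⟨R * C X, fun t a => by simp [hR]⟩

end aux

open Polynomial in
/-- Sketch. A univariate `r : ℚ[X]` with `0 ≤ r n ≤ C (n + 1) ^ d` for large naturals `n` has
`natDegree ≤ d`, and then `r n / (n + 1) ^ d → r.coeff d`. Let `R : ℚ[X][X]` be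
`MvPolynomial.aeval ![X, C X] P` (outer variable `t`). `nu` gives `(R.coeff i).eval a = 0` for
`i > ν`, `a ≥ a₀`, so `R.coeff i = 0`. `tot` gives `natDegree (R.eval (C λ * X)) ≤ ν + 2` for all
naturals `λ`; the coefficient of degree `D` is `∑ i, λ ^ i * (R.coeff i).coeff (D - i)` (`i ≤ D`),
a polynomial in `λ` with infinitely many roots, so `(R.coeff ν).coeff r = 0` for `r > 2`. -/
theorem num_lead {h : ℕ → ℕ → ℕ} {P : MvPolynomial (Fin 2) ℚ} {a₀ ν : ℕ}
    (hP : ∀ t a : ℕ, a₀ ≤ a → (h t a : ℚ) = MvPolynomial.eval ![(t : ℚ), (a : ℚ)] P)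
    (nu : ∀ a : ℕ, ∃ C : ℕ, ∀ t : ℕ, h t a ≤ C * (t + 1) ^ ν)
    (tot : ∃ C : ℕ, ∀ t a : ℕ, h t a ≤ C * (t + a + 1) ^ (ν + 2))
    {c : ℚ} (chi : ∀ᶠ t : ℕ in atTop, c * (t : ℚ) ^ ν ≤ MvPolynomial.eval ![(t : ℚ), 0] P) :
    ∃ q₀ q₁ q₂ : ℝ, (c : ℝ) ≤ q₀ ∧ ∀ a : ℕ, a₀ ≤ a →
      Tendsto (fun t : ℕ => (h t a : ℝ) / ((t : ℝ) + 1) ^ ν) atTop
        (𝓝 (q₀ + q₁ * a + q₂ * (a : ℝ) ^ 2)) := by
  obtain ⟨R, hR⟩ := pNum_ex P
  have h1 : ∀ t a : ℕ, a₀ ≤ a → (R.map (evalRingHom (a : ℝ))).eval (t : ℝ) = h t a :=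
    fun t a ha => by
      have := hR t a
      rw [← hP t a ha] at this
      exact_mod_cast this
  have h2 : R.natDegree ≤ ν := natDegree_le_iff_coeff_eq_zero.2 fun i hi =>
    pNum_zero (a₀ := a₀) fun a ha => by
      obtain ⟨c, hc⟩ := nu a
      have e : (R.map (evalRingHom (a : ℝ))).natDegree ≤ ν :=
        pNum_le (c := c) (Eventually.of_forall fun t => by
          rw [h1 t a ha, Nat.abs_cast]
          exact_mod_cast hc t)
      have e2 := natDegree_le_iff_coeff_eq_zero.1 e i hi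
      rwa [coeff_map, coe_evalRingHom] at e2
  have h3 : ∀ a : ℝ, Tendsto (fun t : ℕ => (R.map (evalRingHom a)).eval (t : ℝ) / ((t : ℝ) + 1) ^ ν)
      atTop (𝓝 ((R.coeff ν).eval a)) := fun a => by
    have e := pNum_lim (natDegree_map_le.trans h2 : (R.map (evalRingHom a)).natDegree ≤ ν)
    rwa [coeff_map, coe_evalRingHom] at e
  have h4 : (R.coeff ν).natDegree ≤ 2 := natDegree_le_iff_coeff_eq_zero.2 fun r hr => by
    obtain ⟨c, hc⟩ := tot
    have e1 : ∑ i ∈ Finset.range (ν + 1), C ((R.coeff i).coeff (ν + r - i)) * X ^ i = 0 :=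
      pNum_zero (a₀ := 0) fun l _ => by
        have e2 : (R.eval (C (l : ℝ) * X)).natDegree ≤ ν + 2 :=
          pNum_le (c := c * ((l : ℝ) + 1) ^ (ν + 2)) ((eventually_ge_atTop a₀).mono fun a ha => by
            have e3 : (R.eval (C (l : ℝ) * X)).eval (a : ℝ) = h (l * a) a := by
              rw [← h1 _ _ ha, eval_map, ← coe_evalRingHom (a : ℝ), ← eval₂_hom]
              simp
            rw [e3, Nat.abs_cast, mul_assoc, ← mul_pow]
            have e4 : (h (l * a) a : ℝ) ≤ c * ((l * a + a + 1 : ℕ) : ℝ) ^ (ν + 2) := by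
              exact_mod_cast hc (l * a) a
            refine e4.trans ?_
            gcongr
            push_cast
            nlinarith [Nat.cast_nonneg (α := ℝ) l])
        have e5 := natDegree_le_iff_coeff_eq_zero.1 e2 (ν + r) (by omega)
        rw [eval_eq_sum_range' (Nat.lt_succ_of_le h2), finsetSum_coeff] at e5
        rw [eval_finsetSum, ← e5]
        refine Finset.sum_congr rfl fun i hi => ?_
        have e6 : i ≤ ν + r := by have := Finset.mem_range.1 hi; omega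
        rw [mul_pow, ← mul_assoc, coeff_mul_X_pow', if_pos e6, ← C_pow, coeff_mul_C]
        simp
    have e7 := congrArg (fun q => coeff q ν) e1
    simp only [finsetSum_coeff, coeff_C_mul_X_pow, coeff_zero] at e7
    rw [Finset.sum_ite_eq, if_pos (Finset.self_mem_range_succ ν), Nat.add_sub_cancel_left] at e7
    exact e7
  refine ⟨(R.coeff ν).coeff 0, (R.coeff ν).coeff 1, (R.coeff ν).coeff 2, ?_, fun a ha => ?_⟩
  · have e1 := pNum_lim (natDegree_C_mul_X_pow_le (c : ℝ) ν)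
    rw [coeff_C_mul_X_pow, if_pos rfl] at e1
    rw [coeff_zero_eq_eval_zero]
    refine le_of_tendsto_of_tendsto e1 (h3 0) (chi.mono fun t ht => ?_)
    refine div_le_div_of_nonneg_right ?_ (by positivity)
    have e2 := hR t 0
    rw [Rat.cast_zero, Rat.cast_natCast] at e2
    rw [e2, eval_mul, eval_C, eval_pow, eval_X]
    exact_mod_cast ht
  · have e1 := h3 a
    rw [eval_eq_sum_range' (Nat.lt_succ_of_le h4)] at e1
    simp only [h1 _ a ha, Finset.sum_range_succ, Finset.sum_range_zero, zero_add, pow_zero, mul_one,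
      pow_one] at e1
    exact e1

theorem num_small {h : ℕ → ℕ} {ν : ℕ}
    (small : ¬ ∃ δ : ℚ, 0 < δ ∧ ∃ᶠ t : ℕ in atTop, δ * (t : ℚ) ^ ν ≤ h t) :
    Tendsto (fun t : ℕ => (h t : ℝ) / ((t : ℝ) + 1) ^ ν) atTop (𝓝 0) := by
  refine tendsto_order.2 ⟨fun e he => Eventually.of_forall fun t => he.trans_le (by positivity),
    fun e he => ?_⟩
  obtain ⟨δ, h1, h2⟩ := exists_rat_btwn he
  have h3 : ¬ ∃ᶠ t : ℕ in atTop, δ * (t : ℚ) ^ ν ≤ h t := fun hf =>
    small ⟨δ, by exact_mod_cast h1, hf⟩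
  refine (not_frequently.1 h3).mono fun t ht => ?_
  have h4 : (h t : ℝ) < δ * (t : ℝ) ^ ν := by exact_mod_cast not_le.1 ht
  rw [div_lt_iff₀ (by positivity)]
  refine h4.trans_le ?_
  gcongr
  linarith

/-- Sketch: `α = 2 q₂`, `γ = q₁ - q₂`, `J = a₀`; `BL_of_tendsto`, `BL_sum`, and
`∑ j < J, m b (j + 1) = h b J - h b 0`. -/
theorem num_poly {m h : ℕ → ℕ → ℕ} {ν a₀ : ℕ} {q₀ q₁ q₂ : ℝ} (hq₀ : 0 < q₀)
    (hq : ∀ a : ℕ, a₀ ≤ a → Tendsto (fun t : ℕ => (h t a : ℝ) / ((t : ℝ) + 1) ^ ν) atTop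
      (𝓝 (q₀ + q₁ * a + q₂ * (a : ℝ) ^ 2)))
    (h0 : Tendsto (fun t : ℕ => (h t 0 : ℝ) / ((t : ℝ) + 1) ^ ν) atTop (𝓝 0))
    (hm : ∀ b j, m b (j + 1) + h b j = h b (j + 1))
    {f : ℕ → ℝ} (hf : ∀ j, f j = KBV.BL fun b => (m b j : ℝ) / ((b : ℝ) + 1) ^ ν) :
    ∃ α γ : ℝ, (∀ᶠ j : ℕ in atTop, f j = α * j + γ) ∧
      ∃ J : ℕ, ∑ j ∈ Finset.range J, (α * (j + 1) + γ) < ∑ j ∈ Finset.range J, f (j + 1) := by
  have h1 : ∀ b j, (m b (j + 1) : ℝ) = h b (j + 1) - h b j := fun b j => by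
    rw [← hm b j]
    push_cast
    ring
  have h2 : ∀ b, Monotone (h b) := fun b => monotone_nat_of_le_succ fun j => by
    rw [← hm b j]
    exact Nat.le_add_left _ _
  refine ⟨2 * q₂, q₁ - q₂, ?_, a₀, ?_⟩
  · refine (eventually_ge_atTop (a₀ + 1)).mono fun j hj => ?_
    obtain ⟨j, rfl⟩ : ∃ i, j = i + 1 := ⟨j - 1, by omega⟩
    rw [hf]
    refine KBV.BL_of_tendsto ?_
    have e := (hq (j + 1) (by omega)).sub (hq j (by omega))
    simp only [h1, sub_div]
    convert e using 2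
    push_cast
    ring
  · obtain ⟨c, hc⟩ := KBV.Bdd.of_tendsto (hq a₀ le_rfl)
    have e1 : ∀ J : ℕ, ∑ j ∈ Finset.range J, (2 * q₂ * ((j : ℝ) + 1) + (q₁ - q₂)) =
        q₁ * J + q₂ * (J : ℝ) ^ 2 := fun J => by
      induction J with
      | zero => simp
      | succ J ih =>
        rw [Finset.sum_range_succ, ih]
        push_cast
        ring
    have e2 : ∑ j ∈ Finset.range a₀, f (j + 1) = q₀ + q₁ * a₀ + q₂ * (a₀ : ℝ) ^ 2 - 0 := by
      simp only [hf]
      rw [← KBV.BL_sum fun j hj => ⟨c, fun b => le_trans ?_ (hc b)⟩]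
      · refine KBV.BL_of_tendsto (((hq a₀ le_rfl).sub h0).congr fun b => ?_)
        rw [← Finset.sum_div, ← sub_div]
        simp only [h1]
        rw [Finset.sum_range_sub fun j => (h b j : ℝ)]
      · rw [abs_of_nonneg (by positivity), abs_of_nonneg (by positivity)]
        refine div_le_div_of_nonneg_right (Nat.cast_le.2 ?_) (by positivity)
        have e3 : h b (j + 1) ≤ h b a₀ := h2 b (Finset.mem_range.1 hj)
        have e4 := hm b j
        omega
    rw [e1, e2]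
    linarith

end Pool.Agent.Lib.MP_bc213e_ag.KBG
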