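import Pool.Agent.Lib.MP_bc213e_ag.KBG.PDim
import Pool.Agent.Lib.MP_bc213e_ag.KBG.G1

/-! The pencil and the first killer attached to a system of parameters. -/

namespace Pool.Agent.Lib.MP_bc213e_ag.KBG

open Hyp KBB Polynomial IntermediateField Module

variable {K ι : Type} [Field K] [Algebra ℂ K] {k : Type} [Field k] [Algebra ℂ k] [Algebra k K]
  [IsScalarTower ℂ k K] {x g : ι → Kˣ} {s : ℕ} {ξ : Fin (s + 3) → K} {Θ : K}

theorem pSop_deg {R : Type} [CommSemiring R] {n : ℕ} {q : MvPolynomial (Fin n) R} {α : Fin n →₀ ℕ}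
    (h : α ∈ q.support) : ∑ l, α l ≤ q.totalDegree := by
  have := MvPolynomial.le_totalDegree h
  rwa [Finsupp.sum_fintype _ _ fun _ => rfl] at this

theorem pSop_mono {V : Submodule ℂ K} {n : ℕ} {a : K} {u : Fin n → K} (h0 : a ≠ 0) (ha : a ∈ V)
    (hu : ∀ l, u l ∈ V) (α : Fin n → ℕ) {D : ℕ} (hD : ∑ l, α l ≤ D) :
    (∏ l, (u l / a) ^ α l) * a ^ D ∈ V ^ D := by
  obtain ⟨e, rfl⟩ := Nat.exists_eq_add_of_le hD
  have h1 : ∀ T : Finset (Fin n), ∏ l ∈ T, u l ^ α l ∈ V ^ ∑ l ∈ T, α l := fun T => by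
    induction T using Finset.induction_on with
    | empty =>
      rw [Finset.prod_empty, Finset.sum_empty, pow_zero]
      exact Submodule.one_le.1 le_rfl
    | insert l T hl ih =>
      rw [Finset.prod_insert hl, Finset.sum_insert hl, pow_add]
      exact Submodule.mul_mem_mul (Submodule.pow_mem_pow V (hu l) _) ih
  rw [pow_add V]
  convert Submodule.mul_mem_mul (h1 Finset.univ) (Submodule.pow_mem_pow V ha e) using 1
  simp only [div_pow]
  rw [Finset.prod_div_distrib, Finset.prod_pow_eq_pow_sum, pow_add, ← mul_assoc,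
    div_mul_cancel₀ _ (pow_ne_zero _ h0)]

theorem pSop_sec [Fintype ι] (i : ι) {w : K} (hw : w ∈ chart x i) :
    ∃ M₀ : ℕ, ∀ M, M₀ ≤ M → Sec x g 0 M (w * (x i : K) ^ M) := by
  choose e he using fun j => chart_trans x i j hw
  refine ⟨∑ j, e j, fun M hM j => ?_⟩
  have h1 : e j ≤ M :=
    (Finset.single_le_sum (f := e) (fun _ _ => Nat.zero_le _) (Finset.mem_univ j)).trans hM
  obtain ⟨d, rfl⟩ := Nat.exists_eq_add_of_le h1
  rw [zpow_zero, one_mul, mul_div_assoc, ← div_pow, pow_add, ← mul_assoc]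
  exact mul_mem (he j) (pow_mem (Basic_mem x j i) d)

theorem sec_of_VV {μ : ℕ} {z : K} (hz : z ∈ VV x ^ μ) : Sec x g 0 μ z := by
  intro i
  rw [zpow_zero, one_mul]
  have h1 : ∀ r ∈ VV x, r / (x i : K) ∈ chart x i := fun r hr => by
    induction hr using Submodule.span_induction with
    | mem r hr =>
      obtain ⟨j, rfl⟩ := hr
      exact Basic_mem x i j
    | zero =>
      rw [zero_div]
      exact zero_mem _
    | add a b _ _ ha hb =>
      rw [add_div]
      exact add_mem ha hb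
    | smul c a _ ha =>
      rw [smul_div_assoc]
      exact Subalgebra.smul_mem _ ha c
  induction hz using Submodule.pow_induction_on_left' with
  | algebraMap c =>
    rw [pow_zero, div_one]
    exact Subalgebra.algebraMap_mem _ c
  | add a b n _ _ ha hb =>
    rw [add_div]
    exact add_mem ha hb
  | mem_mul m hm n a _ ha =>
    rw [pow_succ', mul_div_mul_comm]
    exact mul_mem (h1 m hm) ha

/-- Sketch: given `O, c` take `i` with `O.valuation (x i)` maximal; `chart x i ≤ O`, and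
`x i / ξ 0 / c ∈ O` by `S.bd`. -/
theorem Sop.bd_of_sec [Fintype ι] [Nonempty ι] (S : Sop x ξ Θ) {μ : ℕ} {z : K}
    (hz : Sec x g 0 μ z) : z / ξ 0 ^ μ ∈ Bd (yy ξ) μ := by
  intro O c h1 h2 h3 h4
  obtain ⟨i, -, hi⟩ := Finset.exists_max_image Finset.univ (fun i => O.valuation (x i : K))
    Finset.univ_nonempty
  have h5 := Basic_le O.valuation (fun z => (O.valuation_le_one_iff _).2 (h1 z)) x i
    (fun j => hi j (Finset.mem_univ _)) _ (hz i)
  rw [zpow_zero, one_mul, O.valuation_le_one_iff] at h5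
  have h6 := S.bd (x i) (Submodule.subset_span ⟨i, rfl⟩) O c h1 h2 h3 h4
  rw [pow_one] at h6
  have h7 := (x i).ne_zero
  have h8 := S.ne 0
  convert O.mul_mem _ _ h5 (pow_mem h6 μ) using 1
  rw [div_pow, div_pow]
  field_simp

/-- Sketch. `a = ξ 0 / x i`. By `chart_trans` there is `r` with `a ^ N z (x i) ^ (r + N)` and
`(ξ 1 / x i) ^ N z (x i) ^ (r + N)` in `Sec 0 (r + N)`. So `ζ = z / a ^ r` and `y 0 ^ N ζ` lie in
`Bd y (r + N)`. `minpoly_coeff_poly` for both and `IsIntegrallyClosed.minpoly_smul` show that the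
coefficient `c m` of `minpoly ζ` is `q (y)` with `X 0 ^ (N (d - m)) * q` of degree at most
`(r + N) (d - m)`, so `q` has degree at most `r (d - m)` and `c m * a ^ (r (d - m)) ∈ chart x i`.
Hence `z = a ^ r ζ` is integral over the chart (`scaleRoots`). -/
theorem Sop.rs [Fintype ι] [Nonempty ι] (S : Sop x ξ Θ) (i : ι)
    (frac : IsFractionRing (chart x i) K) (norm : IsIntegrallyClosed (chart x i)) (z : K) (N : ℕ)
    (h₀ : (ξ 0 / x i) ^ N * z ∈ chart x i) (h₁ : (ξ 1 / x i) ^ N * z ∈ chart x i) :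
    z ∈ chart x i := by
  have hfd := S.fd
  have hx := (x i).ne_zero
  have h0 := S.ne 0
  obtain ⟨M₀, hM₀⟩ := pSop_sec (g := x) i h₀
  obtain ⟨M₁, hM₁⟩ := pSop_sec (g := x) i h₁
  obtain ⟨r, hr⟩ : ∃ r, r = M₀ + M₁ := ⟨_, rfl⟩
  obtain ⟨ζ, hζ⟩ : ∃ ζ, ζ = z / (ξ 0 / x i) ^ r := ⟨_, rfl⟩
  have b₀ : ζ ∈ Bd (yy ξ) (r + N) := by
    convert S.bd_of_sec (hM₀ (r + N) (by omega)) using 1
    rw [hζ, pow_add, pow_add, div_pow, div_pow]
    field_simp
  have b₁ : yy ξ 0 ^ N * ζ ∈ Bd (yy ξ) (r + N) := by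
    convert S.bd_of_sec (hM₁ (r + N) (by omega)) using 1
    rw [hζ, yy, Fin.succ_zero_eq_one, pow_add, pow_add, div_pow, div_pow, div_pow]
    field_simp
  have hint : IsIntegral (adjoin ℂ (Set.range (yy ξ))) ζ := Algebra.IsIntegral.isIntegral ζ
  obtain ⟨c, hc⟩ : ∃ c : adjoin ℂ (Set.range (yy ξ)), algebraMap _ K c = yy ξ 0 ^ N :=
    ⟨⟨yy ξ 0 ^ N, pow_mem (subset_adjoin ℂ _ (Set.mem_range_self 0)) N⟩, rfl⟩
  have hc0 : c ≠ 0 := by
    rintro rfl
    rw [map_zero] at hc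
    exact pow_ne_zero N (div_ne_zero (S.ne _) h0) hc.symm
  have hs := IsIntegrallyClosed.minpoly_smul hc0 hint
  rw [Algebra.smul_def, hc] at hs
  have key : ∀ m, algebraMap _ K ((minpoly (adjoin ℂ (Set.range (yy ξ))) ζ).coeff m) *
      ((ξ 0 / x i) ^ r) ^ ((minpoly (adjoin ℂ (Set.range (yy ξ))) ζ).natDegree - m) ∈
      chart x i := by
    intro m
    obtain ⟨q, -, hq⟩ := minpoly_coeff_poly (isF_self _) S.tb.1 b₀ m
    obtain ⟨q', hd, hq'⟩ := minpoly_coeff_poly (isF_self _) S.tb.1 b₁ m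
    rw [hs, natDegree_scaleRoots] at hd
    rw [hs, coeff_scaleRoots, map_mul, map_pow, hc, ← hq] at hq'
    rw [← hq]
    generalize (minpoly (adjoin ℂ (Set.range (yy ξ))) ζ).natDegree - m = D at hd hq' ⊢
    have e : q' = q * MvPolynomial.X 0 ^ (N * D) := by
      apply S.tb.1
      rw [hq', map_mul, map_pow, MvPolynomial.aeval_X, pow_mul]
    have hd' : q.totalDegree ≤ r * D := by
      by_cases hq0 : q = 0
      · rw [hq0, MvPolynomial.totalDegree_zero]
        exact Nat.zero_le _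
      · rw [e, MvPolynomial.totalDegree_mul_of_isDomain hq0
          (pow_ne_zero _ (MvPolynomial.X_ne_zero _)), MvPolynomial.totalDegree_X_pow, add_mul] at hd
        omega
    rw [← pow_mul, MvPolynomial.aeval_def, MvPolynomial.eval₂_eq', Finset.sum_mul]
    refine sum_mem fun α hα => ?_
    rw [mul_assoc]
    refine mul_mem (Subalgebra.algebraMap_mem _ _) ?_
    have h2 := sec_of_VV (g := x) (pSop_mono h0 (S.mem 0) (fun l => S.mem l.succ) α
      ((pSop_deg hα).trans hd')) i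
    rwa [zpow_zero, one_mul, mul_div_assoc, ← div_pow] at h2
  have hm := (minpoly.monic hint).map (algebraMap _ K)
  obtain ⟨Q, hQ, -, hQm⟩ := lifts_and_natDegree_eq_and_monic (f := algebraMap (chart x i) K)
    (p := ((minpoly (adjoin ℂ (Set.range (yy ξ))) ζ).map (algebraMap _ K)).scaleRoots
      ((ξ 0 / x i) ^ r))
    ((lifts_iff_coeff_lifts _).2 fun m => by
      rw [coeff_scaleRoots, coeff_map, natDegree_map]
      exact ⟨⟨_, key m⟩, rfl⟩) ((monic_scaleRoots_iff _).2 hm)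
  have hz : z = (ξ 0 / x i) ^ r * ζ := by
    rw [hζ]
    field_simp
  have hi : IsIntegral (chart x i) z := by
    refine ⟨Q, hQm, ?_⟩
    rw [eval₂_eq_eval_map, hQ, hz, scaleRoots_eval_mul, eval_map_algebraMap, minpoly.aeval,
      mul_zero]
  obtain ⟨w, hw⟩ := IsIntegrallyClosed.isIntegral_iff.1 hi
  exact hw ▸ w.2

theorem Sop.exists_pen [Fintype ι] [Nonempty ι] (S : Sop x ξ Θ) (g : ι → Kˣ)
    (frac : ∀ i, IsFractionRing (chart x i) K) (norm : ∀ i, IsIntegrallyClosed (chart x i))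
    (hk : ∀ z : K, z ∈ Set.range (algebraMap k K) ↔ z ∈ adjoin ℂ {yy ξ 0}) :
    ∃ p : Pen k x g, p.p₀ = ξ 0 := by
  obtain ⟨t, ht⟩ := (hk (yy ξ 0)).2 (mem_adjoin_simple_self ℂ _)
  have inj := (algebraMap k K).injective
  refine ⟨⟨ξ 0, ξ 1, t, sec_of_VV (by simpa using S.mem 0), sec_of_VV (by simpa using S.mem 1),
    S.ne 0, ?_, ?_, fun c => ?_, frac, norm, fun i => S.rs i (frac i) (norm i)⟩, rfl⟩
  · rw [ht, yy, Fin.succ_zero_eq_one, div_mul_cancel₀ _ (S.ne 0)]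
  · rw [← transcendental_algebraMap_iff inj, ht]
    exact S.tb.1.transcendental 0
  · obtain ⟨q, r, h⟩ := (mem_adjoin_simple_iff _ _).1 ((hk _).1 ⟨c, rfl⟩)
    rw [← ht, aeval_algebraMap_apply, aeval_algebraMap_apply, ← map_div₀] at h
    have h1 := inj h
    by_cases h2 : aeval t r = 0
    · exact ⟨0, 1, one_ne_zero, by rw [h1, h2, div_zero, zero_mul, map_zero]⟩
    · exact ⟨q, r, fun h3 => h2 (by rw [h3, map_zero]), by rw [h1, div_mul_cancel₀ _ h2]⟩

theorem Sop.aeval_mem_M (S : Sop x ξ Θ) (p : Pen k x g) (hp : p.p₀ = ξ 0)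
    (q : MvPolynomial (Fin (s + 1)) k) {μ : ℕ} (hq : q.totalDegree ≤ μ) :
    MvPolynomial.aeval (fun l => yy ξ l.succ) q ∈ p.M 0 μ := by
  rw [MvPolynomial.aeval_def, MvPolynomial.eval₂_eq']
  refine sum_mem fun α hα => ?_
  rw [← Algebra.smul_def]
  refine Submodule.smul_mem _ _ (Submodule.subset_span ⟨_, sec_of_VV (pSop_mono (S.ne 0) (S.mem 0)
    (fun l => S.mem l.succ.succ) α ((pSop_deg hα).trans hq)), ?_⟩)
  rw [hp, mul_div_assoc, div_self (pow_ne_zero _ (S.ne 0)), mul_one]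
  rfl

section trace

variable {F : Type} [Field F] [Algebra F K] {Γ : ℤ → Submodule k K}

omit [Algebra ℂ K] [Algebra ℂ k] [IsScalarTower ℂ k K] in
theorem pSop_pow {θ : K} (mul : ∀ {j : ℤ} {φ : K}, φ ∈ Γ j → φ * θ ∈ Γ (j + 1)) {r : ℕ} {φ : K}
    (hφ : φ ∈ Γ r) (i : ℕ) : φ * θ ^ i ∈ Γ (r + i : ℕ) := by
  induction i with
  | zero => simpa using hφ
  | succ i ih =>
    have := mul ih
    rwa [mul_assoc, ← pow_succ, ← Nat.cast_add_one] at this

/-- Sketch: `euler`, `minpolyDiv_mem`, `aeval_mem`, `M_mul`. -/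
theorem Sop.kill (S : Sop x ξ Θ) (p : Pen k x g) (hp : p.p₀ = ξ 0) (hF : IsF (yy ξ) F)
    (mul : ∀ {j : ℤ} {φ : K}, φ ∈ Γ j → φ * (Θ / ξ 0) ∈ Γ (j + 1))
    (tr : ∀ r : ℕ, ∀ φ ∈ Γ r, ∃ q : MvPolynomial (Fin (s + 1)) k, q.totalDegree ≤ r ∧
      MvPolynomial.aeval (fun l => yy ξ l.succ) q = algebraMap F K (Algebra.trace F K φ))
    (r : ℕ) {φ : K} (hφ : φ ∈ Γ r) :
    dl F (Θ / ξ 0) * φ ∈ p.M 0 (r + (finrank F K - 1)) := by
  have hfd := S.fd
  have hfd' := hF.fd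
  have : CharZero K := charZero_of_injective_algebraMap (algebraMap ℂ K).injective
  have : CharZero F := (algebraMap F K).charZero
  rw [euler (hF.prim S.prim)]
  refine sum_mem fun i hi => ?_
  obtain ⟨q, hq, e⟩ := tr (r + i) _ (pSop_pow mul hφ i)
  have h1 := S.aeval_mem_M p hp q hq
  have h2 : (minpolyDiv F (Θ / ξ 0)).coeff i ∈ p.M 0 (finrank F K - 1 - i) :=
    Submodule.subset_span ⟨_, sec_of_VV (S.minpolyDiv_mem hF i), by
      rw [hp, mul_div_assoc, div_self (pow_ne_zero _ (S.ne 0)), mul_one]⟩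
  have h3 := p.M_mul h1 h2
  have h4 := Finset.mem_range.1 hi
  rwa [e, add_zero, show r + i + (finrank F K - 1 - i) = r + (finrank F K - 1) by omega] at h3

/-- Sketch: by `euler`, `dl * Γ r` lies in the span of the `(r + N + 1) ^ (s + 1) * N` elements
`y ^ α * (minpolyDiv).coeff i`, `α l ≤ r + N`. -/
theorem Sop.grow (S : Sop x ξ Θ) (hF : IsF (yy ξ) F)
    (mul : ∀ {j : ℤ} {φ : K}, φ ∈ Γ j → φ * (Θ / ξ 0) ∈ Γ (j + 1))
    (tr : ∀ r : ℕ, ∀ φ ∈ Γ r, ∃ q : MvPolynomial (Fin (s + 1)) k, q.totalDegree ≤ r ∧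
      MvPolynomial.aeval (fun l => yy ξ l.succ) q = algebraMap F K (Algebra.trace F K φ)) :
    ∃ C : ℕ, ∀ r : ℕ, finrank k (Γ r) ≤ C * (r + 1) ^ (s + 1) := by
  have hfd := S.fd
  have hfd' := hF.fd
  have : CharZero K := charZero_of_injective_algebraMap (algebraMap ℂ K).injective
  have : CharZero F := (algebraMap F K).charZero
  obtain ⟨N, hN⟩ : ∃ N, N = finrank F K := ⟨_, rfl⟩
  refine ⟨(N + 1) ^ (s + 1) * N, fun r => ?_⟩
  let b : (Fin (s + 1) → Fin (r + N + 1)) × Fin N → K := fun a =>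
    (∏ l, yy ξ l.succ ^ (a.1 l : ℕ)) * (minpolyDiv F (Θ / ξ 0)).coeff a.2
  have : FiniteDimensional k (Submodule.span k (Set.range b)) :=
    FiniteDimensional.span_of_finite k (Set.finite_range b)
  have h1 : ∀ φ ∈ Γ r, dl F (Θ / ξ 0) * φ ∈ Submodule.span k (Set.range b) := by
    intro φ hφ
    rw [euler (hF.prim S.prim), ← hN]
    refine sum_mem fun i hi => ?_
    have h4 := Finset.mem_range.1 hi
    obtain ⟨q, hq, e⟩ := tr (r + i) _ (pSop_pow mul hφ i)
    rw [← e, MvPolynomial.aeval_def, MvPolynomial.eval₂_eq', Finset.sum_mul]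
    refine sum_mem fun α hα => ?_
    rw [mul_assoc, ← Algebra.smul_def]
    have h5 : ∀ l, α l < r + N + 1 := fun l => by
      have h6 := Finset.single_le_sum (f := fun l => α l) (fun _ _ => Nat.zero_le _)
        (Finset.mem_univ l)
      have h7 := (pSop_deg hα).trans hq
      omega
    exact Submodule.smul_mem _ _ (Submodule.subset_span ⟨(fun l => ⟨α l, h5 l⟩, ⟨i, h4⟩), rfl⟩)
  refine (fd_mul (dl_ne_zero _) h1).2.trans ((finrank_range_le_card b).trans ?_)
  rw [Fintype.card_prod, Fintype.card_fun, Fintype.card_fin, Fintype.card_fin, Fintype.card_fin,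
    mul_right_comm, ← mul_pow]
  gcongr
  nlinarith

end trace

end Pool.Agent.Lib.MP_bc213e_ag.KBG
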