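import Pool.Agent.Lib.MP_bc213e_ag.KBG.PKill
import Pool.Agent.Lib.MP_bc213e_ag.KBG.PSop
import Pool.Agent.Lib.MP_bc213e_ag.KBG.PNum
import Pool.Agent.Lib.MP_bc213e_ag.KBV.Vd

/-! Growth of the sections on the generic member of the pencil. -/

namespace Pool.Agent.Lib.MP_bc213e_ag.KBG

open Hyp KBB Polynomial IntermediateField Module Filter Topology

variable {K ι : Type} [Field K] [Algebra ℂ K] {k : Type} [Field k] [Algebra ℂ k] [Algebra k K]
  [IsScalarTower ℂ k K] {x g : ι → Kˣ} {s : ℕ} {ξ : Fin (s + 3) → K} {Θ : K}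

theorem fd_sec [Nonempty ι] {a₀ : ℕ}
    (h : ∀ t a : ℕ, a₀ ≤ a → FiniteDimensional ℂ (SecS x g t a)) (t a : ℕ) :
    FiniteDimensional ℂ (SecS x g t a) := by
  obtain ⟨i₀⟩ := ‹Nonempty ι›
  have := h t (a₀ + a) (by omega)
  refine (fd_mul (S' := SecS x g t (a₀ + a)) (pow_ne_zero a₀ (fr_ne x g 0 1 i₀))
    fun w hw => ?_).1
  have := sec_mul (sec_pow (main_sec_one x g i₀) a₀) hw
  rwa [mul_zero, zero_add, mul_one] at this

theorem tot_of [Fintype ι] [Nonempty ι] (hc : Cart x g)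
    (fd : ∀ t a : ℕ, FiniteDimensional ℂ (SecS x g t a)) {d C : ℕ}
    (h : ∀ a : ℕ, finrank ℂ (SecS x g (0 : ℕ) (a + 1)) ≤
      finrank ℂ (SecS x g (0 : ℕ) a) + C * (a + 1 + 1) ^ d) :
    ∃ C' : ℕ, ∀ t a : ℕ, finrank ℂ (SecS x g t a) ≤ C' * (t + a + 1) ^ (d + 1) := by
  obtain ⟨i₀⟩ := ‹Nonempty ι›
  obtain ⟨e, he⟩ := main_sec hc (-1) i₀
  have h1 : ∀ a : ℕ, finrank ℂ (SecS x g (0 : ℕ) a) ≤
      (finrank ℂ (SecS x g (0 : ℕ) 0) + C) * (a + 1) ^ (d + 1) := fun a => by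
    have h2 : finrank ℂ (SecS x g (0 : ℕ) a) ≤
        finrank ℂ (SecS x g (0 : ℕ) 0) + C * (a + 1) ^ (d + 1) := by
      induction a with
      | zero => omega
      | succ a ih =>
        have h3 : (a + 1) ^ (d + 1) + (a + 1 + 1) ^ d ≤ (a + 1 + 1) ^ (d + 1) := by
          have : (a + 1) ^ d ≤ (a + 1 + 1) ^ d := Nat.pow_le_pow_left (by omega) d
          rw [pow_succ, pow_succ]
          nlinarith
        have h4 := Nat.mul_le_mul_left C h3
        have h5 := h a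
        rw [mul_add] at h4
        omega
    have h3 : 1 ≤ (a + 1) ^ (d + 1) := Nat.one_le_pow _ _ (by omega)
    nlinarith
  refine ⟨(finrank ℂ (SecS x g (0 : ℕ) 0) + C) * (e + 1) ^ (d + 1), fun t a => ?_⟩
  have := fd 0 (t * e + a)
  have h2 := (fd_mul (S := SecS x g t a) (S' := SecS x g (0 : ℕ) (t * e + a))
    (pow_ne_zero t (fr_ne x g (-1) e i₀)) fun w hw => by
      have := sec_mul (sec_pow he t) hw
      rwa [mul_neg_one, neg_add_cancel] at this).2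
  refine h2.trans ((h1 _).trans ?_)
  rw [mul_assoc, ← mul_pow]
  exact Nat.mul_le_mul_left _ (Nat.pow_le_pow_left (by nlinarith) _)

variable (k) in
/-- The restrictions of the sections of `b L + j H` to the generic member of the pencil. -/
def MM (x g : ι → Kˣ) (ξ₀ : K) (j b : ℕ) : Submodule k K :=
  Submodule.span k {z | ∃ w, Sec x g b j w ∧ z = w / ξ₀ ^ j}

/-- `Γ b j` are the sections of `b L + j H` on the virtual curve, `n = s + 2`, `ν = s`. -/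
theorem g3 [Fintype ι] [Nonempty ι] (frac : ∀ i, IsFractionRing (chart x i) K)
    (norm : ∀ i, IsIntegrallyClosed (chart x i)) (hc : Cart x g) (hn : Nef x g) (S : Sop x ξ Θ)
    (hk : ∀ z : K, z ∈ Set.range (algebraMap k K) ↔ z ∈ adjoin ℂ {yy ξ 0})
    {F : Type} [Field F] [Algebra F K] (hF : IsF (yy ξ) F) (Γ : ℤ → ℤ → Submodule k K)
    (mul : ∀ {b j b' j' : ℤ} {φ ψ : K}, φ ∈ Γ b j → ψ ∈ Γ b' j' → φ * ψ ∈ Γ (b + b') (j + j'))
    (sec : ∀ {b : ℤ} {j : ℕ} {z : K}, Sec x g b j z → z / ξ 0 ^ j ∈ Γ b j)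
    (tr : ∀ r : ℕ, ∀ φ ∈ Γ 0 r, ∃ q : MvPolynomial (Fin (s + 1)) k, q.totalDegree ≤ r ∧
      MvPolynomial.aeval (fun l => yy ξ l.succ) q = algebraMap F K (Algebra.trace F K φ))
    {P : MvPolynomial (Fin 2) ℚ} {a₀ : ℕ}
    (hP : ∀ t a : ℕ, a₀ ≤ a → FiniteDimensional ℂ (SecS x g t a) ∧
      (finrank ℂ (SecS x g t a) : ℚ) = MvPolynomial.eval ![(t : ℚ), (a : ℚ)] P)
    (nu : ∀ a : ℕ, ∃ C : ℕ, ∀ t : ℕ, finrank ℂ (SecS x g t a) ≤ C * (t + 1) ^ s)
    {c : ℚ} (hc0 : 0 < c)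
    (chi : ∀ᶠ t : ℕ in atTop, c * (t : ℚ) ^ s ≤ MvPolynomial.eval ![(t : ℚ), 0] P)
    (small : ¬ ∃ δ : ℚ, 0 < δ ∧ ∃ᶠ t : ℕ in atTop, δ * (t : ℚ) ^ s ≤ finrank ℂ (SecS x g t 0)) :
    (∀ j, KBV.Tame s (MM k x g (ξ 0) j)) ∧
    (∃ j₀ e₂ : ℕ, ∀ j b : ℕ, j₀ ≤ j → ∀ φ ∈ Γ b j,
      dl F (Θ / ξ 0) * φ ∈ MM k x g (ξ 0) (j + (finrank F K - 1)) b ∧
        φ ∈ MM k x g (ξ 0) (j + e₂) b) ∧
    ∃ α γ : ℝ, (∀ᶠ j : ℕ in atTop, KBV.vd s (MM k x g (ξ 0) j) = α * j + γ) ∧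
      ∃ J : ℕ, ∑ j ∈ Finset.range J, (α * (j + 1) + γ) <
        ∑ j ∈ Finset.range J, KBV.vd s (MM k x g (ξ 0) (j + 1)) := by
  obtain ⟨p, hp⟩ := S.exists_pen g frac norm hk
  have fd := fd_sec fun t a ha => (hP t a ha).1
  have hM : ∀ j b : ℕ, MM k x g (ξ 0) j b = p.M b j := fun j b => by rw [MM, Pen.M, hp]
  have : FiniteDimensional F K := have := S.fd; hF.fd
  have : CharZero F := by
    have : CharZero K := charZero_of_injective_algebraMap (algebraMap ℂ K).injective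
    exact RingHom.charZero (algebraMap F K)
  have hΘ : ∀ {j : ℤ} {φ : K}, φ ∈ Γ 0 j → φ * (Θ / ξ 0) ∈ Γ 0 (j + 1) := fun h => by
    have h1 := sec (sec_of_VV (g := g) (μ := 1) (by rw [pow_one]; exact S.memT))
    simpa using mul h h1
  let G : p.Gm :=
    { Γ := Γ
      u := dl F (Θ / ξ 0)
      e := finrank F K - 1
      u_ne := dl_ne_zero _
      mul := mul
      sec := fun h => hp ▸ sec h
      kill := fun r φ hφ => S.kill p hp hF hΘ tr r hφ }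
  have hm : ∀ b j : ℕ, finrank k (p.M b (j + 1)) + finrank ℂ (SecS x g b j) =
      finrank ℂ (SecS x g b (j + 1)) := fun b j => have := fd b (j + 1); p.dim_M b j
  have fdM : ∀ b j : ℕ, FiniteDimensional k (p.M b j) := fun b j => have := fd b j; p.fd_M b j
  refine ⟨fun j => ?_, ?_, ?_⟩
  · obtain ⟨C, hC⟩ := nu (j + 1)
    refine ⟨C, fun b => ?_⟩
    rw [hM]
    refine ⟨fdM b j, ?_⟩
    have := fdM b (j + 1)
    have h1 := Submodule.finrank_mono (p.M_mono b (Nat.le_add_right j 1))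
    have h2 := hm b j
    have h3 := hC b
    exact_mod_cast (by omega : finrank k (p.M b j) ≤ C * (b + 1) ^ s)
  · obtain ⟨a₁, e₂, h⟩ := G.kills hc hn
    refine ⟨a₁, e₂, fun j b hj φ hφ => ?_⟩
    rw [hM, hM]
    exact h b j hj φ hφ
  · obtain ⟨C, hC⟩ := S.grow hF hΘ tr
    have tot := tot_of hc fd (d := s + 1) (C := C) fun a => by
      have := fdM 0 (a + 1 + G.e)
      have := (fd_mul (S := Γ 0 (a + 1 : ℕ)) G.u_ne (G.kill (a + 1))).1
      have h1 := Submodule.finrank_mono (G.M_le 0 (a + 1))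
      have h2 := hm 0 a
      have h3 := hC (a + 1)
      change finrank k (p.M (0 : ℕ) (a + 1)) ≤ finrank k (Γ 0 (a + 1 : ℕ)) at h1
      omega
    obtain ⟨q₀, q₁, q₂, hq₀, hq⟩ := num_lead (h := fun t a => finrank ℂ (SecS x g t a))
      (fun t a ha => (hP t a ha).2) nu tot chi
    refine num_poly (m := fun b j => finrank k (p.M b j))
      (lt_of_lt_of_le (by exact_mod_cast hc0) hq₀) hq (num_small small) hm fun j => ?_
    exact congrArg (KBV.vd s) (funext (hM j))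

end Pool.Agent.Lib.MP_bc213e_ag.KBG
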