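import Pool.Agent.Lib.MP_bc213e_ag.KBG.Inst
import Pool.Agent.Lib.MP_bc213e_ag.KBG.G3
import Pool.Agent.Lib.MP_bc213e_ag.KBV.Div

/-! The restricted sections on the virtual curve. -/

set_option linter.unusedSectionVars false

namespace Pool.Agent.Lib.MP_bc213e_ag.KBG

open Hyp KBB KBV IntermediateField Module Filter

variable {K ι k F Ω : Type} [Field K] [Algebra ℂ K] [Field k] [Field F] [Field Ω] [Algebra k F]
  [Algebra F K] [Algebra K Ω] [Algebra F Ω] [Algebra k Ω] [IsScalarTower F K Ω]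
  [IsScalarTower k F Ω] [Algebra ℂ k] [Algebra k K] [IsScalarTower ℂ k K] [IsScalarTower k F K]
  [IsScalarTower k K Ω] {s : ℕ} {x g : ι → Kˣ} {ξ : Fin (s + 3) → K} {Θ : K}
  {ev : MvPolynomial (Fin (s + 1)) k →ₐ[k] F}

variable (k K Ω) in
/-- The embedding of `K` in `Ω` as a linear map. -/
noncomputable def emb : K →ₗ[k] Ω := (IsScalarTower.toAlgHom k K Ω).toLinearMap

theorem emb_apply (z : K) : emb K k Ω z = algebraMap K Ω z := rfl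

variable (k Ω) in
/-- The restricted sections in `Ω`. -/
noncomputable def MO (x g : ι → Kˣ) (ξ₀ : K) (j b : ℕ) : Submodule k Ω :=
  (MM k x g ξ₀ j b).map (emb K k Ω)

theorem MO_le (ξ₀ : K) (j b : ℕ) : MO k Ω x g ξ₀ j b ≤
    Submodule.span k {z | ∃ r, Sec x g b j r ∧ z = algebraMap K Ω (r / ξ₀ ^ j)} := by
  rw [MO, MM, Submodule.map_span_le]
  rintro _ ⟨r, hr, rfl⟩
  exact Submodule.subset_span ⟨r, hr, rfl⟩

theorem vd_MO (ν : ℕ) (ξ₀ : K) (j : ℕ) : vd ν (MO k Ω x g ξ₀ j) = vd ν (MM k x g ξ₀ j) := by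
  unfold vd
  congr 1
  funext b
  rw [MO, ← (Submodule.equivMapOfInjective (emb K k Ω) (algebraMap K Ω).injective _).finrank_eq]

variable [Infinite k] [Fintype ι] [Nonempty ι]

theorem Sop.geo_le (S : Sop x ξ Θ) (T : Tw (yy ξ) ev) (j b : ℕ) :
    MO k Ω x g (ξ 0) j b ≤ (T.fr.base Ω).Γ (KO K F Ω)
      (j • (T.fr.base Ω).H + b • LL (T.fr.base Ω) x g) := by
  refine (MO_le _ j b).trans (Submodule.span_le.2 ?_)
  rintro _ ⟨r, hr, rfl⟩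
  exact S.sec_nat T hr

variable [IsAlgClosure F Ω] [CharZero k] [CharZero F] [CharZero Ω] [FiniteDimensional F K]

theorem Sop.geo_kill (S : Sop x ξ Θ) (T : Tw (yy ξ) ev) {L : (T.fr.base Ω).Dv} {j₀ e₂ : ℕ}
    (h : ∀ j b : ℕ, j₀ ≤ j → ∀ φ : K,
      algebraMap K Ω φ ∈ (T.fr.base Ω).Γ (KO K F Ω) (j • (T.fr.base Ω).H + b • L) →
        dl F (Θ / ξ 0) * φ ∈ MM k x g (ξ 0) (j + (finrank F K - 1)) b ∧
          φ ∈ MM k x g (ξ 0) (j + e₂) b) :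
    ∃ (D₁ D₂ : (T.fr.base Ω).Dv) (j₀ : ℕ), (T.fr.base Ω).IsDiv (KO K F Ω) D₁ ∧
      (T.fr.base Ω).IsDiv (KO K F Ω) D₂ ∧ 0 ≤ D₁ ∧ 0 ≤ D₂ ∧ D₁ ⊓ D₂ = 0 ∧ ∀ j b, j₀ ≤ j →
        (T.fr.base Ω).Γ (KO K F Ω) (j • (T.fr.base Ω).H - D₁ + b • L) ≤ MO k Ω x g (ξ 0) j b ∧
        (T.fr.base Ω).Γ (KO K F Ω) (j • (T.fr.base Ω).H - D₂ + b • L) ≤ MO k Ω x g (ξ 0) j b := by
  have d0 : dl F (Θ / ξ 0) ≠ 0 := dl_ne_zero _
  have d1 : algebraMap K Ω (dl F (Θ / ξ 0)) ≠ 0 := (map_ne_zero _).2 d0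
  have h1 : 0 ≤ (T.fr.base Ω).dv (algebraMap K Ω (dl F (Θ / ξ 0))) +
      (finrank F K - 1) • (T.fr.base Ω).H := fun v => by
    have h2 := (S.ge_dl T v).le d1
    rw [Pi.add_apply, Pi.smul_apply, nsmul_eq_mul, Base.dv_apply, Pi.zero_apply]
    linarith
  have h2 : 0 ≤ e₂ • (T.fr.base Ω).H := nsmul_nonneg Base.H_nonneg _
  refine ⟨_, _, j₀ + (finrank F K - 1) + e₂, (Base.isDiv_dv (map_mem_KO _)).add
    ((Base.isDiv_H _).nsmul _), (Base.isDiv_H _).nsmul e₂, h1, h2, funext fun v => ?_,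
    fun j b hj => ⟨fun z hz => ?_, fun z hz => ?_⟩⟩
  · rw [Pi.inf_apply, Pi.zero_apply]
    rcases T.fr.res_cases v with ⟨-, -, -, -, -, e⟩ | ⟨e', e⟩
    · have h3 : (e₂ • (T.fr.base Ω).H) v = 0 := by rw [Pi.smul_apply, e, smul_zero]
      rw [h3]
      exact inf_eq_right.2 (h1 v)
    · have h3 : ((T.fr.base Ω).dv (algebraMap K Ω (dl F (Θ / ξ 0))) +
          (finrank F K - 1) • (T.fr.base Ω).H) v = 0 := by
        rw [Pi.add_apply, Pi.smul_apply, e, Base.dv_apply, S.ord_dl_inf T e', nsmul_one,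
          neg_add_cancel]
      rw [h3]
      exact inf_eq_left.2 (h2 v)
  · obtain ⟨z, rfl⟩ := mem_KO.1 (Base.mem_Γ.1 hz).1
    obtain ⟨j, rfl⟩ : ∃ j', j = j' + (finrank F K - 1) := ⟨j - (finrank F K - 1), by omega⟩
    rw [← div_mul_cancel₀ z d0, map_mul, Base.mul_mem_Γ_iff (map_mem_KO _) d1] at hz
    have h3 := (h j b (by omega) (z / dl F (Θ / ξ 0)) (by
      convert hz using 2
      rw [add_nsmul]
      abel)).1
    rw [mul_div_cancel₀ z d0] at h3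
    exact ⟨z, h3, rfl⟩
  · obtain ⟨z, rfl⟩ := mem_KO.1 (Base.mem_Γ.1 hz).1
    obtain ⟨j, rfl⟩ : ∃ j', j = j' + e₂ := ⟨j - e₂, by omega⟩
    rw [add_nsmul, add_sub_cancel_right] at hz
    exact ⟨z, (h j b (by omega) z hz).2, rfl⟩

/-- The fields `tame`, `kill` and `poly` of the geometric input. -/
theorem Sop.g3v (S : Sop x ξ Θ) (T : Tw (yy ξ) ev) (frac : ∀ i, IsFractionRing (chart x i) K)
    (norm : ∀ i, IsIntegrallyClosed (chart x i)) (hc : Cart x g) (hn : Nef x g)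
    {P : MvPolynomial (Fin 2) ℚ} {a₀ : ℕ}
    (hP : ∀ t a : ℕ, a₀ ≤ a → FiniteDimensional ℂ (SecS x g t a) ∧
      (finrank ℂ (SecS x g t a) : ℚ) = MvPolynomial.eval ![(t : ℚ), (a : ℚ)] P)
    (nu : ∀ a : ℕ, ∃ C : ℕ, ∀ t : ℕ, finrank ℂ (SecS x g t a) ≤ C * (t + 1) ^ s)
    {c : ℚ} (hc0 : 0 < c)
    (chi : ∀ᶠ t : ℕ in atTop, c * (t : ℚ) ^ s ≤ MvPolynomial.eval ![(t : ℚ), 0] P)
    (small : ¬ ∃ δ : ℚ, 0 < δ ∧ ∃ᶠ t : ℕ in atTop, δ * (t : ℚ) ^ s ≤ finrank ℂ (SecS x g t 0)) :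
    (∀ j, Tame s (MO k Ω x g (ξ 0) j)) ∧
    (∃ (D₁ D₂ : (T.fr.base Ω).Dv) (j₀ : ℕ), (T.fr.base Ω).IsDiv (KO K F Ω) D₁ ∧
      (T.fr.base Ω).IsDiv (KO K F Ω) D₂ ∧ 0 ≤ D₁ ∧ 0 ≤ D₂ ∧ D₁ ⊓ D₂ = 0 ∧ ∀ j b, j₀ ≤ j →
        (T.fr.base Ω).Γ (KO K F Ω) (j • (T.fr.base Ω).H - D₁ + b • LL (T.fr.base Ω) x g) ≤
          MO k Ω x g (ξ 0) j b ∧
        (T.fr.base Ω).Γ (KO K F Ω) (j • (T.fr.base Ω).H - D₂ + b • LL (T.fr.base Ω) x g) ≤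
          MO k Ω x g (ξ 0) j b) ∧
    ∃ α γ : ℝ, (∀ᶠ j : ℕ in atTop, vd s (MO k Ω x g (ξ 0) j) = α * j + γ) ∧
      ∃ J : ℕ, ∑ j ∈ Finset.range J, (α * (j + 1) + γ) <
        ∑ j ∈ Finset.range J, vd s (MO k Ω x g (ξ 0) (j + 1)) := by
  obtain ⟨h1, ⟨j₀, e₂, h2⟩, h3⟩ := g3 frac norm hc hn S T.hk T.hF
    (fun b j => ((T.fr.base Ω).Γ (KO K F Ω)
      (j • (T.fr.base Ω).H + b • LL (T.fr.base Ω) x g)).comap (emb K k Ω))
    (fun {b j b' j' φ ψ} hφ hψ => by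
      have h := Base.mul_mem_Γ hφ hψ
      rwa [add_add_add_comm, ← add_zsmul, ← add_zsmul, emb_apply, emb_apply, ← map_mul] at h)
    (fun hz => by
      rw [Submodule.mem_comap, natCast_zsmul]
      exact S.sec T hz)
    (fun r φ hφ => T.trace_poly (Ω := Ω) (by
      rwa [Submodule.mem_comap, natCast_zsmul, zero_zsmul, add_zero] at hφ)) hP nu hc0 chi small
  refine ⟨fun j => (h1 j).map fun _ => emb K k Ω, S.geo_kill T (j₀ := j₀) (e₂ := e₂)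
    fun j b hj φ hφ => h2 j b hj φ ?_, ?_⟩
  · rwa [Submodule.mem_comap, natCast_zsmul, natCast_zsmul]
  · simpa only [vd_MO] using h3

end Pool.Agent.Lib.MP_bc213e_ag.KBG
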