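import Pool.Agent.Lib.MP_bc213e_ag.KBG.G2
import Pool.Agent.Lib.MP_bc213e_ag.KBV.Defs

/-! The base of the virtual curve: the prime divisors of a projective space. -/

namespace Pool.Agent.Lib.MP_bc213e_ag.KBG

open MvPolynomial WithZero KBV Pool.Agent.Lib.MP_6adaea_nt

section val

variable {E : Type} [Field E] (V : KBV.QVal E)

open Classical in
/-- The multiplicative form of a rational valuation. -/
noncomputable def toVal : Valuation E (WithZero (Multiplicative ℚ)) where
  toFun x := if x = 0 then 0 else exp (-V.ord x)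
  map_zero' := if_pos rfl
  map_one' := by simp
  map_mul' x y := by
    by_cases hx : x = 0
    · simp [hx]
    by_cases hy : y = 0
    · simp [hy]
    rw [if_neg (mul_ne_zero hx hy), if_neg hx, if_neg hy, V.ord_mul hx hy, neg_add, exp_add]
  map_add_le_max' x y := by
    by_cases hx : x = 0
    · simp [hx]
    by_cases hy : y = 0
    · simp [hy]
    by_cases h : x + y = 0
    · simp [h]
    simp only [if_neg hx, if_neg hy, if_neg h, le_max_iff, exp_le_exp, neg_le_neg_iff]
    exact min_le_iff.1 (V.ord_add hx hy h)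

variable {V}

theorem toVal_of_ne {x : E} (hx : x ≠ 0) : toVal V x = exp (-V.ord x) := if_neg hx

theorem toVal_le_exp {x : E} {m : ℚ} : toVal V x ≤ exp (-m) ↔ V.Ge x m := by
  by_cases hx : x = 0
  · simp [hx]
  · rw [toVal_of_ne hx, exp_le_exp, neg_le_neg_iff, KBV.QVal.ge_iff hx]

theorem toVal_lt_exp {x : E} {m : ℚ} : toVal V x < exp (-m) ↔ V.Gt x m := by
  by_cases hx : x = 0
  · simp [hx]
  · rw [toVal_of_ne hx, exp_lt_exp, neg_lt_neg_iff, KBV.QVal.gt_iff hx]

theorem toVal_le_one {x : E} : toVal V x ≤ 1 ↔ V.Ge x 0 := by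
  rw [← toVal_le_exp, neg_zero, exp_zero]

theorem toVal_lt_one {x : E} : toVal V x < 1 ↔ V.Gt x 0 := by
  rw [← toVal_lt_exp, neg_zero, exp_zero]

theorem toVal_le_toVal {x y : E} (hy : y ≠ 0) : toVal V x ≤ toVal V y ↔ V.Ge x (V.ord y) := by
  rw [toVal_of_ne hy, toVal_le_exp]

theorem toVal_eq_exp {x : E} {m : ℚ} : toVal V x = exp (-m) ↔ x ≠ 0 ∧ V.ord x = m := by
  by_cases hx : x = 0
  · simp [hx, exp_ne_zero.symm]
  · rw [toVal_of_ne hx, exp_inj, neg_inj]
    simp [hx]

end val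

variable {k σ F : Type} [Field k] [Field F] [Algebra k F]

/-- A place as a rational valuation. -/
def toQ (v : Place k F) : KBV.QVal F where
  ord x := v.ord x
  ord_zero := by simp
  ord_mul hf hg := by rw [v.ord_mul hf hg, Int.cast_add]
  ord_add hf hg h := by exact_mod_cast v.ord_add hf hg h

@[simp] theorem toQ_ord (v : Place k F) (x : F) : (toQ v).ord x = v.ord x := rfl

theorem toQ_inj {v w : Place k F} : toQ v = toQ w ↔ v = w := by
  refine ⟨fun h => Place.ext (funext fun x => ?_), fun h => h ▸ rfl⟩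
  have h1 : (v.ord x : ℚ) = w.ord x := congrArg (fun V : KBV.QVal F => V.ord x) h
  exact_mod_cast h1

theorem toQ_ge (v : Place k F) (x : F) (m : ℤ) : (toQ v).Ge x m ↔ v.Ge x m := by
  simp [KBV.QVal.Ge, Place.Ge]

variable {ev : MvPolynomial σ k →ₐ[k] F} [Nonempty σ]

/-- The place at infinity. -/
noncomputable def IsFr.u (h : IsFr ev) : Place k F := h.exists_inf.choose

theorem IsFr.isInf (h : IsFr ev) : IsInf ev h.u := h.exists_inf.choose_spec

/-- The coordinate hyperplanes, `none` is the hyperplane at infinity. -/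
noncomputable def IsFr.pl (h : IsFr ev) (a : Option σ) : Place k F :=
  a.elim h.u fun l => (h.exists_fin (p := X l) X_prime).choose

theorem IsFr.isFin (h : IsFr ev) (l : σ) : IsFin ev (X l) (h.pl (some l)) :=
  (h.exists_fin (p := X l) X_prime).choose_spec

theorem IsFr.pl_mem (h : IsFr ev) (a : Option σ) : h.pl a ∈ Pl ev := by
  cases a with
  | none => exact Or.inr h.isInf
  | some l => exact Or.inl ⟨_, X_prime, h.isFin l⟩

/-- The coordinate hyperplanes as rational valuations. -/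
noncomputable def IsFr.Q (h : IsFr ev) (a : Option σ) : KBV.QVal F := toQ (h.pl a)

open Classical in
/-- The prime divisors of projective space. -/
noncomputable def IsFr.base [Infinite k] (h : IsFr ev) (Ω : Type) : Base k F Ω where
  Pl := toQ '' Pl ev
  int := by
    rintro _ ⟨v, -, rfl⟩ x
    exact ⟨v.ord x, rfl⟩
  triv := by
    rintro _ ⟨v, -, rfl⟩ c
    simp
  fin x := ((h.finite_supp x).image toQ).subset (by
    rintro _ ⟨⟨v, hv, rfl⟩, h1⟩
    exact ⟨v, ⟨hv, fun h2 => h1 (by simp [h2])⟩, rfl⟩)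
  inf := toQ h.u
  inf_mem := ⟨_, Or.inr h.isInf, rfl⟩
  pic := by
    rintro _ ⟨v, hv, rfl⟩
    obtain ⟨z, m, h1, -, h2⟩ := h.pic h.isInf hv
    refine ⟨m, z, h1, ?_⟩
    rintro _ ⟨w, hw, rfl⟩
    simp only [toQ_inj, toQ_ord, h2 w hw]
    split_ifs <;> simp
  hyp S hS := by
    obtain ⟨v, ⟨hv, z, h1, h2⟩, h3⟩ := (h.infinite_hyp h.isInf).exists_notMem_finite
      (hS.preimage (f := toQ) fun _ _ _ _ e => toQ_inj.1 e)
    refine ⟨_, ⟨v, hv, rfl⟩, h3, z, h1, ?_⟩
    rintro _ ⟨w, hw, rfl⟩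
    simp only [toQ_inj, toQ_ord, h2 w hw]
    split_ifs <;> simp

variable [Infinite k] (h : IsFr ev) {Ω : Type} [Field Ω] [Algebra F Ω]

namespace IsFr

omit [Field Ω] [Algebra F Ω] in
theorem base_inf : (h.base Ω).inf = h.Q none := rfl

/-- Every valuation lies over a prime polynomial or over infinity. -/
theorem res_cases (v : (h.base Ω).P) :
    (∃ p w, Prime p ∧ IsFin ev p w ∧ (h.base Ω).res v = toQ w ∧ (h.base Ω).H v = 0) ∨
      ((h.base Ω).res v = (h.base Ω).inf ∧ (h.base Ω).H v = 1) := by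
  obtain ⟨w, ⟨p, hp, hw⟩ | hw, e⟩ := v.2
  · refine Or.inl ⟨p, w, hp, hw, e.symm, if_neg fun h1 => ?_⟩
    exact hw.ne_inf hp h.isInf (toQ_inj.1 (e.trans h1))
  · have h1 : (h.base Ω).res v = (h.base Ω).inf := e.symm.trans (congrArg toQ (hw.unique h h.isInf))
    exact Or.inr ⟨h1, if_pos h1⟩

theorem ord_inf {v : (h.base Ω).P} (hv : (h.base Ω).res v = (h.base Ω).inf)
    {f : MvPolynomial σ k} (hf : f ≠ 0) :
    v.1.ord (algebraMap F Ω (ev f)) = -(f.totalDegree : ℚ) := by
  have h1 : v.1.ord (algebraMap F Ω (ev f)) = h.u.ord (ev f) :=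
    congrArg (fun V : KBV.QVal F => V.ord (ev f)) hv
  rw [h1, h.isInf f hf]
  simp

/-- Polynomials of degree at most `μ` are sections of `μ H`. -/
theorem ge_poly (v : (h.base Ω).P) {f : MvPolynomial σ k} {μ : ℕ} (hf : f.totalDegree ≤ μ) :
    v.1.Ge (algebraMap F Ω (ev f)) (-(μ * (h.base Ω).H v)) := by
  rcases h.res_cases v with ⟨p, w, -, hw, e, e'⟩ | ⟨e, e'⟩
  · have h1 := (toQ_ge w _ _).2 (hw.ge f)
    rw [← e] at h1
    rw [e', mul_zero, neg_zero]
    simpa [Base.res] using h1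
  · by_cases h0 : f = 0
    · simp [h0]
    · refine .of_le ?_
      rw [h.ord_inf e h0, e', mul_one, neg_le_neg_iff]
      exact_mod_cast hf

theorem exists_over [Algebra.IsAlgebraic F Ω] {w : Place k F} (hw : w ∈ Pl ev) :
    ∃ v : (h.base Ω).P, (h.base Ω).res v = toQ w := by
  obtain ⟨V, hV⟩ := (toQ w).exists_ext (E := Ω)
  have e : V.comap (algebraMap F Ω) = toQ w := KBV.QVal.ext (funext hV)
  exact ⟨⟨V, w, hw, e.symm⟩, e⟩

/-- Sections of `μ H` in the base field are polynomials of degree at most `μ`. -/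
theorem poly_of_ge [Algebra.IsAlgebraic F Ω] {x : F} {μ : ℕ}
    (hx : ∀ v : (h.base Ω).P, v.1.Ge (algebraMap F Ω x) (-(μ * (h.base Ω).H v))) :
    ∃ f : MvPolynomial σ k, f.totalDegree ≤ μ ∧ x = ev f := by
  classical
  refine (h.gam_iff h.isInf μ x).1 fun w hw => ?_
  obtain ⟨v, hv⟩ := h.exists_over (Ω := Ω) hw
  have h1 : ((h.base Ω).res v).Ge x (-(μ * (h.base Ω).H v)) := by
    simpa [Base.res] using hx v
  have h2 : (h.base Ω).H v = if w = h.u then 1 else 0 := by
    change (if (h.base Ω).res v = toQ h.u then (1 : ℚ) else 0) = _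
    simp only [hv, toQ_inj]
  rw [hv, h2] at h1
  rw [← toQ_ge]
  split_ifs at h1 ⊢ <;> simpa using h1

theorem hyp_X (l : σ) :
    (h.base Ω).H + (h.base Ω).dv (algebraMap F Ω (ev (X l))) = (h.base Ω).ov (h.Q (some l)) := by
  classical
  funext v
  obtain ⟨w, hw, e⟩ := v.2
  have h1 : (h.base Ω).dv (algebraMap F Ω (ev (X l))) v = w.ord (ev (X l)) :=
    (congrArg (fun V : KBV.QVal F => V.ord (ev (X l))) e).symm
  have h2 : (h.base Ω).res v = toQ w := e.symm
  rw [Pi.add_apply, h1, (h.isFin l).div h X_prime h.isInf hw, totalDegree_X]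
  simp only [Base.H, Base.ov, h2, base_inf, IsFr.Q, toQ_inj]
  change (if w = h.u then (1 : ℚ) else 0) + _ = _
  split_ifs <;> simp

theorem geo_hyp (a : Option σ) : ∃ y : F, y ≠ 0 ∧
    (h.base Ω).H + (h.base Ω).dv (algebraMap F Ω y) = (h.base Ω).ov (h.Q a) := by
  cases a with
  | none =>
    refine ⟨1, one_ne_zero, funext fun v => ?_⟩
    simp [Base.dv, Base.H, base_inf]
  | some l => exact ⟨_, h.ne (X_ne_zero l), h.hyp_X l⟩

omit [Infinite k] in
theorem geo_two : ∃ a₀ a₁, h.Q a₀ ≠ h.Q a₁ := by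
  obtain ⟨l⟩ := ‹Nonempty σ›
  exact ⟨some l, none, fun e => (h.isFin l).ne_inf X_prime h.isInf (toQ_inj.1 e)⟩

end IsFr

end Pool.Agent.Lib.MP_bc213e_ag.KBG
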