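import Pool.Agent.Lib.MP_bc213e_ag.KBG.AdjD
import Pool.Agent.Lib.MP_bc213e_ag.KBG.PBase
import Pool.Agent.Lib.MP_bc213e_ag.KBB.Defs

/-! The virtual curve of the generic member of the pencil: data and dictionary. -/

set_option linter.unusedSectionVars false

namespace Pool.Agent.Lib.MP_bc213e_ag.KBG

open Hyp KBB KBV IntermediateField WithZero

variable {K ι : Type} [Field K] [Algebra ℂ K] {s : ℕ}

/-- The field of constants `ℂ (t)`. -/
noncomputable abbrev kk (ξ : Fin (s + 3) → K) : IntermediateField ℂ K := adjoin ℂ {yy ξ 0}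

/-- The function field of the projective space over `ℂ (t)`. -/
noncomputable abbrev FF (ξ : Fin (s + 3) → K) : IntermediateField (kk ξ) K :=
  adjoin (kk ξ) (Set.range fun l : Fin (s + 1) => yy ξ l.succ)

/-- Evaluation at the coordinates. -/
noncomputable def evv (ξ : Fin (s + 3) → K) : MvPolynomial (Fin (s + 1)) (kk ξ) →ₐ[kk ξ] FF ξ :=
  MvPolynomial.aeval fun l => ⟨yy ξ l.succ, subset_adjoin _ _ (Set.mem_range_self l)⟩

theorem Sop.tw {x : ι → Kˣ} {ξ : Fin (s + 3) → K} {Θ : K} (h : Sop x ξ Θ) :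
    Tw (yy ξ) (evv ξ) := by
  have hk : ∀ z : K, z ∈ Set.range (algebraMap (kk ξ) K) ↔ z ∈ adjoin ℂ {yy ξ 0} :=
    fun z => ⟨fun ⟨a, ha⟩ => ha ▸ a.2, fun hz => ⟨⟨z, hz⟩, rfl⟩⟩
  have e : ∀ p, algebraMap (FF ξ) K (evv ξ p) =
      MvPolynomial.aeval (fun l : Fin (s + 1) => yy ξ l.succ) p := fun p => by
    have h1 : (IsScalarTower.toAlgHom (kk ξ) (FF ξ) K).comp (evv ξ) =
        MvPolynomial.aeval fun l : Fin (s + 1) => yy ξ l.succ :=
      MvPolynomial.algHom_ext fun l => by simp [evv]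
    exact DFunLike.congr_fun h1 p
  have hi := indep_tower h.tb.1 hk
  refine ⟨hk, isF_tower hk, ⟨fun p q hpq => hi (by rw [← e, ← e, hpq]), fun z => ?_⟩,
    fun l => by rw [e, MvPolynomial.aeval_X]⟩
  obtain ⟨p, q, h1⟩ := (mem_adjoin_range_iff _ _ _).1 z.2
  by_cases hq : q = 0
  · refine ⟨0, 1, one_ne_zero, Subtype.ext ?_⟩
    rw [h1, hq]
    simp
  · refine ⟨p, q, hq, (algebraMap (FF ξ) K).injective ?_⟩
    rw [map_div₀, e, e]
    exact h1

variable {k F Ω : Type} [Field k] [Field F] [Field Ω] [Algebra k F] [Algebra F K] [Algebra K Ω]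
  [Algebra F Ω] [Algebra k Ω] [IsScalarTower F K Ω] [IsScalarTower k F Ω]

variable (F K Ω) in
/-- The image of `K` in `Ω`. -/
noncomputable def KO : IntermediateField F Ω := (IsScalarTower.toAlgHom F K Ω).fieldRange

theorem mem_KO {z : Ω} : z ∈ KO K F Ω ↔ z ∈ Set.range (algebraMap K Ω) := Iff.rfl

theorem map_mem_KO (z : K) : algebraMap K Ω z ∈ KO K F Ω := ⟨z, rfl⟩

theorem finK [FiniteDimensional F K] : FiniteDimensional F (KO K F Ω) :=
  (AlgEquiv.ofInjectiveField (IsScalarTower.toAlgHom F K Ω)).toLinearEquiv.finiteDimensional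

/-- The chart `i` contains the centre of `V`. -/
def IsCtr (x : ι → Kˣ) (V : QVal Ω) (i : ι) : Prop :=
  ∀ l, V.ord (algebraMap K Ω (x i)) ≤ V.ord (algebraMap K Ω (x l))

section ctr

variable [Finite ι] [Nonempty ι]

/-- A chart that contains the centre. -/
noncomputable def ctr (x : ι → Kˣ) (V : QVal Ω) : ι :=
  (Finite.exists_min fun i => V.ord (algebraMap K Ω (x i))).choose

theorem isCtr_ctr (x : ι → Kˣ) (V : QVal Ω) : IsCtr x V (ctr x V) :=
  (Finite.exists_min fun i => V.ord (algebraMap K Ω (x i))).choose_spec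

/-- The divisor `L`. -/
noncomputable def LL (B : Base k F Ω) (x g : ι → Kˣ) : B.Dv :=
  fun v => -v.1.ord (algebraMap K Ω (g (ctr x v.1)))

end ctr

theorem ge_of_coeff (V : QVal Ω) {z : Ω} (hz : IsIntegral F z)
    (h : ∀ i, V.Ge (algebraMap F Ω ((minpoly F z).coeff i)) 0) : V.Ge z 0 := by
  by_contra h3
  obtain ⟨h0, h1⟩ := QVal.not_ge_iff.mp h3
  have hf := minpoly.monic hz
  have hx := ext_sum F z
  refine (QVal.ord_sum_of_lt (V := V) (Finset.self_mem_range_succ (minpoly F z).natDegree) ?_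
    fun i hi hne => ?_).1 hx
  · simp [hf.coeff_natDegree, h0]
  · have h2 : (i : ℚ) < (minpoly F z).natDegree := by
      exact_mod_cast lt_of_le_of_ne (Nat.lt_succ_iff.mp (Finset.mem_range.mp hi)) hne
    simp only [hf.coeff_natDegree, map_one, one_mul, QVal.ord_pow]
    exact ((h _).mul₀ ((V.ge_ord z).pow i)).gt (by nlinarith)

theorem fin_ge (B : Base k F Ω) {z : Ω} (hz : IsIntegral F z) :
    ∃ S : Set (QVal F), S.Finite ∧ ∀ v : B.P, B.res v ∉ S → v.1.Ge z 0 := by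
  refine ⟨⋃ i ∈ (minpoly F z).support, {p | p ∈ B.Pl ∧ p.ord ((minpoly F z).coeff i) ≠ 0},
    (minpoly F z).support.finite_toSet.biUnion fun i _ => B.fin _, fun v hv =>
      ge_of_coeff v.1 hz fun i => ?_⟩
  by_cases hi : i ∈ (minpoly F z).support
  · refine .of_le (Eq.ge ?_)
    by_contra h
    exact hv (Set.mem_biUnion hi ⟨v.2, h⟩)
  · simp [Polynomial.notMem_support_iff.1 hi]

theorem fin_ord (B : Base k F Ω) {z : Ω} (hz : IsIntegral F z) :
    ∃ S : Set (QVal F), S.Finite ∧ ∀ v : B.P, v.1.ord z ≠ 0 → B.res v ∈ S := by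
  obtain ⟨S, h1, h2⟩ := fin_ge B hz
  obtain ⟨S', h3, h4⟩ := fin_ge B hz.inv
  refine ⟨S ∪ S', h1.union h3, fun v hv => ?_⟩
  by_contra h5
  have h0 : z ≠ 0 := fun h => hv (by simp [h])
  have h6 := (h2 v fun h => h5 (Or.inl h)).le h0
  have h7 := (h4 v fun h => h5 (Or.inr h)).le (inv_ne_zero h0)
  rw [QVal.ord_inv] at h7
  exact hv (by linarith)

variable [Algebra ℂ k] [Algebra k K] [IsScalarTower ℂ k K] [IsScalarTower k F K]
  {x g : ι → Kˣ} {B : Base k F Ω}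

theorem ord_k (v : B.P) (c : k) : v.1.ord (algebraMap K Ω (algebraMap k K c)) = 0 := by
  rw [IsScalarTower.algebraMap_apply k F K, ← IsScalarTower.algebraMap_apply F K Ω]
  exact B.triv _ v.2 c

/-- The restriction to `K` in multiplicative form. -/
noncomputable def vK (K : Type) [Field K] [Algebra K Ω] (V : QVal Ω) :
    Valuation K (WithZero (Multiplicative ℚ)) := toVal (V.comap (algebraMap K Ω))

theorem vK_triv (v : B.P) (c : ℂ) : vK K v.1 (algebraMap ℂ K c) ≤ 1 := by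
  rw [vK, toVal_le_one, IsScalarTower.algebraMap_apply ℂ k K]
  exact .of_le (ord_k v _).ge

theorem chart_ge (v : B.P) {i : ι} (hi : IsCtr x v.1 i) {r : K} (hr : r ∈ chart x i) :
    v.1.Ge (algebraMap K Ω r) 0 := by
  have h := Basic_le (vK K v.1) (vK_triv v) x i
    (fun l => (toVal_le_toVal (x i).ne_zero).2 (.of_le (hi l))) r hr
  rwa [vK, toVal_le_one, QVal.comap_ge] at h

theorem map_ne (u : Kˣ) : algebraMap K Ω u ≠ 0 := (map_ne_zero _).2 u.ne_zero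

theorem ord_g_le (hc : Cart x g) (v : B.P) {i j : ι} (hi : IsCtr x v.1 i) (hj : IsCtr x v.1 j) :
    v.1.ord (algebraMap K Ω (g j)) ≤ v.1.ord (algebraMap K Ω (g i)) := by
  obtain ⟨e, he⟩ := hc i j
  have h1 := chart_ge v hj he
  have h2 := div_ne_zero (map_ne (Ω := Ω) (g i)) (map_ne (g j))
  have h3 := div_ne_zero (map_ne (Ω := Ω) (x i)) (map_ne (x j))
  rw [map_mul, map_pow, map_div₀, map_div₀] at h1
  have h4 := h1.le (mul_ne_zero h2 (pow_ne_zero _ h3))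
  rw [v.1.ord_mul h2 (pow_ne_zero _ h3), QVal.ord_pow, v.1.ord_div (map_ne _) (map_ne _),
    v.1.ord_div (map_ne _) (map_ne _), le_antisymm (hi j) (hj i)] at h4
  linarith

variable [Finite ι] [Nonempty ι]

theorem LL_eq (hc : Cart x g) (v : B.P) {i : ι} (hi : IsCtr x v.1 i) :
    LL B x g v = -v.1.ord (algebraMap K Ω (g i)) :=
  congrArg Neg.neg (le_antisymm (ord_g_le hc v hi (isCtr_ctr x v.1))
    (ord_g_le hc v (isCtr_ctr x v.1) hi))

theorem geo_hL [FiniteDimensional F K] (hc : Cart x g) : B.IsDiv (KO K F Ω) (LL B x g) := by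
  refine ⟨?_, fun v w h => ?_, fun v => ⟨_, map_mem_KO ((g (ctr x v.1) : K)⁻¹),
    (map_ne_zero _).2 (inv_ne_zero (Units.ne_zero _)), by rw [map_inv₀, QVal.ord_inv]; rfl⟩⟩
  · choose S h1 h2 using fun i => fin_ord B
      ((IsIntegral.of_finite F (g i : K)).algebraMap (B := Ω))
    exact ⟨⋃ i, S i, Set.finite_iUnion h1, fun v hv =>
      Set.mem_iUnion.2 ⟨_, h2 _ v fun h => hv (neg_eq_zero.2 h)⟩⟩
  · have h1 : IsCtr x w.1 (ctr x v.1) := fun l => by
      rw [← h _ (map_mem_KO _), ← h _ (map_mem_KO _)]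
      exact isCtr_ctr x v.1 l
    rw [LL_eq hc w h1, ← h _ (map_mem_KO _)]
    rfl

variable [Infinite k] {ξ : Fin (s + 3) → K} {Θ : K} {ev : MvPolynomial (Fin (s + 1)) k →ₐ[k] F}

theorem Tw.map_ev (T : Tw (yy ξ) ev) (f : MvPolynomial (Fin (s + 1)) k) :
    algebraMap K Ω (MvPolynomial.aeval (fun l : Fin (s + 1) => yy ξ l.succ) f) =
      algebraMap F Ω (ev f) := by
  rw [← T.ev_eq, ← IsScalarTower.algebraMap_apply]

theorem Tw.ord_t (T : Tw (yy ξ) ev) (v : B.P) : v.1.ord (algebraMap K Ω (yy ξ 0)) = 0 := by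
  obtain ⟨c, hc⟩ := (T.hk _).2 (mem_adjoin_simple_self ℂ _)
  rw [← hc]
  exact KBG.ord_k v c

theorem Tw.ord_y_inf (T : Tw (yy ξ) ev) {v : (T.fr.base Ω).P}
    (hv : (T.fr.base Ω).res v = (T.fr.base Ω).inf) (l : Fin (s + 1)) :
    v.1.ord (algebraMap K Ω (yy ξ l.succ)) = -1 := by
  rw [← T.X, ← IsScalarTower.algebraMap_apply, T.fr.ord_inf hv (MvPolynomial.X_ne_zero l),
    MvPolynomial.totalDegree_X, Nat.cast_one]

theorem Tw.H_nonneg (T : Tw (yy ξ) ev) (v : (T.fr.base Ω).P) : 0 ≤ (T.fr.base Ω).H v := by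
  rcases T.fr.res_cases v with ⟨-, -, -, -, -, e⟩ | ⟨-, e⟩ <;> simp [e]

theorem Tw.ge_y (T : Tw (yy ξ) ev) (v : (T.fr.base Ω).P) (l : Fin (s + 2)) :
    v.1.Ge (algebraMap K Ω (yy ξ l)) (-(T.fr.base Ω).H v) := by
  refine Fin.cases ?_ (fun l => ?_) l
  · exact .of_le (by rw [T.ord_t v]; exact neg_nonpos.2 (T.H_nonneg v))
  · have h := T.fr.ge_poly v (f := MvPolynomial.X l) (μ := 1) (MvPolynomial.totalDegree_X l).le
    rwa [Nat.cast_one, one_mul, IsScalarTower.algebraMap_apply F K Ω, T.X] at h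

/-- Elements of `Bd y μ` are sections of `μ H`. -/
theorem Tw.ge_Bd (T : Tw (yy ξ) ev) (v : (T.fr.base Ω).P) {μ : ℕ} {r : K}
    (hr : r ∈ Bd (yy ξ) μ) : v.1.Ge (algebraMap K Ω r) (-(μ * (T.fr.base Ω).H v)) := by
  obtain ⟨c, h0, hc⟩ : ∃ c : K, c ≠ 0 ∧ v.1.ord (algebraMap K Ω c) = -(T.fr.base Ω).H v := by
    rcases T.fr.res_cases v with ⟨-, -, -, -, -, e⟩ | ⟨e', e⟩
    · exact ⟨1, one_ne_zero, by simp [e]⟩
    · have h1 := T.ord_y_inf e' 0
      refine ⟨yy ξ (Fin.succ 0), fun h => ?_, by rw [h1, e]⟩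
      rw [h] at h1
      simp at h1
  have h1 : vK K v.1 c = exp (-(-(T.fr.base Ω).H v)) := toVal_eq_exp.2 ⟨h0, hc⟩
  have h2 := val_le_of_Bd hr (vK K v.1) (vK_triv v) (c := c)
    (by rw [h1, neg_neg, ← exp_zero, exp_le_exp]; exact T.H_nonneg v) fun l => by
      rw [h1, vK, toVal_le_exp, QVal.comap_ge]
      exact T.ge_y v l
  rw [h1, ← exp_nsmul, smul_neg, vK, toVal_le_exp, QVal.comap_ge] at h2
  simpa using h2

/-- The hyperplane class in the chart of the centre. -/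
theorem Sop.H_sub (S : Sop x ξ Θ) (T : Tw (yy ξ) ev) (v : (T.fr.base Ω).P) {i : ι}
    (hi : IsCtr x v.1 i) : (T.fr.base Ω).H v =
      v.1.ord (algebraMap K Ω (ξ 0)) - v.1.ord (algebraMap K Ω (x i)) := by
  have n0 : ∀ l, algebraMap K Ω (ξ l) ≠ 0 := fun l => (map_ne_zero _).2 (S.ne l)
  have h1 := T.ge_Bd v (S.bd (x i) (Submodule.subset_span ⟨i, rfl⟩))
  rw [map_div₀, QVal.ge_div_iff (n0 0), QVal.ge_iff (map_ne _), Nat.cast_one, one_mul] at h1
  have h2 : ∀ l, v.1.ord (algebraMap K Ω (x i)) ≤ v.1.ord (algebraMap K Ω (ξ l)) := fun l => by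
    have h3 := chart_ge v hi (vv_div_mem (S.mem l) i)
    rwa [map_div₀, QVal.ge_div_iff (map_ne _), QVal.ge_iff (n0 l), zero_add] at h3
  refine le_antisymm ?_ (by linarith)
  rcases T.fr.res_cases v with ⟨-, -, -, -, -, e⟩ | ⟨e', e⟩
  · rw [e]
    linarith [h2 0]
  · have h3 := T.ord_y_inf e' 0
    rw [yy, map_div₀, v.1.ord_div (n0 _) (n0 0)] at h3
    rw [e]
    linarith [h2 (Fin.succ (Fin.succ 0))]

/-- Sections on `X` restrict to sections on the virtual curve. -/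
theorem Sop.sec (S : Sop x ξ Θ) (T : Tw (yy ξ) ev) {b : ℤ} {j : ℕ} {z : K} (hz : Sec x g b j z) :
    algebraMap K Ω (z / ξ 0 ^ j) ∈ (T.fr.base Ω).Γ (KO K F Ω)
      (j • (T.fr.base Ω).H + b • LL (T.fr.base Ω) x g) := by
  refine Base.mem_Γ.2 ⟨map_mem_KO _, fun v => ?_⟩
  have hi := isCtr_ctr x v.1
  have h1 := chart_ge v hi (hz _)
  have n0 : algebraMap K Ω (ξ 0) ≠ 0 := (map_ne_zero _).2 (S.ne 0)
  rw [map_div₀, map_mul, map_zpow₀, map_pow,
    QVal.ge_div_iff (mul_ne_zero (zpow_ne_zero _ (map_ne _)) (pow_ne_zero _ (map_ne _))),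
    v.1.ord_mul (zpow_ne_zero _ (map_ne _)) (pow_ne_zero _ (map_ne _)), QVal.ord_zpow,
    QVal.ord_pow] at h1
  rw [map_div₀, map_pow, QVal.ge_div_iff (pow_ne_zero _ n0), QVal.ord_pow]
  refine h1.mono (le_of_eq ?_)
  rw [Pi.add_apply, Pi.smul_apply, Pi.smul_apply, S.H_sub T v hi, LL, nsmul_eq_mul, zsmul_eq_mul]
  ring

theorem Sop.sec_nat (S : Sop x ξ Θ) (T : Tw (yy ξ) ev) {b j : ℕ} {z : K} (hz : Sec x g b j z) :
    algebraMap K Ω (z / ξ 0 ^ j) ∈ (T.fr.base Ω).Γ (KO K F Ω)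
      (j • (T.fr.base Ω).H + b • LL (T.fr.base Ω) x g) := by
  have h := S.sec (Ω := Ω) T hz
  rwa [natCast_zsmul] at h

theorem Sop.geo_nef (S : Sop x ξ Θ) (T : Tw (yy ξ) ev) (hn : Nef x g) (ρ : ℕ) :
    ∃ N : ℕ, 0 < N ∧ ∃ z ∈ (T.fr.base Ω).Γ (KO K F Ω)
      (N • (T.fr.base Ω).H + (N * ρ) • LL (T.fr.base Ω) x g), z ≠ 0 := by
  obtain ⟨N, h0, hN⟩ := hn ρ
  obtain ⟨i⟩ := ‹Nonempty ι›
  obtain ⟨z, hz, h1⟩ : ∃ z, Sec x g (N * ρ) N z ∧ z ≠ 0 := by
    by_contra h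
    push Not at h
    have h2 := (Submodule.span_le (p := ⊥)).2 (fun z hz => h z hz) (hN i)
    exact mul_ne_zero (zpow_ne_zero _ (g i).ne_zero) (pow_ne_zero _ (x i).ne_zero) h2
  exact ⟨N, h0, _, S.sec_nat T (by exact_mod_cast hz),
    (map_ne_zero _).2 (div_ne_zero h1 (pow_ne_zero _ (S.ne 0)))⟩

/-- The different has a pole of maximal order at infinity. -/
theorem Sop.ord_dl_inf (S : Sop x ξ Θ) (T : Tw (yy ξ) ev) {v : (T.fr.base Ω).P}
    (hv : (T.fr.base Ω).res v = (T.fr.base Ω).inf) :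
    v.1.ord (algebraMap K Ω (dl F (Θ / ξ 0))) = -((Module.finrank F K - 1 : ℕ) : ℚ) := by
  obtain ⟨t, ht⟩ := (T.hk _).2 (mem_adjoin_simple_self ℂ _)
  have h := S.val_dl T.hF ht (vK K v.1) (c := exp 1) (by rw [← exp_zero, exp_le_exp]; norm_num)
    fun p hp => by
      rw [← exp_nsmul, nsmul_one, ← neg_neg (p.totalDegree : ℚ), vK, toVal_eq_exp, QVal.comap_ord,
        T.map_ev, T.fr.ord_inf hv hp, ← T.ev_eq]
      exact ⟨(map_ne_zero _).2 (T.fr.ne hp), rfl⟩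
  rw [← exp_nsmul, nsmul_one, ← neg_neg ((Module.finrank F K - 1 : ℕ) : ℚ), vK, toVal_eq_exp] at h
  exact h.2

theorem Sop.ge_dl (S : Sop x ξ Θ) (T : Tw (yy ξ) ev) (v : (T.fr.base Ω).P) :
    v.1.Ge (algebraMap K Ω (dl F (Θ / ξ 0)))
      (-((Module.finrank F K - 1 : ℕ) * (T.fr.base Ω).H v)) := by
  have := S.fd
  have h := T.ge_Bd v (dl_Bd T.hF (S.bd Θ S.memT))
  rwa [one_mul, S.natDegree_eq T.hF] at h

/-- Traces of sections of `r H` are polynomials of degree at most `r`. -/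
theorem Tw.trace_poly [IsAlgClosure F Ω] [FiniteDimensional F K] [CharZero F] (T : Tw (yy ξ) ev)
    {r : ℕ} {φ : K} (hφ : algebraMap K Ω φ ∈ (T.fr.base Ω).Γ (KO K F Ω) (r • (T.fr.base Ω).H)) :
    ∃ q : MvPolynomial (Fin (s + 1)) k, q.totalDegree ≤ r ∧
      MvPolynomial.aeval (fun l => yy ξ l.succ) q = algebraMap F K (Algebra.trace F K φ) := by
  have : IsAlgClosed Ω := IsAlgClosure.isAlgClosed F
  have : Algebra.IsAlgebraic K Ω := Algebra.IsAlgebraic.tower_top (K := F) K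
  obtain ⟨q, h1, h2⟩ := T.fr.poly_of_ge (Ω := Ω) (x := Algebra.trace F K φ) (μ := r) fun v => by
    rw [trace_eq_sum_embeddings Ω]
    refine QVal.Ge.sum fun σ _ => ?_
    obtain ⟨τ, hτ⟩ := IsAlgClosed.surjective_domRestrict_of_isAlgebraic (K := F) (L := K)
      (M := Ω) (E := Ω) σ
    have e : (v.1.comap (τ : Ω →+* Ω)).comap (algebraMap F Ω) = v.1.comap (algebraMap F Ω) :=
      QVal.ext (funext fun c => by simp)
    let w : (T.fr.base Ω).P := ⟨v.1.comap (τ : Ω →+* Ω), e ▸ v.2⟩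
    have h3 := (Base.mem_Γ.1 hφ).2 w
    have h4 : (T.fr.base Ω).H w = (T.fr.base Ω).H v := by
      have h5 : (T.fr.base Ω).res w = (T.fr.base Ω).res v := e
      unfold Base.H Base.ov
      rw [h5]
    rw [Pi.smul_apply, h4, nsmul_eq_mul] at h3
    rw [← hτ]
    exact (QVal.comap_ge v.1 (τ : Ω →+* Ω) _ _).1 h3
  exact ⟨q, h1, by rw [h2, T.ev_eq]⟩

/-- The adjunction field for the data above. -/
theorem Sop.geo_adj' [FiniteDimensional F K] (S : Sop x ξ Θ) (T : Tw (yy ξ) ev)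
    (frac : ∀ i, IsFractionRing (chart x i) K) (norm : ∀ i, IsIntegrallyClosed (chart x i))
    {m : ℕ} (hm : 0 < m) {τ : Fin (s + 2) → K} (hτ : IsTranscendenceBasis ℂ τ)
    {D : Fin (s + 2) → Derivation ℂ K K} (hD : ∀ a b, D a (τ b) = if a = b then 1 else 0)
    {a b : ℕ} {σ : Kˣ}
    (eff : ∀ i w, PrimeDiv (chart x i) w → ¬ LD D m w (g i ^ a * x i ^ b / σ) (m + 1)) :
    ∃ z ∈ KO K F Ω, z ≠ 0 ∧ m • (T.fr.base Ω).Cod (KO K F Ω) ≤
      (m * (Fintype.card (Option (Fin (s + 1))) + 1) + b) • (T.fr.base Ω).H +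
        a • LL (T.fr.base Ω) x g + (T.fr.base Ω).dv z :=
  S.geo_adj T frac norm hm hτ hD eff (fun _ => mem_KO)
    (fun p hp => by
      obtain ⟨P, h1, rfl⟩ : p ∈ toQ '' Pl ev := hp
      exact ⟨P, h1, fun _ => rfl⟩) ⟨_, T.fr.isInf, fun _ => rfl⟩
    (fun v => ⟨_, isCtr_ctr x v.1, rfl⟩) (by simp)

end Pool.Agent.Lib.MP_bc213e_ag.KBG
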