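import Pool.Agent.Lib.MP_bc213e_ag.KBG.PNum

/-! Asymptotic bookkeeping for the case of large numerical dimension. -/

namespace Pool.Agent.Lib.MP_bc213e_ag.KBG

open Filter Topology Polynomial

theorem num_diff {h : ℕ → ℕ → ℕ} {P : MvPolynomial (Fin 2) ℚ} {a₀ s : ℕ}
    (hP : ∀ t a : ℕ, a₀ ≤ a → (h t a : ℚ) = MvPolynomial.eval ![(t : ℚ), (a : ℚ)] P)
    (tot : ∃ C : ℕ, ∀ t a : ℕ, h t a ≤ C * (t + a + 1) ^ (s + 2)) :
    ∃ (p : ℕ → ℕ → ℝ) (β : ℝ),
      (∀ t a : ℕ, p t a = (MvPolynomial.eval ![(t : ℚ), (a : ℚ)] P : ℚ)) ∧ ∀ a : ℕ,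
        Tendsto (fun t : ℕ => (p t (a + 1 + 1) - p t (a + 1) - (p t (a + 1) - p t a)) /
          ((t : ℝ) + 1) ^ s) atTop (𝓝 β) := by
  obtain ⟨R, hR⟩ := pNum_ex P
  have h1 : ∀ t a : ℕ, a₀ ≤ a → (R.map (evalRingHom (a : ℝ))).eval (t : ℝ) = h t a :=
    fun t a ha => by
      have := hR t a
      rw [← hP t a ha] at this
      exact_mod_cast this
  have h4 : ∀ i r, s + 2 < i + r → (R.coeff i).coeff r = 0 := fun i r hr => by
    obtain ⟨c, hc⟩ := tot
    have e1 : ∑ n ∈ Finset.range (R.natDegree + 1),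
        C (if n ≤ i + r then (R.coeff n).coeff (i + r - n) else 0) * X ^ n = 0 :=
      pNum_zero (a₀ := 0) fun l _ => by
        have e2 : (R.eval (C (l : ℝ) * X)).natDegree ≤ s + 2 :=
          pNum_le (c := c * ((l : ℝ) + 1) ^ (s + 2)) ((eventually_ge_atTop a₀).mono fun a ha => by
            have e3 : (R.eval (C (l : ℝ) * X)).eval (a : ℝ) = h (l * a) a := by
              rw [← h1 _ _ ha, eval_map, ← coe_evalRingHom (a : ℝ), ← eval₂_hom]
              simp
            rw [e3, Nat.abs_cast, mul_assoc, ← mul_pow]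
            have e4 : (h (l * a) a : ℝ) ≤ c * ((l * a + a + 1 : ℕ) : ℝ) ^ (s + 2) := by
              exact_mod_cast hc (l * a) a
            refine e4.trans ?_
            gcongr
            push_cast
            nlinarith [Nat.cast_nonneg (α := ℝ) l])
        have e5 := natDegree_le_iff_coeff_eq_zero.1 e2 (i + r) hr
        rw [eval_eq_sum_range, finsetSum_coeff] at e5
        rw [eval_finsetSum]
        refine Eq.trans (Finset.sum_congr rfl fun n _ => ?_) e5
        rw [mul_pow, ← mul_assoc, coeff_mul_X_pow', ← C_pow, coeff_mul_C]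
        split_ifs <;> simp
    by_cases hi : i < R.natDegree + 1
    · have e7 := congrArg (fun q => coeff q i) e1
      simp only [finsetSum_coeff, coeff_C_mul_X_pow, coeff_zero] at e7
      rw [Finset.sum_ite_eq, if_pos (Finset.mem_range.2 hi), if_pos (Nat.le_add_right i r),
        Nat.add_sub_cancel_left] at e7
      exact e7
    · rw [coeff_eq_zero_of_natDegree_lt (p := R) (by omega), coeff_zero]
  refine ⟨fun t a => (R.map (evalRingHom (a : ℝ))).eval (t : ℝ), 2 * (R.coeff s).coeff 2,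
    fun t a => by exact_mod_cast hR t a, fun a => ?_⟩
  let W : ℝ[X] := R.map (evalRingHom ((a + 1 + 1 : ℕ) : ℝ)) - R.map (evalRingHom ((a + 1 : ℕ) : ℝ)) -
    (R.map (evalRingHom ((a + 1 : ℕ) : ℝ)) - R.map (evalRingHom (a : ℝ)))
  have h5 : ∀ i, s ≤ i → W.coeff i = 2 * (R.coeff i).coeff 2 := fun i hi => by
    have e : (R.coeff i).natDegree < 3 :=
      Nat.lt_succ_of_le (natDegree_le_iff_coeff_eq_zero.2 fun r hr => h4 i r (by omega))
    simp only [W, coeff_sub, coeff_map, coe_evalRingHom, eval_eq_sum_range' e,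
      Finset.sum_range_succ, Finset.sum_range_zero]
    push_cast
    ring
  have h6 := pNum_lim (r := W) (d := s) (natDegree_le_iff_coeff_eq_zero.2 fun i hi => by
    rw [h5 i hi.le, h4 i 2 (by omega), mul_zero])
  rw [h5 s le_rfl] at h6
  simpa only [W, eval_sub] using h6

/-- `f t ≤ (x + o (1)) (t + 1) ^ s`. -/
def Ub (s : ℕ) (f : ℕ → ℝ) (x : ℝ) : Prop :=
  ∀ η : ℝ, 0 < η → ∀ᶠ t : ℕ in atTop, f t / ((t : ℝ) + 1) ^ s ≤ x + η

variable {s : ℕ} {f g : ℕ → ℝ} {x y : ℝ}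

theorem Ub.add (hf : Ub s f x) (hg : Ub s g y) : Ub s (fun t => f t + g t) (x + y) :=
  fun η hη => ((hf (η / 2) (half_pos hη)).and (hg (η / 2) (half_pos hη))).mono fun t ht => by
    rw [add_div]
    linarith [ht.1, ht.2]

theorem Ub.mono (hg : Ub s g y) (h : ∀ᶠ t in atTop, f t ≤ g t) (hxy : y ≤ x) : Ub s f x :=
  fun η hη => ((hg η hη).and h).mono fun t ht =>
    (div_le_div_of_nonneg_right ht.2 (by positivity)).trans (ht.1.trans (by linarith))

theorem Ub.of_tendsto (h : Tendsto (fun t : ℕ => f t / ((t : ℝ) + 1) ^ s) atTop (𝓝 x)) :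
    Ub s f x :=
  fun _ hη => (h.eventually (gt_mem_nhds (lt_add_of_pos_right x hη))).mono fun _ ht => ht.le

theorem Ub.half (hg : Ub s g y) (h : ∀ t, 2 * f t ≤ g t) : Ub s f (y / 2) :=
  fun η hη => (hg η hη).mono fun t ht => by
    have := div_le_div_of_nonneg_right (h t) (by positivity : 0 ≤ ((t : ℝ) + 1) ^ s)
    rw [mul_div_assoc] at this
    linarith

theorem Ub.sum {n : ℕ} {F : ℕ → ℕ → ℝ} (h : ∀ j, Ub s (F j) 0) :
    Ub s (fun t => ∑ j ∈ Finset.range n, F j t) 0 := by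
  induction n with
  | zero => exact fun η hη => Eventually.of_forall fun t => by simpa using hη.le
  | succ n ih => simpa only [Finset.sum_range_succ, add_zero] using ih.add (h n)

theorem Ub.bound (hf : Ub s f x) : ∃ C : ℕ, ∀ t : ℕ, f t ≤ C * ((t : ℝ) + 1) ^ s := by
  obtain ⟨T, hT⟩ := eventually_atTop.1 (hf 1 one_pos)
  obtain ⟨C, hC⟩ := exists_nat_ge (|x + 1| + ∑ t ∈ Finset.range T, |f t / ((t : ℝ) + 1) ^ s|)
  refine ⟨C, fun t => (div_le_iff₀ (by positivity)).1 (le_trans ?_ hC)⟩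
  have h0 : 0 ≤ ∑ t ∈ Finset.range T, |f t / ((t : ℝ) + 1) ^ s| :=
    Finset.sum_nonneg fun _ _ => abs_nonneg _
  rcases le_or_gt T t with h | h
  · linarith [hT t h, le_abs_self (x + 1)]
  · have := Finset.single_le_sum (f := fun t : ℕ => |f t / ((t : ℝ) + 1) ^ s|)
      (fun _ _ => abs_nonneg _) (Finset.mem_range.2 h)
    linarith [le_abs_self (f t / ((t : ℝ) + 1) ^ s), abs_nonneg (x + 1)]

theorem ratio_tendsto (s c : ℕ) : Tendsto
    (fun t : ℕ => (((t - c : ℕ) : ℝ) + 1) ^ s / ((t : ℝ) + 1) ^ s) atTop (𝓝 1) := by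
  have h1 : Tendsto (fun t : ℕ => 1 - (c : ℝ) * (1 / ((t : ℝ) + 1))) atTop (𝓝 (1 - c * 0)) :=
    tendsto_const_nhds.sub (tendsto_one_div_add_atTop_nhds_zero_nat.const_mul _)
  have h2 := h1.pow s
  rw [mul_zero, sub_zero, one_pow] at h2
  refine h2.congr' ((eventually_ge_atTop c).mono fun t ht => ?_)
  beta_reduce
  rw [← div_pow, Nat.cast_sub ht]
  congr 1
  field_simp
  ring

theorem tendsto_shift (h : Tendsto (fun t : ℕ => f t / ((t : ℝ) + 1) ^ s) atTop (𝓝 x)) (c : ℕ) :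
    Tendsto (fun t : ℕ => f (t - c) / ((t : ℝ) + 1) ^ s) atTop (𝓝 x) := by
  have h1 := (h.comp (tendsto_sub_atTop_nat c)).mul (ratio_tendsto s c)
  rw [mul_one] at h1
  refine h1.congr fun t => ?_
  rw [Function.comp_apply, div_mul_div_cancel₀ (by positivity)]

theorem Ub.shift (hf : Ub s f x) (hx : 0 ≤ x) (c : ℕ) : Ub s (fun t => f (t - c)) x :=
  fun η hη => ((tendsto_sub_atTop_nat c).eventually (hf η hη)).mono fun t ht => by
    rw [div_le_iff₀ (by positivity)] at ht ⊢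
    refine ht.trans (mul_le_mul_of_nonneg_left ?_ (by linarith))
    gcongr
    exact Nat.sub_le t c

section

variable {Q D : ℕ → ℕ → ℝ} {β : ℝ} {a₁ E : ℕ}

theorem step_tendsto (hQ : ∀ j, Tendsto (fun t : ℕ => (Q t (j + 1) - Q t j) / ((t : ℝ) + 1) ^ s)
    atTop (𝓝 β)) (j r : ℕ) :
    Tendsto (fun t : ℕ => (Q t (j + r) - Q t j) / ((t : ℝ) + 1) ^ s) atTop (𝓝 (β * r)) := by
  induction r with
  | zero => simp
  | succ r ih =>
    have := (hQ (j + r)).add ih
    rw [Nat.cast_succ, mul_add_one, add_comm _ β]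
    refine this.congr fun t => ?_
    rw [← add_div, sub_add_sub_cancel, add_assoc]

/-- The defect becomes small for large twists. -/
theorem ub_large (hQ : ∀ j, Tendsto (fun t : ℕ => (Q t (j + 1) - Q t j) / ((t : ℝ) + 1) ^ s)
    atTop (𝓝 β)) (h2 : ∀ t j, a₁ ≤ j → D t j ≤ Q t (j + E))
    (h3 : ∀ t j, a₁ ≤ j → 2 * D t (j + E) ≤ D t j + Q t (j + E + E)) (i j : ℕ)
    (hj : a₁ + i * E ≤ j) : Ub s (fun t => D t j - Q t j) (|β * E| / 2 ^ i) := by
  induction i generalizing j with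
  | zero =>
    refine (Ub.of_tendsto (step_tendsto hQ j E)).mono (Eventually.of_forall fun t => ?_) ?_
    · linarith [h2 t j (by omega)]
    · simpa only [pow_zero, div_one] using le_abs_self _
  | succ i ih =>
    rw [add_one_mul] at hj
    obtain ⟨j, rfl⟩ : ∃ j', j = j' + E := ⟨j - E, by omega⟩
    have h4 := (step_tendsto hQ (j + E) E).sub (step_tendsto hQ j E)
    rw [sub_self] at h4
    have h5 := (ih j (by omega)).add (Ub.of_tendsto (f := fun t =>
      Q t (j + E + E) - Q t (j + E) - (Q t (j + E) - Q t j)) (h4.congr fun t => by rw [← sub_div]))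
    rw [pow_succ, ← div_div, ← add_zero (|β * E| / 2 ^ i)]
    exact h5.half fun t => by linarith [h3 t j (by omega)]

/-- If `L` is big on the pencil member then the defect is small for all twists. -/
theorem ub_all (hQ : ∀ j, Tendsto
    (fun t : ℕ => (Q t (j + 1) - Q t j) / ((t : ℝ) + 1) ^ s) atTop (𝓝 β))
    (h1 : ∀ t j, a₁ ≤ j → Q t j ≤ D t j) (h2 : ∀ t j, a₁ ≤ j → D t j ≤ Q t (j + E))
    (h3 : ∀ t j, a₁ ≤ j → 2 * D t (j + E) ≤ D t j + Q t (j + E + E)) {t₀ : ℕ}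
    (h4 : ∀ t j r, r * t₀ ≤ t →
      D t j + D (t - r * t₀) (j + r + r) ≤ D (t - r * t₀) (j + r) + D t (j + r)) (j : ℕ) :
    Ub s (fun t => D t j - Q t j) 0 := by
  intro η hη
  obtain ⟨i, hi⟩ : ∃ i : ℕ, |β * E| / 2 ^ i + |β * E| / 2 ^ i + 0 ≤ η / 2 := by
    obtain ⟨i, hi⟩ := pow_unbounded_of_one_lt (4 * |β * E| / η) (one_lt_two : (1 : ℝ) < 2)
    refine ⟨i, ?_⟩
    rw [div_lt_iff₀ hη] at hi
    rw [add_zero, ← add_div, div_le_iff₀ (by positivity)]
    linarith
  obtain ⟨r, hr⟩ : ∃ r, r = a₁ + i * E := ⟨_, rfl⟩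
  have h5 := ub_large hQ h2 h3 i (j + r) (by omega)
  have h6 := (step_tendsto hQ j r).sub (tendsto_shift (step_tendsto hQ (j + r) r) (r * t₀))
  rw [sub_self] at h6
  have h7 := (h5.add (h5.shift (by positivity) (r * t₀))).add (Ub.of_tendsto (f := fun t =>
    Q t (j + r) - Q t j - (Q (t - r * t₀) (j + r + r) - Q (t - r * t₀) (j + r)))
      (h6.congr fun t => by rw [← sub_div]))
  have h8 : Ub s (fun t => D t j - Q t j) (η / 2) :=
    h7.mono ((eventually_ge_atTop (r * t₀)).mono fun t ht => by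
      linarith [h4 t j r ht, h1 (t - r * t₀) (j + r + r) (by omega)]) hi
  simpa only [add_halves, zero_add] using h8 (η / 2) (half_pos hη)

end

end Pool.Agent.Lib.MP_bc213e_ag.KBG
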