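import Pool.Agent.Lib.MP_bc213e_ag.KBG.G3
import Pool.Agent.Lib.MP_bc213e_ag.KBG.NoNuA

/-! If `t L` has few sections while its Euler characteristic grows, then the numerical dimension is
at most `n - 2`. -/

namespace Pool.Agent.Lib.MP_bc213e_ag.KBG

open Hyp KBB Module Filter Topology

variable {K ι : Type} [Field K] [Algebra ℂ K] {k : Type} [Field k] [Algebra ℂ k] [Algebra k K]
  [IsScalarTower ℂ k K] {x g : ι → Kˣ} {p : Pen k x g}

omit [Algebra ℂ k] [IsScalarTower ℂ k K] in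
theorem cop_rank {S₀ S₁ S₂ T : Submodule k K} [FiniteDimensional k T] [FiniteDimensional k S₀]
    {α β : K} (hα : α ≠ 0) (hβ : β ≠ 0) (h1 : ∀ z ∈ S₁, β * z ∈ T) (h2 : ∀ z ∈ S₂, α * z ∈ T)
    (h0 : ∀ z, α * z ∈ S₁ → β * z ∈ S₂ → z ∈ S₀) :
    finrank k S₁ + finrank k S₂ ≤ finrank k S₀ + finrank k T := by
  have e1 := (Submodule.equivMapOfInjective (LinearMap.mulLeft k β)
    (mul_right_injective₀ hβ) S₁).finrank_eq
  have e2 := (Submodule.equivMapOfInjective (LinearMap.mulLeft k α)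
    (mul_right_injective₀ hα) S₂).finrank_eq
  have l1 : S₁.map (LinearMap.mulLeft k β) ≤ T := Submodule.map_le_iff_le_comap.2 h1
  have l2 : S₂.map (LinearMap.mulLeft k α) ≤ T := Submodule.map_le_iff_le_comap.2 h2
  have := Submodule.finiteDimensional_of_le l1
  have := Submodule.finiteDimensional_of_le l2
  have e3 := Submodule.finrank_sup_add_finrank_inf_eq (S₁.map (LinearMap.mulLeft k β))
    (S₂.map (LinearMap.mulLeft k α))
  have e4 := Submodule.finrank_mono (sup_le l1 l2)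
  have e5 := (fd_mul (S := S₁.map (LinearMap.mulLeft k β) ⊓ S₂.map (LinearMap.mulLeft k α))
    (S' := S₀) (inv_ne_zero (mul_ne_zero hα hβ)) fun z hz => by
      obtain ⟨⟨z₁, h₁, e₁⟩, z₂, h₂, e₂⟩ := hz
      rw [LinearMap.mulLeft_apply] at e₁ e₂
      refine h0 _ ?_ ?_
      · have : α * ((α * β)⁻¹ * z) = z₁ := by
          rw [← e₁]
          field_simp
        exact this ▸ h₁
      · have : β * ((α * β)⁻¹ * z) = z₂ := by
          rw [← e₂]
          field_simp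
        exact this ▸ h₂).2
  omega

omit [IsScalarTower ℂ k K] in
theorem Pen.Gm.pow_mem (G : p.Gm) {a a' : ℤ} {ε : K} (h : ε ∈ G.Γ a a') (c : ℕ) :
    ε ^ c ∈ G.Γ (c * a) (c * a') := by
  induction c with
  | zero => simpa using G.M_le 0 0 (p.one_mem 0)
  | succ c ih =>
    have := G.mul ih h
    rwa [← pow_succ, ← add_one_mul, ← add_one_mul, ← Nat.cast_add_one] at this

omit [IsScalarTower ℂ k K] in
theorem Pen.pow_mem_M (p : Pen k x g) {y : K} (h : y ∈ p.M 0 1) (c : ℕ) : y ^ c ∈ p.M 0 c := by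
  induction c with
  | zero => simpa using p.one_mem 0
  | succ c ih =>
    have := p.M_mul ih h
    rwa [← pow_succ, add_zero] at this

omit [IsScalarTower ℂ k K] in
theorem Pen.Gm.cast (G : p.Gm) {b j b' j' : ℤ} {z : K} (h : z ∈ G.Γ b j) (hb : b = b')
    (hj : j = j') : z ∈ G.Γ b' j' := hb ▸ hj ▸ h

theorem Pen.Gm.nu_of_small [Fintype ι] [Nonempty ι] (G : p.Gm) (hc : Cart x g) (hn : Nef x g)
    {y : K} (y0 : y ≠ 0) (hy : y ∈ p.M 0 1)
    (cop₁ : ∀ (b j : ℤ) (a N : ℕ) (z : K), G.u * y ^ a * z ∈ G.Γ b (j + (G.e + a : ℕ)) →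
      z ∈ G.Γ b (j + N) → z ∈ G.Γ b j)
    (cop₂ : ∀ (a a' : ℤ) (ε : K), ε ≠ 0 → ε ∈ G.Γ a a' → ∃ w : K, w ≠ 0 ∧ w ∈ G.Γ 0 1 ∧
      ∀ (c r : ℕ) (b j : ℤ) (z : K), ε ^ c * z ∈ G.Γ (b + c * a) (j + c * a') →
        w ^ r * z ∈ G.Γ b (j + r) → z ∈ G.Γ b j)
    {P : MvPolynomial (Fin 2) ℚ} {a₀ s : ℕ}
    (hP : ∀ t a : ℕ, a₀ ≤ a → FiniteDimensional ℂ (SecS x g t a) ∧
      (finrank ℂ (SecS x g t a) : ℚ) = MvPolynomial.eval ![(t : ℚ), (a : ℚ)] P)
    (tot : ∃ C : ℕ, ∀ t a : ℕ, finrank ℂ (SecS x g t a) ≤ C * (t + a + 1) ^ (s + 2))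
    {c : ℚ} (hc0 : 0 < c)
    (chi : ∀ᶠ t : ℕ in atTop, c * (t : ℚ) ^ s ≤ MvPolynomial.eval ![(t : ℚ), 0] P)
    (small : ¬ ∃ δ : ℚ, 0 < δ ∧ ∃ᶠ t : ℕ in atTop, δ * (t : ℚ) ^ s ≤ finrank ℂ (SecS x g t 0)) :
    ∀ a : ℕ, ∃ C : ℕ, ∀ t : ℕ, finrank ℂ (SecS x g t a) ≤ C * (t + 1) ^ s := by
  have fd := fd_sec fun t a ha => (hP t a ha).1
  have hm : ∀ b j : ℕ, finrank k (p.M b (j + 1)) + finrank ℂ (SecS x g b j) =
      finrank ℂ (SecS x g b (j + 1)) := fun b j => have := fd b (j + 1); p.dim_M b j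
  have fdM : ∀ b j : ℕ, FiniteDimensional k (p.M b j) := fun b j => have := fd b j; p.fd_M b j
  obtain ⟨a₁, e₂, kills⟩ := G.kills hc hn
  have fdG : ∀ (b : ℕ) (j : ℤ), FiniteDimensional k (G.Γ b j) := fun b j => by
    have := fdM b (a₁ + j.toNat + e₂)
    exact Submodule.finiteDimensional_of_le (S₂ := p.M b (a₁ + j.toNat + e₂)) fun z hz =>
      (kills b _ (Nat.le_add_right _ _) z (G.mono b (by omega) hz)).2
  obtain ⟨q, β, hq, hβ⟩ := num_diff (h := fun t a => finrank ℂ (SecS x g t a))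
    (fun t a ha => (hP t a ha).2) tot
  have hh : ∀ t a : ℕ, a₀ ≤ a → (finrank ℂ (SecS x g t a) : ℝ) = q t a := fun t a ha => by
    rw [hq, ← (hP t a ha).2, Rat.cast_natCast]
  obtain ⟨Q, hQ⟩ : ∃ Q : ℕ → ℕ → ℝ, ∀ t j, Q t j = q t (j + 1) - q t j := ⟨_, fun _ _ => rfl⟩
  obtain ⟨D, hD⟩ : ∃ D : ℕ → ℕ → ℝ, ∀ t j : ℕ, D t j = finrank k (G.Γ t (j + 1 : ℕ)) :=
    ⟨_, fun _ _ => rfl⟩
  simp only [← hQ] at hβ
  have hmQ : ∀ t j : ℕ, a₀ ≤ j → (finrank k (p.M t (j + 1)) : ℝ) = Q t j := fun t j hj => by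
    rw [hQ, ← hh t j hj, ← hh t (j + 1) (by omega), ← hm t j, Nat.cast_add, add_sub_cancel_right]
  have hmD : ∀ t j : ℕ, (finrank k (p.M t (j + 1)) : ℝ) ≤ D t j := fun t j => by
    have := fdG t (j + 1 : ℕ)
    rw [hD]
    exact_mod_cast Submodule.finrank_mono (G.M_le t (j + 1))
  have h1 : ∀ t j, a₀ + a₁ ≤ j → Q t j ≤ D t j := fun t j hj => hmQ t j (by omega) ▸ hmD t j
  have h2 : ∀ t j, a₀ + a₁ ≤ j → D t j ≤ Q t (j + (G.e + e₂)) := fun t j hj => by
    have := fdM t (j + (G.e + e₂) + 1)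
    rw [hD, ← hmQ t _ (by omega)]
    exact_mod_cast Submodule.finrank_mono fun z hz =>
      p.M_mono t (by omega) (kills t (j + 1) (by omega) z hz).2
  have h3 : ∀ t j, a₀ + a₁ ≤ j → 2 * D t (j + (G.e + e₂)) ≤
      D t j + Q t (j + (G.e + e₂) + (G.e + e₂)) := fun t j hj => by
    have := fdM t (j + (G.e + e₂) + (G.e + e₂) + 1)
    have := fdG t (j + 1 : ℕ)
    rw [hD, hD, ← hmQ t _ (by omega), two_mul]
    refine mod_cast cop_rank (mul_ne_zero G.u_ne (pow_ne_zero e₂ y0)) one_ne_zero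
      (fun z hz => ?_) (fun z hz => ?_) fun z hz hz' => ?_
    · rw [one_mul]
      exact p.M_mono t (by omega) (kills t _ (by omega) z hz).2
    · have := p.M_mul (kills t _ (by omega) z hz).1 (p.pow_mem_M hy e₂)
      rw [add_zero, mul_right_comm] at this
      exact p.M_mono t (by omega) this
    · rw [one_mul] at hz'
      exact cop₁ _ _ e₂ (G.e + e₂) z (G.cast hz rfl (by push_cast; ring))
        (G.cast hz' rfl (by push_cast; ring))
  have h0 := Ub.of_tendsto (num_small small)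
  by_cases big : ∃ (t₀ : ℕ) (ε : K), ε ≠ 0 ∧ ε ∈ G.Γ t₀ (-1)
  · exfalso
    obtain ⟨t₀, ε, ε0, hε⟩ := big
    obtain ⟨w, w0, hw, cop⟩ := cop₂ _ _ ε ε0 hε
    have h4 := ub_all hβ h1 h2 h3 (t₀ := t₀) fun t j r ht => by
      have := fdG t (j + r + 1 : ℕ)
      have := fdG (t - r * t₀) (j + r + 1 : ℕ)
      have e : ((t - r * t₀ : ℕ) : ℤ) + r * t₀ = t := by
        rw [Nat.cast_sub ht]
        push_cast
        ring
      rw [hD, hD, hD, hD]
      refine mod_cast cop_rank (pow_ne_zero r ε0) (pow_ne_zero r w0)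
        (fun z hz => ?_) (fun z hz => ?_) fun z hz hz' => ?_
      · exact G.cast (G.mul (G.pow_mem hw r) hz) (by ring) (by push_cast; ring)
      · exact G.cast (G.mul (G.pow_mem hε r) hz) (by rw [add_comm, e]) (by push_cast; ring)
      · exact cop r r _ _ z (G.cast hz e.symm (by push_cast; ring))
          (G.cast hz' rfl (by push_cast; ring))
    have h5 : ∀ t J : ℕ, (finrank ℂ (SecS x g t J) : ℝ) - q t J + q t 0 ≤
        finrank ℂ (SecS x g t 0) + ∑ j ∈ Finset.range J, (D t j - Q t j) := fun t J => by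
      induction J with
      | zero => simp
      | succ J ih =>
        rw [Finset.sum_range_succ, ← hm t J, Nat.cast_add, hQ t J]
        linarith [hmD t J]
    have h6 : Ub s (fun t => (c : ℝ) * (t : ℝ) ^ s) 0 :=
      (h0.add (Ub.sum (n := a₀) h4)).mono (chi.mono fun t ht => by
        have e1 := h5 t a₀
        have e2 := hq t 0
        rw [hh t a₀ le_rfl, sub_self, zero_add] at e1
        rw [Nat.cast_zero] at e2
        refine le_trans ?_ e1
        rw [e2]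
        exact_mod_cast ht) (add_zero _).le
    have h7 := pNum_lim (Polynomial.natDegree_C_mul_X_pow_le (c : ℝ) s)
    rw [Polynomial.coeff_C_mul_X_pow, if_pos rfl] at h7
    have hc1 : (0 : ℝ) < c := by exact_mod_cast hc0
    have h8 := le_of_tendsto h7 ((h6 (c / 2) (half_pos hc1)).mono fun t ht => by simpa using ht)
    linarith
  · obtain ⟨w, w0, hw, cop⟩ := cop₂ 0 1 1 one_ne_zero (G.M_le 0 1 (p.one_mem 1))
    have h4 : ∀ j : ℕ, ∃ z, Ub s (fun t => finrank k (G.Γ t ((j : ℤ) - 1))) z := fun j => by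
      induction j with
      | zero =>
        refine ⟨0, h0.mono (Eventually.of_forall fun t => ?_) le_rfl⟩
        have : G.Γ t (((0 : ℕ) : ℤ) - 1) = ⊥ := (Submodule.eq_bot_iff _).2 fun z hz =>
          by_contra fun h => big ⟨t, z, h, G.cast hz rfl (by simp)⟩
        rw [this, finrank_bot]
        exact_mod_cast Nat.zero_le _
      | succ j ih =>
        obtain ⟨z, hz⟩ := ih
        refine ⟨_, (hz.add (Ub.of_tendsto (step_tendsto hβ (j + (a₀ + a₁))
          (1 + (G.e + e₂))))).mono (Eventually.of_forall fun t => ?_) le_rfl⟩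
        have := fdG t (j + (a₀ + a₁) + 1 + 1 : ℕ)
        have := fdG t ((j : ℤ) - 1)
        have e1 : (finrank k (G.Γ t (((j + 1 : ℕ) : ℤ) - 1)) : ℝ) + D t (j + (a₀ + a₁)) ≤
            finrank k (G.Γ t ((j : ℤ) - 1)) + D t (j + (a₀ + a₁) + 1) := by
          rw [hD, hD]
          refine mod_cast cop_rank (pow_ne_zero 1 one_ne_zero) (pow_ne_zero (a₀ + a₁ + 2) w0)
            (fun z hz => ?_) (fun z hz => ?_) fun z hz hz' => ?_
          · exact G.cast (G.mul (G.pow_mem hw _) hz) (by ring) (by push_cast; ring)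
          · rw [one_pow, one_mul]
            exact G.mono t (by omega) hz
          · exact cop 1 (a₀ + a₁ + 2) _ _ z (G.cast hz (by ring) (by push_cast; ring))
              (G.cast hz' rfl (by push_cast; ring))
        have e2 := h2 t (j + (a₀ + a₁) + 1) (by omega)
        rw [add_assoc _ 1] at e2
        linarith [h1 t (j + (a₀ + a₁)) (by omega)]
    have h5 : ∀ a : ℕ, ∃ z, Ub s (fun t => finrank ℂ (SecS x g t a)) z := fun a => by
      induction a with
      | zero => exact ⟨0, h0⟩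
      | succ a ih =>
        obtain ⟨z, hz⟩ := ih
        obtain ⟨z', hz'⟩ := h4 (a + 2)
        refine ⟨_, (hz'.add hz).mono (Eventually.of_forall fun t => ?_) le_rfl⟩
        have e1 := hmD t a
        rw [hD, show ((a + 1 : ℕ) : ℤ) = ((a + 2 : ℕ) : ℤ) - 1 by push_cast; ring] at e1
        rw [← hm t a, Nat.cast_add]
        linarith
    intro a
    obtain ⟨z, hz⟩ := h5 a
    obtain ⟨C, hC⟩ := hz.bound
    exact ⟨C, fun t => by exact_mod_cast hC t⟩

end Pool.Agent.Lib.MP_bc213e_ag.KBG
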