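import Pool.Agent.Lib.MP_bc213e_ag.KBG.G3V
import Pool.Agent.Lib.MP_bc213e_ag.KBG.NoNuB

/-! The bound for the numerical dimension follows from the failure of the conclusion. -/

set_option linter.unusedSectionVars false

namespace Pool.Agent.Lib.MP_bc213e_ag.KBG

open Hyp KBB KBV IntermediateField Module Filter

section

variable {k F Ω : Type} [Field k] [Field F] [Field Ω] [Algebra k F] [Algebra F Ω] [Algebra k Ω]
  [IsScalarTower k F Ω] {B : Base k F Ω} {K' : IntermediateField F Ω}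

/-- Sections with disjoint divisors are coprime. -/
theorem cop_val {α β z : Ω} (hα : α ∈ K') (α0 : α ≠ 0) (β0 : β ≠ 0) {A A' D : B.Dv}
    (h : ∀ v : B.P, v.1.ord α + A v ≤ 0 ∨ v.1.ord β + A' v ≤ 0) (h1 : α * z ∈ B.Γ K' (D + A))
    (h2 : β * z ∈ B.Γ K' (D + A')) : z ∈ B.Γ K' D := by
  rw [mul_comm] at h1 h2
  refine Base.mem_Γ.2 ⟨by simpa [α0] using mul_mem h1.1 (inv_mem hα), fun v => ?_⟩
  rcases h v with h | h
  · refine ((QVal.ge_mul_iff α0).1 ((Base.mem_Γ.1 h1).2 v)).mono ?_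
    rw [Pi.add_apply]
    linarith
  · refine ((QVal.ge_mul_iff β0).1 ((Base.mem_Γ.1 h2).2 v)).mono ?_
    rw [Pi.add_apply]
    linarith

variable [IsAlgClosure F Ω] [CharZero k] [CharZero F] [CharZero Ω]

theorem cop_inf {α z : Ω} (hα : α ∈ K') (α0 : α ≠ 0) {n : ℕ}
    (h : ∀ v : B.P, B.res v = B.inf → v.1.ord α = -n) {L : B.Dv} {b j : ℤ} {N : ℕ}
    (h1 : α * z ∈ B.Γ K' ((j + n) • B.H + b • L)) (h2 : z ∈ B.Γ K' ((j + N) • B.H + b • L)) :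
    z ∈ B.Γ K' (j • B.H + b • L) := by
  rw [add_zsmul, add_right_comm] at h1 h2
  rw [← one_mul z] at h2
  refine cop_val hα α0 one_ne_zero (fun v => ?_) h1 h2
  by_cases hv : B.res v = B.inf
  · refine Or.inl ?_
    rw [Pi.smul_apply, Base.H, Base.ov_of_eq hv, h v hv]
    simp
  · refine Or.inr ?_
    rw [Pi.smul_apply, Base.H, Base.ov_of_ne hv]
    simp

theorem cop_gen {L : B.Dv} (hL : B.IsDiv K' L) (a a' : ℤ) {ε : Ω} (hε : ε ∈ K') (ε0 : ε ≠ 0) :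
    ∃ w : F, w ≠ 0 ∧ algebraMap F Ω w ∈ B.Γ K' ((1 : ℤ) • B.H + (0 : ℤ) • L) ∧
      ∀ (c r : ℕ) (b j : ℤ) (z : Ω), ε ^ c * z ∈ B.Γ K' ((j + c * a') • B.H + (b + c * a) • L) →
        algebraMap F Ω w ^ r * z ∈ B.Γ K' ((j + r) • B.H + b • L) →
          z ∈ B.Γ K' (j • B.H + b • L) := by
  obtain ⟨U, hU, h1⟩ := ((Base.isDiv_dv (B := B) hε).add
    (((Base.isDiv_H _).zsmul a').add (hL.zsmul a))).fin
  obtain ⟨π, -, h2, w, w0, h3⟩ := Base.hyp' (B := B) hU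
  have h5 : ∀ v : B.P, B.H v + v.1.ord (algebraMap F Ω w) = B.ov π v := fun v => congrFun h3 v
  refine ⟨w, w0, Base.mem_Γ.2 ⟨K'.algebraMap_mem w, fun v => .of_le ?_⟩,
    fun c r b j z h8 h9 => ?_⟩
  · have h6 : (0 : ℚ) ≤ B.ov π v := Base.ov_nonneg π v
    rw [one_zsmul, zero_zsmul, add_zero]
    linarith [h5 v]
  · rw [add_zsmul, add_zsmul, add_add_add_comm] at h8
    rw [add_zsmul, add_right_comm] at h9
    refine cop_val (pow_mem hε c) (pow_ne_zero c ε0) (pow_ne_zero r ((map_ne_zero _).2 w0))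
      (fun v => ?_) h8 h9
    by_cases hv : B.res v = π
    · refine Or.inl ?_
      have h10 := not_not.1 fun h => h2 (hv ▸ h1 v h)
      rw [Pi.add_apply, Pi.add_apply, Pi.smul_apply, Pi.smul_apply, Base.dv_apply, zsmul_eq_mul,
        zsmul_eq_mul] at h10
      rw [QVal.ord_pow, Pi.add_apply, Pi.smul_apply, Pi.smul_apply, zsmul_eq_mul, zsmul_eq_mul]
      push_cast
      exact le_of_eq (by linear_combination (c : ℚ) * h10)
    · refine Or.inr ?_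
      have h10 := h5 v
      rw [Base.ov_of_ne hv] at h10
      rw [Pi.smul_apply, zsmul_eq_mul, QVal.ord_pow]
      push_cast
      exact le_of_eq (by linear_combination (r : ℚ) * h10)

end

variable {K ι k F : Type} [Field K] [Algebra ℂ K] [Field k] [Field F] [Algebra k F] [Algebra F K]
  [Algebra ℂ k] [Algebra k K] [IsScalarTower ℂ k K] [IsScalarTower k F K] [Fintype ι] [Nonempty ι]
  {s : ℕ} {x g : ι → Kˣ} {ξ : Fin (s + 3) → K} {Θ : K} {ev : MvPolynomial (Fin (s + 1)) k →ₐ[k] F}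

theorem Pen.Gm.tot {p : Pen k x g} (G : p.Gm) (hc : Cart x g)
    (fd : ∀ t a : ℕ, FiniteDimensional ℂ (SecS x g t a)) {C d : ℕ}
    (hC : ∀ r : ℕ, finrank k (G.Γ 0 r) ≤ C * (r + 1) ^ d) :
    ∃ C' : ℕ, ∀ t a : ℕ, finrank ℂ (SecS x g t a) ≤ C' * (t + a + 1) ^ (d + 1) := by
  refine tot_of hc fd (d := d) (C := C) fun a => ?_
  have := fd 0 (a + 1 + G.e)
  have := p.fd_M (0 : ℕ) (a + 1 + G.e)
  have := (fd_mul (S := G.Γ 0 (a + 1 : ℕ)) (S' := p.M (0 : ℕ) (a + 1 + G.e)) G.u_ne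
    (G.kill (a + 1))).1
  have h1 : finrank k (p.M (0 : ℕ) (a + 1)) ≤ finrank k (G.Γ 0 (a + 1 : ℕ)) :=
    Submodule.finrank_mono (G.M_le 0 (a + 1))
  have := fd 0 (a + 1)
  have h2 := p.dim_M (0 : ℕ) a
  have h3 := hC (a + 1)
  omega

theorem Sop.nu_of_small (S : Sop x ξ Θ) (T : Tw (yy ξ) ev)
    (frac : ∀ i, IsFractionRing (chart x i) K) (norm : ∀ i, IsIntegrallyClosed (chart x i))
    (hc : Cart x g) (hn : Nef x g) {P : MvPolynomial (Fin 2) ℚ} {a₀ : ℕ}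
    (hP : ∀ t a : ℕ, a₀ ≤ a → FiniteDimensional ℂ (SecS x g t a) ∧
      (finrank ℂ (SecS x g t a) : ℚ) = MvPolynomial.eval ![(t : ℚ), (a : ℚ)] P)
    {c : ℚ} (hc0 : 0 < c)
    (chi : ∀ᶠ t : ℕ in atTop, c * (t : ℚ) ^ s ≤ MvPolynomial.eval ![(t : ℚ), 0] P)
    (small : ¬ ∃ δ : ℚ, 0 < δ ∧ ∃ᶠ t : ℕ in atTop, δ * (t : ℚ) ^ s ≤ finrank ℂ (SecS x g t 0))
    (Ω : Type) [Field Ω] [Algebra K Ω] [Algebra F Ω] [Algebra k Ω] [IsScalarTower F K Ω]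
    [IsScalarTower k F Ω] [IsScalarTower k K Ω] [IsAlgClosure F Ω] :
    ∀ a : ℕ, ∃ C : ℕ, ∀ t : ℕ, finrank ℂ (SecS x g t a) ≤ C * (t + 1) ^ s := by
  have : CharZero k := charZero_of_injective_algebraMap (algebraMap ℂ k).injective
  have : CharZero F := charZero_of_injective_algebraMap (algebraMap k F).injective
  have : CharZero Ω := charZero_of_injective_algebraMap (algebraMap k Ω).injective
  have := S.fd
  have : FiniteDimensional F K := T.hF.fd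
  obtain ⟨p, hp⟩ := S.exists_pen (k := k) g frac norm T.hk
  obtain ⟨Γ, mem⟩ : ∃ Γ : ℤ → ℤ → Submodule k K, ∀ {b j : ℤ} {z : K}, z ∈ Γ b j ↔
      algebraMap K Ω z ∈ (T.fr.base Ω).Γ (KO K F Ω)
        (j • (T.fr.base Ω).H + b • LL (T.fr.base Ω) x g) :=
    ⟨fun b j => ((T.fr.base Ω).Γ (KO K F Ω)
      (j • (T.fr.base Ω).H + b • LL (T.fr.base Ω) x g)).comap (emb K k Ω), Iff.rfl⟩
  have mul : ∀ {b j b' j' : ℤ} {φ ψ : K}, φ ∈ Γ b j → ψ ∈ Γ b' j' →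
      φ * ψ ∈ Γ (b + b') (j + j') := fun hφ hψ => by
    have h := Base.mul_mem_Γ (mem.1 hφ) (mem.1 hψ)
    rwa [add_add_add_comm, ← add_zsmul, ← add_zsmul, ← map_mul, ← mem] at h
  have sec : ∀ {b : ℤ} {j : ℕ} {z : K}, Sec x g b j z → z / ξ 0 ^ j ∈ Γ b j := fun hz => by
    rw [mem, natCast_zsmul]
    exact S.sec T hz
  have tr : ∀ r : ℕ, ∀ φ ∈ Γ 0 r, ∃ q : MvPolynomial (Fin (s + 1)) k, q.totalDegree ≤ r ∧
      MvPolynomial.aeval (fun l => yy ξ l.succ) q = algebraMap F K (Algebra.trace F K φ) :=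
    fun r φ hφ => T.trace_poly (Ω := Ω) (by
      rwa [mem, natCast_zsmul, zero_zsmul, add_zero] at hφ)
  have hΘ : ∀ {j : ℤ} {φ : K}, φ ∈ Γ 0 j → φ * (Θ / ξ 0) ∈ Γ 0 (j + 1) := fun h => by
    have h1 := sec (sec_of_VV (g := g) (μ := 1) (by rw [pow_one]; exact S.memT))
    simpa using mul h h1
  obtain ⟨G, rfl, hu, he⟩ : ∃ G : p.Gm, G.Γ = Γ ∧ G.u = dl F (Θ / ξ 0) ∧ G.e = finrank F K - 1 :=
    ⟨⟨Γ, _, _, dl_ne_zero _, mul, fun h => hp ▸ sec h,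
      fun r φ hφ => S.kill p hp T.hF hΘ tr r hφ⟩, rfl, rfl, rfl⟩
  have y0 : yy ξ (Fin.succ 0) ≠ 0 := div_ne_zero (S.ne _) (S.ne _)
  have ne : ∀ {z : K}, z ≠ 0 → algebraMap K Ω z ≠ 0 := fun h => (map_ne_zero _).2 h
  have hy : yy ξ (Fin.succ 0) ∈ p.M 0 1 :=
    Submodule.subset_span ⟨ξ (Fin.succ 0).succ,
      sec_of_VV (μ := 1) (by rw [pow_one]; exact S.mem _), by rw [hp, pow_one, yy]⟩
  obtain ⟨C, hC⟩ := S.grow T.hF hΘ tr
  refine G.nu_of_small hc hn y0 hy (fun b j a N z h1 h2 => ?_) (fun a a' ε ε0 _ => ?_) hP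
    (G.tot hc (fd_sec fun t a ha => (hP t a ha).1) hC) hc0 chi small
  · rw [mem] at h1 h2 ⊢
    rw [map_mul] at h1
    refine cop_inf (map_mem_KO _) (ne (mul_ne_zero G.u_ne (pow_ne_zero a y0))) (fun v hv => ?_)
      h1 h2
    rw [map_mul, map_pow, v.1.ord_mul (ne G.u_ne) (pow_ne_zero a (ne y0)), QVal.ord_pow, hu, he,
      S.ord_dl_inf T hv, T.ord_y_inf hv 0, Nat.cast_add]
    ring
  · obtain ⟨w, w0, h1, h2⟩ := cop_gen (geo_hL (B := T.fr.base Ω) hc) a a' (map_mem_KO ε) (ne ε0)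
    rw [IsScalarTower.algebraMap_apply F K Ω] at h1 h2
    refine ⟨algebraMap F K w, (map_ne_zero _).2 w0, mem.2 h1, fun c r b j z h3 h4 => ?_⟩
    rw [mem, map_mul, map_pow] at h3 h4
    exact mem.2 (h2 c r b j _ h3 h4)

end Pool.Agent.Lib.MP_bc213e_ag.KBG

namespace Pool.Agent.Lib.MP_bc213e_ag.KBA

open Pool.Agent.Lib.MP_bc213e_ag.Hyp Pool.Agent.Lib.MP_bc213e_ag.KBB Filter
open Pool.Agent.Lib.MP_bc213e_ag.KBG

theorem nu_of_small {K ι : Type} [Field K] [Algebra ℂ K] [Fintype ι] {n : ℕ} (hn : 2 ≤ n)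
    (x g : ι → Kˣ) (i₀ : ι) (one : x i₀ = 1)
    (frac : ∀ i, IsFractionRing (chart x i) K) (norm : ∀ i, IsIntegrallyClosed (chart x i))
    (τ : Fin n → K) (hτ : IsTranscendenceBasis ℂ τ)
    (cartier : ∀ i j, ∃ e : ℕ, (g i : K) / g j * ((x i : K) / x j) ^ e ∈ chart x j)
    (nef : ∀ t : ℕ, ∃ N : ℕ, 0 < N ∧ Free x g (N * t) N)
    (P : MvPolynomial (Fin 2) ℚ) (a₀ : ℕ)
    (hP : ∀ t a : ℕ, a₀ ≤ a → FiniteDimensional ℂ (SecS x g t a) ∧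
      (Module.finrank ℂ (SecS x g t a) : ℚ) = MvPolynomial.eval ![(t : ℚ), (a : ℚ)] P)
    {c : ℚ} (hc : 0 < c)
    (chi : ∀ᶠ t : ℕ in atTop, c * (t : ℚ) ^ (n - 2) ≤ MvPolynomial.eval ![(t : ℚ), 0] P)
    (small : ¬ ∃ δ : ℚ, 0 < δ ∧ ∃ᶠ t : ℕ in atTop,
      δ * (t : ℚ) ^ (n - 2) ≤ Module.finrank ℂ (SecS x g t 0)) :
    ∀ a : ℕ, ∃ C : ℕ, ∀ t : ℕ, Module.finrank ℂ (SecS x g t a) ≤ C * (t + 1) ^ (n - 2) := by
  obtain ⟨s, rfl⟩ := Nat.exists_eq_add_of_le' hn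
  rw [Nat.add_sub_cancel] at chi small ⊢
  have : Nonempty ι := ⟨i₀⟩
  have dim : Algebra.trdeg ℂ K = (s + 2 : ℕ) := by
    rw [← hτ.cardinalMk_eq_trdeg, Cardinal.mk_fin]
  obtain ⟨ξ, Θ, S⟩ := exists_sop x i₀ one (frac i₀) dim
  have := S.fd
  have : FiniteDimensional (FF ξ) K := S.tw.hF.fd
  have : Algebra.IsAlgebraic (FF ξ) (AlgebraicClosure K) := Algebra.IsAlgebraic.trans (FF ξ) K _
  have : IsAlgClosure (FF ξ) (AlgebraicClosure K) := ⟨inferInstance, inferInstance⟩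
  exact S.nu_of_small S.tw frac norm cartier nef hP hc chi small (AlgebraicClosure K)

end Pool.Agent.Lib.MP_bc213e_ag.KBA
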