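import Pool.Agent.Lib.MP_bc213e_ag.KBB.Lift

/-! The generic member of a pencil of hyperplane sections. -/

namespace Pool.Agent.Lib.MP_bc213e_ag.KBG

open Hyp KBB Polynomial Module

noncomputable section

variable {K ι : Type} [Field K] [Algebra ℂ K] (k : Type) [Field k] [Algebra ℂ k] [Algebra k K]

/-- A pencil `p₁ - t p₀` of hyperplane sections with base locus of codimension two; `k = ℂ (t)`. -/
structure Pen (x g : ι → Kˣ) where
  p₀ : K
  p₁ : K
  t : k
  h₀ : Sec x g 0 1 p₀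
  h₁ : Sec x g 0 1 p₁
  ne₀ : p₀ ≠ 0
  ht : algebraMap k K t * p₀ = p₁
  tr : Transcendental ℂ t
  den : ∀ c : k, ∃ q r : ℂ[X], r ≠ 0 ∧ c * aeval t r = aeval t q
  frac : ∀ i, IsFractionRing (chart x i) K
  norm : ∀ i, IsIntegrallyClosed (chart x i)
  rs : ∀ (i : ι) (z : K) (N : ℕ), (p₀ / x i) ^ N * z ∈ chart x i →
    (p₁ / x i) ^ N * z ∈ chart x i → z ∈ chart x i

/-- The coordinate ring of a chart of the generic member. -/
def Bk (x : ι → Kˣ) (i : ι) : Subalgebra k K :=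
  Algebra.adjoin k (Set.range fun j => (x j : K) / x i)

variable {k} {x g : ι → Kˣ}

/-- The parameter of the pencil, in `K`. -/
def Pen.τ (p : Pen k x g) : K := algebraMap k K p.t

/-- The restrictions of the sections of `b L + j H` to the generic member. -/
def Pen.M (p : Pen k x g) (b : ℤ) (j : ℕ) : Submodule k K :=
  Submodule.span k {z | ∃ s, Sec x g b j s ∧ z = s / p.p₀ ^ j}

/-- `Γ b j` plays the role of the sections of `b L + j H` on the normalisation of the generic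
member; `u` is a section of `e H`. -/
structure Pen.Gm (p : Pen k x g) where
  Γ : ℤ → ℤ → Submodule k K
  u : K
  e : ℕ
  u_ne : u ≠ 0
  mul : ∀ {b j b' j' : ℤ} {φ ψ : K}, φ ∈ Γ b j → ψ ∈ Γ b' j' → φ * ψ ∈ Γ (b + b') (j + j')
  sec : ∀ {b : ℤ} {j : ℕ} {s : K}, Sec x g b j s → s / p.p₀ ^ j ∈ Γ b j
  kill : ∀ r : ℕ, ∀ φ ∈ Γ 0 r, u * φ ∈ p.M 0 (r + e)

theorem sec_mul {b b' : ℤ} {j j' : ℕ} {s s' : K} (h : Sec x g b j s) (h' : Sec x g b' j' s') :
    Sec x g (b + b') (j + j') (s * s') := fun i => by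
  have := mul_mem (sec_iff_fr.1 h i) (sec_iff_fr.1 h' i)
  rwa [div_mul_div_comm, ← fr_add] at this

theorem sec_one (x g : ι → Kˣ) : Sec x g 0 0 1 := fun i => by simp

theorem sec_pow {b : ℤ} {j : ℕ} {s : K} (h : Sec x g b j s) (m : ℕ) :
    Sec x g (m * b) (m * j) (s ^ m) := by
  induction m with
  | zero => simpa using sec_one x g
  | succ m ih =>
    have := sec_mul ih h
    rwa [← pow_succ, ← add_one_mul, ← add_one_mul, ← Nat.cast_add_one] at this

theorem Pen.M_mul (p : Pen k x g) {b b' : ℤ} {j j' : ℕ} {z z' : K} (h : z ∈ p.M b j)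
    (h' : z' ∈ p.M b' j') : z * z' ∈ p.M (b + b') (j + j') := by
  have := Submodule.mul_mem_mul h h'
  rw [Pen.M, Pen.M, Submodule.span_mul_span] at this
  refine Submodule.span_mono ?_ this
  rintro _ ⟨_, ⟨s, hs, rfl⟩, _, ⟨s', hs', rfl⟩, rfl⟩
  exact ⟨s * s', sec_mul hs hs', by rw [pow_add, ← div_mul_div_comm]⟩

theorem Pen.one_mem (p : Pen k x g) (j : ℕ) : (1 : K) ∈ p.M 0 j := by
  refine Submodule.subset_span ⟨p.p₀ ^ j, ?_, (div_self (pow_ne_zero _ p.ne₀)).symm⟩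
  simpa using sec_pow p.h₀ j

theorem Pen.M_mono (p : Pen k x g) (b : ℤ) {j j' : ℕ} (h : j ≤ j') : p.M b j ≤ p.M b j' := by
  obtain ⟨c, rfl⟩ := Nat.exists_eq_add_of_le h
  intro z hz
  simpa using p.M_mul hz (p.one_mem c)

theorem Pen.Gm.M_le {p : Pen k x g} (G : p.Gm) (b : ℤ) (j : ℕ) : p.M b j ≤ G.Γ b j := by
  refine Submodule.span_le.2 ?_
  rintro _ ⟨s, hs, rfl⟩
  exact G.sec hs

theorem Pen.Gm.mono {p : Pen k x g} (G : p.Gm) (b : ℤ) {j j' : ℤ} (h : j ≤ j') :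
    G.Γ b j ≤ G.Γ b j' := by
  intro z hz
  have := G.mul hz (G.M_le 0 (j' - j).toNat (p.one_mem _))
  rwa [mul_one, add_zero, Int.toNat_of_nonneg (sub_nonneg.2 h), add_sub_cancel] at this

end

end Pool.Agent.Lib.MP_bc213e_ag.KBG
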