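import Pool.Agent.Lib.MP_bc213e_ag.KBG.PDiv

/-! The dimension of the restricted linear system. -/

namespace Pool.Agent.Lib.MP_bc213e_ag.KBG

open Hyp KBB Polynomial Module

variable {K ι : Type} [Field K] [Algebra ℂ K] {k : Type} [Field k] [Algebra ℂ k] [Algebra k K]
  [IsScalarTower ℂ k K] {x g : ι → Kˣ} (p : Pen k x g)

/-- Multiplication by a nonzero element. -/
theorem fd_mul {R : Type} [Field R] [Algebra R K] {S S' : Submodule R K} [FiniteDimensional R S']
    {f : K} (hf : f ≠ 0) (h : ∀ s ∈ S, f * s ∈ S') :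
    FiniteDimensional R S ∧ finrank R S ≤ finrank R S' := by
  have h1 : Function.Injective ((LinearMap.mulLeft R f).restrict h) := fun a b e =>
    Subtype.ext (mul_left_cancel₀ hf (congrArg Subtype.val e))
  exact ⟨FiniteDimensional.of_injective _ h1, LinearMap.finrank_le_finrank_of_injective h1⟩

theorem PDim_fd (S : Submodule ℂ K) [FiniteDimensional ℂ S] :
    FiniteDimensional k (Submodule.span k (S : Set K)) := by
  obtain ⟨s, rfl⟩ : S.FG := Module.Finite.iff_fg.1 inferInstance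
  rw [Submodule.span_span_of_tower]
  exact FiniteDimensional.span_of_finite k s.finite_toSet

theorem Pen.PDim_up (b : ℤ) (j : ℕ) :
    ∀ z ∈ p.M b j, p.p₀ ^ j * z ∈ Submodule.span k (SecS x g b j : Set K) := by
  refine (Submodule.span_le (p := (Submodule.span k (SecS x g b j : Set K)).comap
    (LinearMap.mulLeft k (p.p₀ ^ j)))).2 ?_
  rintro _ ⟨s, hs, rfl⟩
  refine Submodule.subset_span ?_
  rw [LinearMap.mulLeft_apply, mul_div_cancel₀ _ (pow_ne_zero _ p.ne₀)]
  exact hs

theorem Pen.PDim_down (b : ℤ) (j : ℕ) :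
    ∀ z ∈ Submodule.span k (SecS x g b j : Set K), (p.p₀ ^ j)⁻¹ * z ∈ p.M b j := by
  refine (Submodule.span_le (p := (p.M b j).comap (LinearMap.mulLeft k (p.p₀ ^ j)⁻¹))).2 ?_
  intro s hs
  exact Submodule.subset_span ⟨s, hs, inv_mul_eq_div _ _⟩

theorem Pen.fd_M (b : ℤ) (j : ℕ) [FiniteDimensional ℂ (SecS x g b j)] :
    FiniteDimensional k (p.M b j) := by
  have := PDim_fd (k := k) (SecS x g b j)
  exact (fd_mul (pow_ne_zero _ p.ne₀) (p.PDim_up b j)).1

theorem Pen.PDim_key {S₀ S : Submodule ℂ K} [FiniteDimensional ℂ S] (hle : S₀ ≤ S)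
    (hτ : ∀ s ∈ S₀, p.τ * s ∈ S)
    (hd : ∀ D : K[X], (∀ a, ((X - C p.τ) * D).coeff a ∈ S) → ∀ a, D.coeff a ∈ S₀) :
    finrank k (Submodule.span k (S : Set K)) + finrank ℂ S₀ = finrank ℂ S := by
  obtain ⟨U', hU'⟩ := S₀.exists_isCompl
  obtain ⟨U, hUS, hsup, hinf⟩ : ∃ U, U ≤ S ∧ S₀ ⊔ U = S ∧ S₀ ⊓ U = ⊥ :=
    ⟨U' ⊓ S, inf_le_right, by rw [← sup_inf_assoc_of_le _ hle, hU'.sup_eq_top, top_inf_eq],
      by rw [← inf_assoc, hU'.inf_eq_bot, bot_inf_eq]⟩
  have := Submodule.finiteDimensional_of_le hUS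
  have := Submodule.finiteDimensional_of_le hle
  have hdim := Submodule.finrank_sup_add_finrank_inf_eq S₀ U
  rw [hsup, hinf, finrank_bot, add_zero] at hdim
  let v : Fin (finrank ℂ U) → K := fun i => finBasis ℂ U i
  have hv : LinearIndependent ℂ v := (finBasis ℂ U).linearIndependent.map' U.subtype U.ker_subtype
  have hvU : Submodule.span ℂ (Set.range v) = U := by
    have h1 := congrArg (Submodule.map U.subtype) (finBasis ℂ U).span_eq
    rwa [Submodule.map_span, ← Set.range_comp, Submodule.map_subtype_top] at h1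
  have hspan : Submodule.span k (S : Set K) = Submodule.span k (Set.range v) := by
    rw [← Submodule.span_span_of_tower ℂ k (Set.range v), hvU]
    refine le_antisymm (Submodule.span_le.2 fun s hs => ?_) (Submodule.span_mono hUS)
    set W := Submodule.span k (U : Set K)
    by_contra hc
    refine p.tr (isIntegral_of_smul_mem_submodule (S.map (W.mkQ.restrictScalars ℂ))
      (fun e => hc ?_) (Submodule.FG.map _ (Module.Finite.iff_fg.1 inferInstance)) p.t
      ?_).isAlgebraic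
    · have h1 : W.mkQ.restrictScalars ℂ s ∈ S.map (W.mkQ.restrictScalars ℂ) := ⟨s, hs, rfl⟩
      rw [e, Submodule.mem_bot] at h1
      exact (Submodule.Quotient.mk_eq_zero W).1 h1
    · rintro _ ⟨z, hz, rfl⟩
      rw [← hsup] at hz
      obtain ⟨a, ha, c, hc, rfl⟩ := Submodule.mem_sup.1 hz
      refine ⟨p.τ * a, hτ a ha, ?_⟩
      have h1 : W.mkQ c = 0 := (Submodule.Quotient.mk_eq_zero W).2 (Submodule.subset_span hc)
      simp only [LinearMap.coe_restrictScalars, map_add, h1, add_zero]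
      rw [← map_smul, Algebra.smul_def]
      rfl
  have hli : LinearIndependent k v := by
    rw [linearIndependent_iff_notMem_span] at hv ⊢
    intro i hi
    rw [← Submodule.span_span_of_tower ℂ k, p.mem_span_iff] at hi
    obtain ⟨r, Q, hr, hQ, h1⟩ := hi
    have hvi : v i ∈ U := (finBasis ℂ U i).2
    have h2 : ∀ a, (Q - C (v i) * r.map (algebraMap ℂ K)).coeff a =
        Q.coeff a - r.coeff a • v i := fun a => by
      rw [coeff_sub, coeff_C_mul, coeff_map, Algebra.smul_def, mul_comm]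
    have h3 : ∀ a, (Q - C (v i) * r.map (algebraMap ℂ K)).coeff a ∈ U := fun a => by
      rw [h2]
      refine U.sub_mem ?_ (U.smul_mem _ hvi)
      rw [← hvU]
      exact Submodule.span_mono (Set.image_subset_range _ _) (hQ a)
    obtain ⟨D, hD⟩ : X - C p.τ ∣ Q - C (v i) * r.map (algebraMap ℂ K) := by
      rw [dvd_iff_isRoot, IsRoot, eval_sub, eval_mul, eval_C, eval_map_algebraMap, ← h1, mul_comm,
        sub_self]
    have h4 : D.leadingCoeff ∈ S₀ ⊓ U := by
      refine ⟨hd D (fun a => hD ▸ hUS (h3 a)) _, ?_⟩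
      rw [← leadingCoeff_monic_mul (q := D) (monic_X_sub_C p.τ), ← hD]
      exact h3 _
    rw [hinf, Submodule.mem_bot, leadingCoeff_eq_zero] at h4
    have h5 := h2 r.natDegree
    rw [hD, h4, mul_zero, coeff_zero, eq_comm, sub_eq_zero] at h5
    refine hv i ((Submodule.smul_mem_iff _ (leadingCoeff_ne_zero.2 hr)).1 ?_)
    rw [leadingCoeff, ← h5]
    exact hQ _
  rw [hspan, finrank_span_eq_card hli, Fintype.card_fin, hdim, add_comm]

/-- Sketch. Let `S₀ = p₀ * SecS b j ≤ S = SecS b (j + 1)`, `U` a complement of `S₀` in `S` with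
basis `u`. Then `τ S₀ ≤ S` (`p.ht`, `sec_mul p.h₁`). `span k S = span k U`: on `S₀`
multiplication by `τ` is `A + B`, `A : S₀ → S₀`, `B : S₀ → U`, so `r(τ) s - r(A) s ∈ span k U`, take
`r = charpoly A` (or `minpoly`), `p.aeval_ne`. `u` is independent over `k`: by
`LinearIndependent.iff_fractionRing`-like clearing of denominators (`p.den`) a relation gives
`Q : K[X]` with coefficients in `U`, `Q.eval τ = 0`, so `Q = (X - C τ) * D`, the coefficients of `D`
lie in `S₀` (`p.div_sec`), the leading coefficient of `Q` is that of `D`, in `S₀ ⊓ U = ⊥`.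
Finally `M b (j + 1)` is the image of `span k S` under division by `p₀ ^ (j + 1)`. -/
theorem Pen.dim_M (b : ℤ) (j : ℕ) [FiniteDimensional ℂ (SecS x g b (j + 1))] :
    finrank k (p.M b (j + 1)) + finrank ℂ (SecS x g b j) = finrank ℂ (SecS x g b (j + 1)) := by
  let S₀ := (SecS x g b j).comap (LinearMap.mulLeft ℂ p.p₀⁻¹)
  have h0 : ∀ {q : K}, Sec x g 0 1 q → ∀ s ∈ S₀, q * (p.p₀⁻¹ * s) ∈ SecS x g b (j + 1) :=
    fun hq s hs => by
      have h1 := sec_mul hq (show Sec x g b j (p.p₀⁻¹ * s) from hs)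
      rwa [zero_add, add_comm] at h1
  have hle : S₀ ≤ SecS x g b (j + 1) := fun s hs => by
    have h1 := h0 p.h₀ s hs
    rwa [mul_inv_cancel_left₀ p.ne₀] at h1
  have h1 := p.PDim_key hle (fun s hs => by
    have h1 := h0 p.h₁ s hs
    rwa [← p.ht, mul_assoc, mul_inv_cancel_left₀ p.ne₀] at h1) (fun D hD a => by
    have h1 := p.div_sec hD a
    rwa [← inv_mul_eq_div] at h1)
  have := Submodule.finiteDimensional_of_le hle
  obtain ⟨_, h2⟩ := fd_mul (S := SecS x g b j) (S' := S₀) p.ne₀ fun s hs => by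
    change p.p₀⁻¹ * (p.p₀ * s) ∈ SecS x g b j
    rwa [inv_mul_cancel_left₀ p.ne₀]
  have h3 := (fd_mul (S := S₀) (S' := SecS x g b j) (inv_ne_zero p.ne₀) fun s hs => hs).2
  have := PDim_fd (k := k) (SecS x g b (j + 1))
  obtain ⟨_, h4⟩ := fd_mul (pow_ne_zero _ p.ne₀) (p.PDim_up b (j + 1))
  have h5 := (fd_mul (inv_ne_zero (pow_ne_zero _ p.ne₀)) (p.PDim_down b (j + 1))).2
  omega

end Pool.Agent.Lib.MP_bc213e_ag.KBG
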