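import Pool.Agent.Lib.MP_bc213e_ag.KBG.PDefs

/-! Division by the equation of the generic member of a pencil. -/

namespace Pool.Agent.Lib.MP_bc213e_ag.KBG

open Hyp KBB Polynomial Module

variable {K ι : Type} [Field K] [Algebra ℂ K] {k : Type} [Field k] [Algebra ℂ k] [Algebra k K]
  [IsScalarTower ℂ k K] {x g : ι → Kˣ} (p : Pen k x g)

theorem Pen.aeval_τ (r : ℂ[X]) : aeval p.τ r = algebraMap k K (aeval p.t r) :=
  aeval_algebraMap_apply K p.t r

theorem Pen.aeval_ne {r : ℂ[X]} (hr : r ≠ 0) : aeval p.τ r ≠ 0 := by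
  rw [p.aeval_τ, _root_.map_ne_zero]
  exact fun h => hr (transcendental_iff.1 p.tr r h)

theorem coeff_map_mul_mem {W : Submodule ℂ K} (r : ℂ[X]) {Q : K[X]} (hQ : ∀ a, Q.coeff a ∈ W)
    (a : ℕ) : (r.map (algebraMap ℂ K) * Q).coeff a ∈ W := by
  rw [coeff_mul]
  refine sum_mem fun c _ => ?_
  rw [coeff_map, ← Algebra.smul_def]
  exact W.smul_mem _ (hQ _)

/-- Clearing denominators in a `k`-span. -/
theorem Pen.mem_span_iff (W : Submodule ℂ K) (z : K) : z ∈ Submodule.span k (W : Set K) ↔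
    ∃ (r : ℂ[X]) (Q : K[X]), r ≠ 0 ∧ (∀ a, Q.coeff a ∈ W) ∧ aeval p.τ r * z = Q.eval p.τ := by
  constructor
  · intro hz
    induction hz using Submodule.span_induction with
    | mem w hw =>
      refine ⟨1, C w, one_ne_zero, fun a => ?_, by simp⟩
      rw [coeff_C]
      split_ifs
      exacts [hw, zero_mem _]
    | zero => exact ⟨1, 0, one_ne_zero, fun a => by simp, by simp⟩
    | add z z' _ _ h h' =>
      obtain ⟨r, Q, hr, hQ, h⟩ := h
      obtain ⟨r', Q', hr', hQ', h'⟩ := h'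
      refine ⟨r * r', r'.map (algebraMap ℂ K) * Q + r.map (algebraMap ℂ K) * Q',
        mul_ne_zero hr hr', fun a => ?_, ?_⟩
      · rw [coeff_add]
        exact add_mem (coeff_map_mul_mem _ hQ a) (coeff_map_mul_mem _ hQ' a)
      · rw [eval_add, eval_mul, eval_mul, eval_map_algebraMap, eval_map_algebraMap, ← h, ← h',
          map_mul]
        ring
    | smul c z _ h =>
      obtain ⟨r, Q, hr, hQ, h⟩ := h
      obtain ⟨q₁, r₁, hr₁, hc⟩ := p.den c
      refine ⟨r₁ * r, q₁.map (algebraMap ℂ K) * Q, mul_ne_zero hr₁ hr,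
        coeff_map_mul_mem _ hQ, ?_⟩
      rw [eval_mul, eval_map_algebraMap, ← h, map_mul, p.aeval_τ q₁, ← hc, map_mul, ← p.aeval_τ,
        Algebra.smul_def]
      ring
  · rintro ⟨r, Q, hr, hQ, h⟩
    have h1 : z = (aeval p.t r)⁻¹ • Q.eval p.τ := by
      rw [← h, Algebra.smul_def, map_inv₀, ← p.aeval_τ, inv_mul_cancel_left₀ (p.aeval_ne hr)]
    rw [h1, eval_eq_sum_range]
    refine Submodule.smul_mem _ _ (sum_mem fun a _ => ?_)
    rw [mul_comm, Pen.τ, ← map_pow, ← Algebra.smul_def]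
    exact Submodule.smul_mem _ _ (Submodule.subset_span (hQ a))

theorem mem_Bk_iff (i : ι) (z : K) : z ∈ Bk k x i ↔ z ∈ Submodule.span k (OX x i : Set K) := by
  have h1 : Bk k x i = Algebra.adjoin k (chart x i : Set K) :=
    (Algebra.adjoin_adjoin_of_tower ℂ _).symm
  have h2 := Algebra.adjoin_eq_span_of_subset k (s := (chart x i : Set K)) (by
    refine subset_trans ?_ Submodule.subset_span
    exact Submonoid.closure_le (S := (chart x i).toSubmonoid).2 subset_rfl)
  rw [h1, ← Subalgebra.mem_toSubmodule, h2]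
  rfl

omit [IsScalarTower ℂ k K] in
theorem Pen.a_mem (i : ι) : p.p₀ / x i ∈ chart x i := by
  simpa using p.h₀ i

omit [IsScalarTower ℂ k K] in
theorem Pen.b_mem (i : ι) : p.p₁ / x i ∈ chart x i := by
  simpa using p.h₁ i

omit [IsScalarTower ℂ k K] in
theorem Pen.a_ne (i : ι) : p.p₀ / x i ≠ 0 := div_ne_zero p.ne₀ (x i).ne_zero

omit [IsScalarTower ℂ k K] in
theorem Pen.τ_mul (i : ι) : p.τ * (p.p₀ / x i) = p.p₁ / x i := by
  rw [← mul_div_assoc, Pen.τ, p.ht]

/-- If `Q = (T - τ) D` has regular coefficients then so has `D / p₀`. -/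
theorem Pen.div_mem (i : ι) {D : K[X]} (h : ∀ a, ((X - C p.τ) * D).coeff a ∈ chart x i) (a : ℕ) :
    D.coeff a / (p.p₀ / x i) ∈ chart x i := by
  have ha := p.a_mem i
  have hb := p.b_mem i
  have ha0 := p.a_ne i
  have hτ := p.τ_mul i
  set α := p.p₀ / x i
  set β := p.p₁ / x i
  have h0 : β * (D.coeff 0 / α) ∈ chart x i := by
    have := neg_mem (h 0)
    rw [sub_mul, coeff_sub, coeff_X_mul_zero, coeff_C_mul] at this
    convert this using 1
    rw [← hτ]
    field_simp
    ring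
  have h1 : ∀ n, α * (D.coeff n / α) - β * (D.coeff (n + 1) / α) ∈ chart x i := fun n => by
    have := h (n + 1)
    rw [sub_mul, coeff_sub, coeff_X_mul, coeff_C_mul] at this
    convert this using 1
    rw [← hτ]
    field_simp
  have h2 : ∀ n, β ^ (n + 1) * (D.coeff n / α) ∈ chart x i := fun n => by
    induction n with
    | zero => simpa using h0
    | succ n ih =>
      convert sub_mem (mul_mem ha ih) (mul_mem (pow_mem hb (n + 1)) (h1 n)) using 1
      ring
  have h3 : ∀ m n, D.natDegree < n + m → α ^ m * (D.coeff n / α) ∈ chart x i := fun m => by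
    induction m with
    | zero =>
      intro n hn
      rw [coeff_eq_zero_of_natDegree_lt (by simpa using hn), zero_div, mul_zero]
      exact zero_mem _
    | succ m ih =>
      intro n hn
      convert add_mem (mul_mem (pow_mem ha m) (h1 n)) (mul_mem hb (ih (n + 1) (by omega))) using 1
      ring
  refine p.rs i _ (D.natDegree + (a + 1)) (h3 _ _ (by omega)) ?_
  rw [pow_add, mul_assoc]
  exact mul_mem (pow_mem hb _) (h2 a)

theorem Pen.div_mem' (i : ι) {D : K[X]} (c : K)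
    (h : ∀ a, ((X - C p.τ) * D).coeff a * c ∈ chart x i) (a : ℕ) :
    D.coeff a * c / (p.p₀ / x i) ∈ chart x i := by
  have := p.div_mem i (D := D * C c) (fun a => by rw [← mul_assoc, coeff_mul_C]; exact h a) a
  rwa [coeff_mul_C] at this

theorem fr_succ (x g : ι → Kˣ) (b : ℤ) (j : ℕ) (i : ι) :
    fr x g b (j + 1) i = fr x g b j i * x i := by
  rw [fr, fr, pow_succ, mul_assoc]

theorem Pen.div_sec {b : ℤ} {j : ℕ} {D : K[X]}
    (h : ∀ a, Sec x g b (j + 1) (((X - C p.τ) * D).coeff a)) (a : ℕ) :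
    Sec x g b j (D.coeff a / p.p₀) := by
  refine sec_iff_fr.2 fun i => ?_
  have := p.div_mem' i (D := D) (fr x g b (j + 1) i)⁻¹
    (fun a => by rw [← div_eq_mul_inv]; exact sec_iff_fr.1 (h a) i) a
  convert this using 1
  have h1 := fr_ne x g b j i
  have h2 := (x i).ne_zero
  have h3 := p.ne₀
  rw [fr_succ]
  field_simp

theorem coeff_unif {A : Subalgebra ℂ K} {w : K} (hw : w ∈ A) {Q : K[X]} {c : K}
    (h : ∀ a, ∃ e : ℕ, Q.coeff a / c * w ^ e ∈ A) : ∃ e : ℕ, ∀ a, Q.coeff a / c * w ^ e ∈ A := by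
  choose e he using h
  refine ⟨Q.support.sup e, fun a => ?_⟩
  by_cases ha : a ∈ Q.support
  · obtain ⟨d, hd⟩ := Nat.exists_eq_add_of_le (Finset.le_sup (f := e) ha)
    rw [hd, pow_add, ← mul_assoc]
    exact mul_mem (he a) (pow_mem hw d)
  · rw [notMem_support_iff.1 ha, zero_div, zero_mul]
    exact zero_mem _

theorem Pen.div_l2 {b : ℤ} {j : ℕ} (i l : ι) {D : K[X]}
    (h : ∀ a, L2 x (OX x) i l (((X - C p.τ) * D).coeff a / fr x g b (j + 1) i)) (a : ℕ) :
    L2 x (OX x) i l (D.coeff a / p.p₀ / fr x g b j i) := by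
  obtain ⟨e, he⟩ := coeff_unif (Basic_mem x i l) h
  refine ⟨e, ?_⟩
  have := p.div_mem' i (D := D) ((fr x g b (j + 1) i)⁻¹ * ((x l : K) / x i) ^ e)
    (fun a => by rw [← mul_assoc, ← div_eq_mul_inv]; exact he a) a
  rw [mem_OX]
  convert this using 1
  have h1 := fr_ne x g b j i
  have h2 := (x i).ne_zero
  have h3 := p.ne₀
  rw [fr_succ]
  field_simp

end Pool.Agent.Lib.MP_bc213e_ag.KBG
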