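import Pool.Agent.Lib.MP_bc213e_ag.KBG.PDiv

/-! Sections on the generic member of the pencil come from `X`. -/

namespace Pool.Agent.Lib.MP_bc213e_ag.KBG

open Hyp KBB Polynomial Module

variable {K ι : Type} [Field K] [Algebra ℂ K] {k : Type} [Field k] [Algebra ℂ k] [Algebra k K]
  [IsScalarTower ℂ k K] {x g : ι → Kˣ} (p : Pen k x g)

theorem pglob_mul {i : ι} {f : K} (r : ℂ[X]) {Q : K[X]} (h : ∀ a, Q.coeff a / f ∈ chart x i)
    (a : ℕ) : (r.map (algebraMap ℂ K) * Q).coeff a / f ∈ chart x i := by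
  rw [coeff_mul, Finset.sum_div]
  refine sum_mem fun c _ => ?_
  rw [coeff_map, mul_div_assoc]
  exact mul_mem (Subalgebra.algebraMap_mem _ _) (h _)

theorem Pen.pglob_den [Fintype ι] {f : ι → K} (hf : ∀ i, f i ≠ 0) {w : K}
    (h : ∀ i, w / f i ∈ Bk k x i) : ∃ (r : ℂ[X]) (Q : ι → K[X]), r ≠ 0 ∧
      (∀ i a, (Q i).coeff a / f i ∈ chart x i) ∧ ∀ i, aeval p.τ r * w = (Q i).eval p.τ := by
  classical
  choose r Q hr hQ he using fun i => (p.mem_span_iff (OX x i) _).1 ((mem_Bk_iff i _).1 (h i))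
  refine ⟨∏ i, r i, fun i => (∏ l ∈ Finset.univ.erase i, r l).map (algebraMap ℂ K) *
    (Q i * C (f i)), Finset.prod_ne_zero_iff.2 fun i _ => hr i, fun i => pglob_mul _ fun a => ?_,
    fun i => ?_⟩
  · rw [coeff_mul_C, mul_div_assoc, div_self (hf i), mul_one]
    exact hQ i a
  · rw [eval_mul, eval_mul, eval_C, ← he i, eval_map_algebraMap,
      ← Finset.mul_prod_erase _ _ (Finset.mem_univ i), map_mul, mul_assoc (aeval p.τ (r i)) (w / _),
      div_mul_cancel₀ _ (hf i)]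
    ring

theorem Pen.pglob_lin {b : ℤ} {j : ℕ} (i : ι) {E : K[X]}
    (h : ∀ a, E.coeff a / p.p₀ / fr x g b j i ∈ chart x i) (a : ℕ) :
    ((X - C p.τ) * E).coeff a / fr x g b (j + 1) i ∈ chart x i := by
  have e1 : fr x g b (j + 1) i = fr x g b j i * fr x g 0 1 i := by
    rw [← fr_add, add_zero]
  have h0 := fr_ne x g b j i
  have h1 := fr_ne x g 0 1 i
  have h2 := p.ne₀
  have hX : ∀ c, E.coeff c / fr x g b (j + 1) i ∈ chart x i := by
    intro c
    have := mul_mem (h c) (sec_iff_fr.1 p.h₀ i)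
    rwa [show E.coeff c / p.p₀ / fr x g b j i * (p.p₀ / fr x g 0 1 i) =
      E.coeff c / fr x g b (j + 1) i by
        rw [e1]
        field_simp] at this
  have hT : p.τ * E.coeff a / fr x g b (j + 1) i ∈ chart x i := by
    have := mul_mem (h a) (sec_iff_fr.1 p.h₁ i)
    rwa [show E.coeff a / p.p₀ / fr x g b j i * (p.p₁ / fr x g 0 1 i) =
      p.τ * E.coeff a / fr x g b (j + 1) i by
        rw [e1, ← p.ht, Pen.τ]
        field_simp] at this
  rw [sub_mul, coeff_sub, coeff_C_mul, sub_div]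
  refine sub_mem ?_ hT
  cases a with
  | zero =>
    rw [coeff_X_mul_zero, zero_div]
    exact zero_mem _
  | succ a =>
    rw [coeff_X_mul]
    exact hX a

theorem Pen.pglob_span {b : ℤ} {j : ℕ} {w : K}
    (h : w ∈ Submodule.span k (SecS x g b j : Set K)) : w / p.p₀ ^ j ∈ p.M b j := by
  induction h using Submodule.span_induction with
  | mem s hs => exact Submodule.subset_span ⟨s, hs, rfl⟩
  | zero =>
    rw [zero_div]
    exact zero_mem _
  | add s s' _ _ hs hs' =>
    rw [add_div]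
    exact add_mem hs hs'
  | smul c s _ hs =>
    rw [smul_div_assoc]
    exact Submodule.smul_mem _ c hs

/-- Sketch. `w = z * p₀ ^ (j + 1)`. By `mem_Bk_iff`, `mem_span_iff` and a common denominator `r`:
`r(τ) w = (Q i).eval τ` with `(Q i).coeff a / fr b (j + 1) i ∈ chart i`. Put
`D i = (Q i - Q i₀) /ₘ (X - C τ)`, so `Q l - Q i = (X - C τ) * (D l - D i)`; `fr_trans`, `div_l2`
and `cousin` (for each `a`, `c i = (D i).coeff a / p₀`; only `a ≤ n₀` matter) give a polynomial `B`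
with `((D i).coeff a - B.coeff a) / p₀ / fr b j i ∈ chart i`. Then
`S = Q i₀ + (X - C τ) * B = Q i - (X - C τ) * (D i - B)` has coefficients in `Sec b (j + 1)`
(`p₀`, `τ p₀ = p₁` are sections of `H`) and `S.eval τ = r(τ) w`. -/
theorem Pen.glob [Fintype ι] [Nonempty ι] (hc : Cart x g) (hn : Nef x g) :
    ∃ a₀ : ℕ, ∀ b j : ℕ, a₀ ≤ j → ∀ z : K,
      (∀ i, z * p.p₀ ^ j / fr x g b j i ∈ Bk k x i) → z ∈ p.M b j := by
  classical
  obtain ⟨a₀, hco⟩ := cousin hc hn
  obtain ⟨i₀⟩ := ‹Nonempty ι›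
  refine ⟨a₀ + 1, fun b j hj z hz => ?_⟩
  obtain ⟨j, rfl⟩ : ∃ j', j = j' + 1 := ⟨j - 1, by omega⟩
  obtain ⟨r, Q, hr, hQ, he⟩ := p.pglob_den (fr_ne x g b (j + 1)) hz
  have hD : ∀ i, ∃ D, Q i - Q i₀ = (X - C p.τ) * D := fun i => dvd_iff_isRoot.2 (by
    rw [IsRoot.def, eval_sub, ← he, ← he, sub_self])
  choose D hD using hD
  have hβ : ∀ a, ∃ β : K, ∀ i, ((D i).coeff a / p.p₀ - β) / fr x g b j i ∈ chart x i := by
    intro a
    refine hco b j (by omega) _ fun i l => ?_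
    rw [← sub_div, ← coeff_sub]
    refine p.div_l2 i l (fun c => ?_) a
    rw [show (X - C p.τ) * (D l - D i) = Q l - Q i by linear_combination hD i - hD l, coeff_sub,
      sub_div, sub_eq_add_neg]
    exact (Idl.top x).l2_add ((Idl.top x).l2_fr hc ((Idl.top x).l2_of_mem i (hQ l c)))
      ((Idl.top x).l2_neg ((Idl.top x).l2_of_mem l (hQ i c)))
  choose β hβ using hβ
  obtain ⟨B, hB⟩ : ∃ B : K[X], ∀ i a, (D i - B).coeff a / p.p₀ / fr x g b j i ∈ chart x i := by
    refine ⟨∑ a ∈ Finset.range (Finset.univ.sup (fun i => (D i).natDegree) + 1),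
      monomial a (β a * p.p₀), fun i a => ?_⟩
    rw [coeff_sub, finsetSum_coeff]
    simp only [coeff_monomial, Finset.sum_ite_eq', Finset.mem_range]
    split_ifs with h
    · rw [sub_div, mul_div_cancel_right₀ _ p.ne₀]
      exact hβ a i
    · have h1 := Finset.le_sup (f := fun i => (D i).natDegree) (Finset.mem_univ i)
      rw [coeff_eq_zero_of_natDegree_lt (by omega), sub_zero, zero_div, zero_div]
      exact zero_mem _
  have hw : z * p.p₀ ^ (j + 1) ∈ Submodule.span k (SecS x g b (j + 1) : Set K) := by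
    refine (p.mem_span_iff _ _).2 ⟨r, Q i₀ + (X - C p.τ) * B, hr, fun a i => ?_, ?_⟩
    · rw [show Q i₀ + (X - C p.τ) * B = Q i - (X - C p.τ) * (D i - B) by
        linear_combination -hD i, coeff_sub, sub_div]
      exact sub_mem (hQ i a) (p.pglob_lin i (hB i) a)
    · rw [eval_add, eval_mul, eval_sub, eval_X, eval_C, sub_self, zero_mul, add_zero, he i₀]
  have := p.pglob_span hw
  rwa [mul_div_cancel_right₀ _ (pow_ne_zero _ p.ne₀)] at this

end Pool.Agent.Lib.MP_bc213e_ag.KBG
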