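import Pool.Agent.Lib.MP_bc213e_ag.KBG.PGlob

/-! Two sections with disjoint divisors that carry the normalisation into the generic member. -/

namespace Pool.Agent.Lib.MP_bc213e_ag.KBG

open Hyp KBB Polynomial Module

variable {K ι : Type} [Field K] [Algebra ℂ K] {k : Type} [Field k] [Algebra ℂ k] [Algebra k K]
  [IsScalarTower ℂ k K] {x g : ι → Kˣ} {p : Pen k x g}

theorem int_of_den {A : Subalgebra ℂ K} {m z : K} {P : K[X]} (hP : P.Monic) (hz : P.eval z = 0)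
    (hm : m ∈ A) (h : ∀ a, m * P.coeff a ∈ A) : IsIntegral A (m * z) := by
  have h1 : P.scaleRoots m ∈ lifts (algebraMap A K) := by
    refine (lifts_iff_coeff_lifts _).2 fun n => ?_
    have : (P.scaleRoots m).coeff n ∈ A := by
      rw [coeff_scaleRoots]
      rcases lt_trichotomy n P.natDegree with hn | rfl | hn
      · obtain ⟨d, hd⟩ : ∃ d, P.natDegree - n = d + 1 := ⟨P.natDegree - n - 1, by omega⟩
        rw [hd, pow_succ', ← mul_assoc, mul_comm _ m]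
        exact mul_mem (h n) (pow_mem hm d)
      · rw [hP.coeff_natDegree, Nat.sub_self, pow_zero, mul_one]
        exact one_mem _
      · rw [coeff_eq_zero_of_natDegree_lt hn, zero_mul]
        exact zero_mem _
    exact ⟨⟨_, this⟩, rfl⟩
  obtain ⟨q, hq, -, hq'⟩ := lifts_and_natDegree_eq_and_monic h1 ((monic_scaleRoots_iff m).2 hP)
  refine ⟨q, hq', ?_⟩
  rw [← eval_map, hq, scaleRoots_eval_mul, hz, mul_zero]

theorem chart_le_Bk (i : ι) {z : K} (hz : z ∈ chart x i) : z ∈ Bk k x i :=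
  (mem_Bk_iff i z).2 (Submodule.subset_span hz)

omit [IsScalarTower ℂ k K] in
theorem Pen.eval_mem (p : Pen k x g) (i : ι) {Q : K[X]} (hQ : ∀ a, Q.coeff a ∈ chart x i) {d : ℕ}
    (hd : Q.natDegree ≤ d) : Q.eval p.τ * (p.p₀ / x i) ^ d ∈ chart x i := by
  rw [eval_eq_sum_range, Finset.sum_mul]
  refine sum_mem fun a ha => ?_
  obtain ⟨c, rfl⟩ : ∃ c, d = a + c := ⟨d - a, by have := Finset.mem_range.1 ha; omega⟩
  rw [pow_add, ← mul_assoc, mul_assoc (Q.coeff a), ← mul_pow, p.τ_mul]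
  exact mul_mem (mul_mem (hQ a) (pow_mem (p.b_mem i) a)) (pow_mem (p.a_mem i) c)

/-- The denominators that make `Bk` a subring of a localisation of the chart. -/
def Pen.Den (p : Pen k x g) (i : ι) (m : K) : Prop :=
  m ∈ chart x i ∧ ∃ (ρ : k) (e : ℕ), ρ ≠ 0 ∧ m = algebraMap k K ρ * (p.p₀ / x i) ^ e

theorem Pen.den_Bk (p : Pen k x g) (i : ι) {c : K} (hc : c ∈ Bk k x i) :
    ∃ m, p.Den i m ∧ m * c ∈ chart x i := by
  obtain ⟨r, Q, hr, hQ, h⟩ := (p.mem_span_iff _ c).1 ((mem_Bk_iff i c).1 hc)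
  refine ⟨aeval p.τ r * (p.p₀ / x i) ^ max r.natDegree Q.natDegree, ⟨?_, aeval p.t r, _, ?_,
    by rw [p.aeval_τ]⟩, ?_⟩
  · rw [← eval_map_algebraMap]
    refine p.eval_mem i (fun a => ?_) (natDegree_map_le.trans (le_max_left _ _))
    rw [coeff_map]
    exact Subalgebra.algebraMap_mem _ _
  · have := p.aeval_ne hr
    rwa [p.aeval_τ, _root_.map_ne_zero] at this
  · rw [mul_right_comm, h]
    exact p.eval_mem i hQ (le_max_right _ _)

theorem Pen.den_finset (p : Pen k x g) (i : ι) (s : Finset K) (hs : ∀ c ∈ s, c ∈ Bk k x i) :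
    ∃ m, p.Den i m ∧ ∀ c ∈ s, m * c ∈ chart x i := by
  classical
  induction s using Finset.induction_on with
  | empty => exact ⟨1, ⟨(chart x i).one_mem, 1, 0, one_ne_zero, by simp⟩, by simp⟩
  | insert c s _ ih =>
    obtain ⟨m, ⟨hm, ρ, e, hρ, hme⟩, h⟩ := ih fun c hc => hs c (Finset.mem_insert_of_mem hc)
    obtain ⟨m', ⟨hm', ρ', e', hρ', hme'⟩, h'⟩ := p.den_Bk i (hs c (Finset.mem_insert_self _ _))
    refine ⟨m * m', ⟨mul_mem hm hm', ρ * ρ', e + e', mul_ne_zero hρ hρ', ?_⟩, fun c' hc' => ?_⟩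
    · rw [hme, hme', map_mul, pow_add]
      ring
    · rcases Finset.mem_insert.1 hc' with rfl | hc'
      · rw [mul_assoc]
        exact mul_mem hm h'
      · rw [mul_comm m, mul_assoc]
        exact mul_mem hm' (h c' hc')

/-- The generic member is normal away from the base locus. -/
theorem Pen.pow_mul_mem (p : Pen k x g) (i : ι) {z : K} (hz : IsIntegral (Bk k x i) z) :
    ∃ e : ℕ, (p.p₀ / x i) ^ e * z ∈ Bk k x i := by
  obtain ⟨P, hP, h0⟩ := hz
  obtain ⟨m, ⟨hm, ρ, e, hρ, hme⟩, h⟩ := p.den_finset i (P.map (algebraMap (Bk k x i) K)).coeffs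
    fun c hc => by
      obtain ⟨n, -, rfl⟩ := mem_coeffs_iff.1 hc
      rw [coeff_map]
      exact (P.coeff n).2
  have h1 := int_of_den (z := z) (hP.map (algebraMap (Bk k x i) K)) (by rwa [eval_map]) hm
    fun a => by
      by_cases ha : (P.map (algebraMap (Bk k x i) K)).coeff a = 0
      · rw [ha, mul_zero]
        exact zero_mem _
      · exact h _ (coeff_mem_coeffs ha)
  have := p.frac i
  have := p.norm i
  obtain ⟨y, hy⟩ := (IsIntegrallyClosed.isIntegral_iff (K := K)).1 h1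
  have h2 : m * z ∈ chart x i := hy ▸ y.2
  refine ⟨e, ?_⟩
  have h3 := (Bk k x i).smul_mem (chart_le_Bk i h2) ρ⁻¹
  rwa [hme, Algebra.smul_def, map_inv₀, mul_assoc,
    inv_mul_cancel_left₀ ((_root_.map_ne_zero _).2 hρ)] at h3

theorem Pen.M_loc (p : Pen k x g) (i : ι) {b : ℤ} {j : ℕ} {w : K} (hw : w ∈ p.M b j) :
    w * p.p₀ ^ j / fr x g b j i ∈ Bk k x i := by
  induction hw using Submodule.span_induction with
  | mem w hw =>
    obtain ⟨s, hs, rfl⟩ := hw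
    rw [div_mul_cancel₀ _ (pow_ne_zero _ p.ne₀)]
    exact chart_le_Bk i (sec_iff_fr.1 hs i)
  | zero =>
    rw [zero_mul, zero_div]
    exact zero_mem _
  | add w w' _ _ h h' =>
    rw [add_mul, add_div]
    exact add_mem h h'
  | smul c w _ h =>
    rw [smul_mul_assoc, smul_div_assoc]
    exact Subalgebra.smul_mem _ h c

variable (G : p.Gm)

theorem Pen.Gm.loc₁ (i : ι) {z : K} {r : ℕ} (h : z * ((x i : K) / p.p₀) ^ r ∈ G.Γ 0 r) :
    G.u * (p.p₀ / x i) ^ G.e * z ∈ Bk k x i := by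
  convert p.M_loc i (G.kill r _ h) using 1
  have h2 := (x i).ne_zero
  have h3 := p.ne₀
  rw [fr_zero, div_pow, div_pow, pow_add, pow_add]
  field_simp

omit [IsScalarTower ℂ k K] in
theorem Pen.Gm.x_mem (l : ι) : (x l : K) / p.p₀ ∈ G.Γ 0 1 := by
  simpa [fr_zero] using G.sec (main_sec_one x g l)

omit [IsScalarTower ℂ k K] in
theorem Pen.Gm.up (i : ι) {z : K} {r : ℕ} (h : z * ((x i : K) / p.p₀) ^ r ∈ G.Γ 0 r) (d : ℕ) :
    z * ((x i : K) / p.p₀) ^ (r + d) ∈ G.Γ 0 (r + d : ℕ) := by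
  induction d with
  | zero => exact h
  | succ d ih =>
    have := G.mul ih (G.x_mem i)
    rw [add_zero, mul_assoc, ← pow_succ] at this
    exact_mod_cast this

/-- The functions that are regular on the chart `i` of the normalisation. -/
def Pen.Gm.reg (i : ι) : Subalgebra k K where
  carrier := {z | ∃ r : ℕ, z * ((x i : K) / p.p₀) ^ r ∈ G.Γ 0 r}
  mul_mem' := fun {z z'} ⟨r, h⟩ ⟨r', h'⟩ => ⟨r + r', by
    have := G.mul h h'
    rw [add_zero, mul_mul_mul_comm, ← pow_add] at this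
    exact_mod_cast this⟩
  add_mem' := fun {z z'} ⟨r, h⟩ ⟨r', h'⟩ => ⟨r + r', by
    have h1 := G.up i h' r
    rw [add_comm r'] at h1
    rw [add_mul]
    exact add_mem (G.up i h r') h1⟩
  algebraMap_mem' := fun c => ⟨0, by
    rw [pow_zero, mul_one, Algebra.algebraMap_eq_smul_one]
    exact Submodule.smul_mem _ _ (G.M_le 0 0 (p.one_mem 0))⟩

omit [IsScalarTower ℂ k K] in
theorem Pen.Gm.Bk_le (i : ι) : Bk k x i ≤ G.reg i := by
  refine Algebra.adjoin_le ?_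
  rintro _ ⟨l, rfl⟩
  refine ⟨1, ?_⟩
  rw [pow_one, div_mul_div_cancel₀ (x i).ne_zero]
  exact G.x_mem l

theorem Pen.Gm.loc₂' [Fintype ι] (i : ι) :
    ∃ e₂ : ℕ, ∀ z ∈ G.reg i, (p.p₀ / x i) ^ e₂ * z ∈ Bk k x i := by
  have : IsNoetherianRing (Bk k x i) :=
    isNoetherianRing_of_fg (Subalgebra.fg_def.2 ⟨_, Set.finite_range _, rfl⟩)
  let R : Subalgebra (Bk k x i) K :=
    { (G.reg i).toSubsemiring with algebraMap_mem' := fun c => G.Bk_le i c.2 }
  have hu : G.u * (p.p₀ / x i) ^ G.e ≠ 0 := mul_ne_zero G.u_ne (pow_ne_zero _ (p.a_ne i))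
  have fg : R.toSubmodule.FG := by
    refine Submodule.FG.of_le (Submodule.fg_span_singleton (G.u * (p.p₀ / x i) ^ G.e)⁻¹) ?_
    rintro z ⟨r, hz⟩
    refine Submodule.mem_span_singleton.2 ⟨⟨_, G.loc₁ i hz⟩, ?_⟩
    rw [Subalgebra.smul_def, smul_eq_mul, mul_right_comm, mul_inv_cancel₀ hu, one_mul]
  have h1 : ∀ z : K, ∃ e : ℕ, z ∈ R → (p.p₀ / x i) ^ e * z ∈ Bk k x i := fun z => by
    by_cases hz : z ∈ R
    · exact (p.pow_mul_mem i (IsIntegral.of_mem_of_fg R fg z hz)).imp fun _ h _ => h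
    · exact ⟨0, fun h => absurd h hz⟩
  choose e he using h1
  obtain ⟨s, hs⟩ := fg
  refine ⟨s.sup e, fun z hz => ?_⟩
  have hz' : z ∈ Submodule.span (Bk k x i) (s : Set K) := hs ▸ hz
  clear hz
  induction hz' using Submodule.span_induction with
  | mem w hw =>
    obtain ⟨d, hd⟩ := Nat.exists_eq_add_of_le (Finset.le_sup (f := e) hw)
    have hw' : w ∈ R.toSubmodule := hs ▸ Submodule.subset_span hw
    rw [hd, add_comm, pow_add, mul_assoc]
    exact mul_mem (pow_mem (chart_le_Bk i (p.a_mem i)) d) (he w hw')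
  | zero =>
    rw [mul_zero]
    exact zero_mem _
  | add w w' _ _ h h' =>
    rw [mul_add]
    exact add_mem h h'
  | smul c w _ h =>
    rw [Subalgebra.smul_def, smul_eq_mul, mul_left_comm]
    exact mul_mem c.2 h

theorem Pen.Gm.loc₂ [Fintype ι] : ∃ e₂ : ℕ, ∀ (i : ι) (z : K) (r : ℕ),
    z * ((x i : K) / p.p₀) ^ r ∈ G.Γ 0 r → (p.p₀ / x i) ^ e₂ * z ∈ Bk k x i := by
  choose e he using G.loc₂'
  refine ⟨Finset.univ.sup e, fun i z r hz => ?_⟩
  obtain ⟨d, hd⟩ := Nat.exists_eq_add_of_le (Finset.le_sup (f := e) (Finset.mem_univ i))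
  rw [hd, add_comm, pow_add, mul_assoc]
  exact mul_mem (pow_mem (chart_le_Bk i (p.a_mem i)) d) (he i z ⟨r, hz⟩)

omit [IsScalarTower ℂ k K] in
theorem Pen.Gm.triv [Fintype ι] (hc : Cart x g) (i : ι) {b : ℤ} {j : ℕ} {φ : K}
    (hφ : φ ∈ G.Γ b j) :
    ∃ r : ℕ, φ * p.p₀ ^ j / fr x g b j i * ((x i : K) / p.p₀) ^ r ∈ G.Γ 0 r := by
  obtain ⟨r, hr⟩ := main_sec hc (-b) i
  refine ⟨j + r, ?_⟩
  have := G.mul hφ (G.sec hr)
  rw [add_neg_cancel, ← Nat.cast_add] at this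
  convert this using 1
  have h1 := zpow_ne_zero b (g i).ne_zero
  have h2 := (x i).ne_zero
  have h3 := p.ne₀
  rw [fr, fr, zpow_neg, div_pow, pow_add, pow_add]
  field_simp

theorem Pen.Gm.kills [Fintype ι] [Nonempty ι] (hc : Cart x g) (hn : Nef x g) :
    ∃ a₀ e₂ : ℕ, ∀ b j : ℕ, a₀ ≤ j → ∀ φ ∈ G.Γ b j,
      G.u * φ ∈ p.M b (j + G.e) ∧ φ ∈ p.M b (j + e₂) := by
  obtain ⟨a₀, h0⟩ := p.glob hc hn
  obtain ⟨e₂, h2⟩ := G.loc₂
  have key : ∀ (w : K) (b : ℤ) (j e : ℕ) (i : ι), w * p.p₀ ^ (j + e) / fr x g b (j + e) i =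
      (p.p₀ / x i) ^ e * (w * p.p₀ ^ j / fr x g b j i) := fun w b j e i => by
    have h1 := zpow_ne_zero b (g i).ne_zero
    have h2 := (x i).ne_zero
    rw [fr, fr, div_pow, pow_add, pow_add]
    field_simp
  refine ⟨a₀, e₂, fun b j hj φ hφ => ⟨h0 b _ (by omega) _ fun i => ?_,
    h0 b _ (by omega) _ fun i => ?_⟩⟩
  · obtain ⟨r, hr⟩ := G.triv hc i hφ
    convert G.loc₁ i hr using 1
    rw [key]
    ring
  · obtain ⟨r, hr⟩ := G.triv hc i hφ
    rw [key]
    exact h2 i _ r hr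

end Pool.Agent.Lib.MP_bc213e_ag.KBG
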